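import Pool.Agent.H971.EX.Types

/-! An atom of `Λ` at `1` leads to simultaneous extinction (helper file). -/

open MeasureTheory ProbabilityTheory Filter Topology Set Pool.Agent.H971.FV
open scoped ENNReal NNReal unitInterval

namespace Pool.Agent.H971.EX

section chain

variable {Λ : Measure ℝ} [IsFiniteMeasure Λ]

lemma atom_le_rate {b : ℕ} (hb : 2 ≤ b) : Λ.real {1} ≤ rate Λ b 1 := by
  have h1 : rate Λ b (b - b + 1) = (b.choose b : ℝ) * mergerRate Λ b b := rate_eq hb le_rfl
  rw [Nat.sub_self, zero_add, Nat.choose_self, Nat.cast_one, one_mul] at h1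
  rw [h1]
  unfold mergerRate
  have hint : IntegrableOn (fun u : ℝ => u ^ (b - 2) * (1 - u) ^ (b - b)) (Icc 0 1) Λ := by
    refine Integrable.of_bound (C := 1) (by fun_prop) ?_
    rw [ae_restrict_iff' measurableSet_Icc]
    refine Eventually.of_forall (fun u hu => ?_)
    rw [Nat.sub_self, pow_zero, mul_one, norm_pow, Real.norm_eq_abs, abs_of_nonneg hu.1]
    exact pow_le_one₀ hu.1 hu.2
  have h2 : ∫ u in ({1} : Set ℝ), u ^ (b - 2) * (1 - u) ^ (b - b) ∂Λ = Λ.real {1} := by
    rw [integral_singleton]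
    simp
  rw [← h2]
  refine setIntegral_mono_set hint ?_ (LE.le.eventuallyLE (by simp))
  rw [EventuallyLE, ae_restrict_iff' measurableSet_Icc]
  refine Eventually.of_forall (fun u hu => ?_)
  simp only [Pi.zero_apply, Nat.sub_self, pow_zero, mul_one]
  exact pow_nonneg hu.1 _

/-- complete coalescence by a jump with `u = 1` -/
lemma atom_S {g : ℕ → ℝ} (hg : ∀ m, 0 ≤ g m) {n : ℕ} (hn : 1 ≤ n) {t : ℝ} (ht : 0 ≤ t) :
    (1 - Real.exp (-(Λ.real {1} * t))) * g 1 ≤ S (rate Λ) g n t := by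
  set c := Λ.real {1} with hc
  have hc0 : 0 ≤ c := measureReal_nonneg
  set y : ℕ → ℝ → ℝ := fun b t => if b = 0 then 0 else if b = 1 then g 1 else
    (1 - Real.exp (-(c * t))) * g 1 with hy
  set y' : ℕ → ℝ → ℝ := fun b t => if b = 0 then 0 else if b = 1 then 0 else
    (c * Real.exp (-(c * t))) * g 1 with hy'
  have hE : ∀ s, HasDerivAt (fun t => Real.exp (-(c * t))) (Real.exp (-(c * s)) * (-(c * 1))) s :=
    fun s => (((hasDerivAt_id s).const_mul c).neg).exp
  have h1 : y n t ≤ S (rate Λ) g n t := by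
    refine le_S (N := n) rate_hr y y' (fun b _ => ?_) (fun b _ s hs => ?_) (fun b _ s hs => ?_)
      (fun b _ => ?_) n le_rfl t ht
    · simp only [hy]
      split_ifs
      · exact continuousOn_const
      · exact continuousOn_const
      · exact (by fun_prop : Continuous (fun t => (1 - Real.exp (-(c * t))) * g 1)).continuousOn
    · simp only [hy, hy']
      split_ifs
      · exact hasDerivAt_const _ _
      · exact hasDerivAt_const _ _
      · refine (((hE s).const_sub 1).mul_const (g 1)).congr_deriv ?_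
        ring
    · rcases Nat.lt_or_ge b 2 with hb | hb
      · have : Q (rate Λ) (fun j => y j s) b = 0 := by
          interval_cases b
          · simp [Q]
          · simp [Q, rate_zero]
        rw [this]
        simp only [hy']
        interval_cases b <;> simp
      · have hb0 : b ≠ 0 := by omega
        have hb1 : b ≠ 1 := by omega
        simp only [hy', hb0, hb1, if_false]
        unfold Q
        have h2 : rate Λ b 1 * (y 1 s - y b s)
            ≤ ∑ j ∈ Finset.range b, rate Λ b j * (y j s - y b s) := by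
          refine Finset.single_le_sum (f := fun j => rate Λ b j * (y j s - y b s)) (fun j _ => ?_)
            (Finset.mem_range.2 (by omega))
          simp only [hy, hb0, hb1, if_false]
          split_ifs with h3 h4
          · rw [h3, rate_zero, zero_mul]
          · refine mul_nonneg (rate_nonneg _ _) ?_
            have h5 := hg 1
            have h6 := Real.exp_pos (-(c * s))
            nlinarith
          · simp
        refine le_trans ?_ h2
        simp only [hy, hb0, hb1, if_false, if_true, one_ne_zero]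
        have h5 := hg 1
        have h6 := Real.exp_pos (-(c * s))
        have h7 : c ≤ rate Λ b 1 := atom_le_rate hb
        have h8 : 0 ≤ Real.exp (-(c * s)) * g 1 := by positivity
        nlinarith
    · simp only [hy, mul_zero, neg_zero, Real.exp_zero, sub_self, zero_mul]
      split_ifs with h3 h4
      · exact hg b
      · rw [h4]
      · exact hg b
  refine le_trans ?_ h1
  simp only [hy]
  split_ifs with h3 h4
  · omega
  · have h5 := hg 1
    have h6 := Real.exp_pos (-(c * t))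
    nlinarith
  · exact le_rfl

end chain

section process

variable {Ω : Type*} [mΩ : MeasurableSpace Ω] {P : Measure Ω}
  {Λ : Measure ℝ} {ρ : ℝ≥0 → Ω → ProbabilityMeasure I}
  [IsProbabilityMeasure P] [IsFiniteMeasure Λ] {𝓕 : Filtration ℝ≥0 mΩ}

/-- both sets of types die in `(s, s + t]` -/
lemma FVF.both_die (h : FVF Λ P ρ 𝓕) {U V : Set I} (hU : IsOpen U) (hV : IsOpen V)
    (hUV : Disjoint U V) {s : ℝ≥0} {G : Set Ω} (hG : MeasurableSet[𝓕 s] G) {t : ℝ} (ht : 0 ≤ t) :
    (1 - Real.exp (-(Λ.real {1} * t))) * ∫ ω in G, (1 - XX ρ U s ω - XX ρ V s ω) ∂P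
      ≤ P.real (G ∩ {ω | XX ρ U (s + t.toNNReal) ω = 0 ∧ XX ρ V (s + t.toNNReal) ω = 0}) := by
  have hφ := blim_cind (hU.union hV)
  have h1 : ∀ n, 1 ≤ n → (1 - Real.exp (-(Λ.real {1} * t))) *
      ∫ ω in G, (1 - XX ρ U s ω - XX ρ V s ω) ∂P ≤ yy P ρ (cind (U ∪ V)) s G n t := by
    intro n hn
    have h2 : S (rate Λ) (fun m => yy P ρ (cind (U ∪ V)) s G m 0) n t
        ≤ yy P ρ (cind (U ∪ V)) s G n t :=
      h.dual_le hG hφ (cind_sq _) (fun m _ => le_rfl) ht
    refine le_trans ?_ h2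
    have h3 := atom_S (Λ := Λ) (g := fun m => yy P ρ (cind (U ∪ V)) s G m 0) (fun m => by
      rw [yy_zero]
      exact integral_nonneg (fun ω => pow_nonneg (mass_mem hφ _ ω).1 m)) hn ht
    refine le_trans (le_of_eq ?_) h3
    rw [yy_zero]
    congr 1
    refine integral_congr_ae (Eventually.of_forall (fun ω => ?_))
    simp only [pow_one]
    rw [mass_cind_union hU hV hUV]
  have h2 := ge_of_tendsto (h.tendsto_yy hG hφ t) (eventually_atTop.2 ⟨1, h1⟩)
  refine h2.trans (measureReal_mono ?_)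
  rintro ω ⟨hω1, hω2⟩
  refine ⟨hω1, ?_⟩
  simp only [mem_ofPred_eq] at hω2 ⊢
  rw [mass_cind_union hU hV hUV] at hω2
  have h3 := (XX_mem (ρ := ρ) hU (s + t.toNNReal) ω).1
  have h4 := (XX_mem (ρ := ρ) hV (s + t.toNNReal) ω).1
  constructor <;> linarith

/-- initial behaviour on a rational grid -/
def EE (ρ : ℝ≥0 → Ω → ProbabilityMeasure I) (U V W : Set I) (θ : ℝ) (n : ℕ) : Set Ω :=
  ⋂ m : ℕ, {ω | τ m ≤ 1 / ((n : ℝ≥0) + 1) → 0 < XX ρ U (τ m) ω ∧ 0 < XX ρ V (τ m) ω ∧
    θ < XX ρ W (τ m) ω}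

lemma FVF.EE_meas (h : FVF Λ P ρ 𝓕) {U V W : Set I} (hU : IsOpen U) (hV : IsOpen V)
    (hW : IsOpen W) (θ : ℝ) (n : ℕ) : MeasurableSet (EE ρ U V W θ n) := by
  refine MeasurableSet.iInter (fun m => ?_)
  by_cases hm : τ m ≤ 1 / ((n : ℝ≥0) + 1)
  · simp only [hm, true_imp_iff]
    exact ((h.XX_meas' hU _) measurableSet_Ioi).inter (((h.XX_meas' hV _) measurableSet_Ioi).inter
      ((h.XX_meas' hW _) measurableSet_Ioi))
  · simp only [hm, false_imp_iff]
    exact MeasurableSet.univ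

lemma right_lsc' {p : ℝ≥0 → ProbabilityMeasure I}
    (hr : ∀ t, ContinuousWithinAt p (Ici t) t) {U : Set I} (hU : IsOpen U) {t : ℝ≥0} {θ : ℝ}
    (hθ : 0 ≤ θ) (ht : ENNReal.ofReal θ < (p t : Measure I) U) :
    ∀ᶠ s in 𝓝[≥] t, θ < (p s : Measure I).real U := by
  have h1 : Tendsto p (𝓝[≥] t) (𝓝 (p t)) := (hr t).tendsto
  have h2 := ProbabilityMeasure.le_liminf_measure_open_of_tendsto h1 hU
  have h3 : ENNReal.ofReal θ < liminf (fun s => (p s : Measure I) U) (𝓝[≥] t) :=
    lt_of_lt_of_le ht h2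
  refine (eventually_lt_of_lt_liminf h3).mono (fun s hs => ?_)
  rw [measureReal_def]
  exact (ENNReal.ofReal_lt_iff_lt_toReal hθ (measure_ne_top _ _)).1 hs

lemma FVF.EE_ae (h : FVF Λ P ρ 𝓕) (hi : ∀ᵐ ω ∂P, (ρ 0 ω : Measure I) = volume)
    {U V W : Set I} (hU : IsOpen U) (hV : IsOpen V) (hW : IsOpen W) {θ : ℝ} (hθ : 0 ≤ θ)
    (vU : 0 < (volume : Measure I) U) (vV : 0 < (volume : Measure I) V)
    (vW : ENNReal.ofReal θ < (volume : Measure I) W) :
    ∀ᵐ ω ∂P, ∃ n, ω ∈ EE ρ U V W θ n := by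
  filter_upwards [hi] with ω hω
  have e1 := right_lsc' (p := fun t => ρ t ω) (fun t => h.right_cont ω t) hU (t := 0) (θ := 0)
    le_rfl (by rw [hω, ENNReal.ofReal_zero]; exact vU)
  have e2 := right_lsc' (p := fun t => ρ t ω) (fun t => h.right_cont ω t) hV (t := 0) (θ := 0)
    le_rfl (by rw [hω, ENNReal.ofReal_zero]; exact vV)
  have e3 := right_lsc' (p := fun t => ρ t ω) (fun t => h.right_cont ω t) hW (t := 0) (θ := θ)
    hθ (by rw [hω]; exact vW)
  have e4 := (e1.and e2).and e3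
  rw [eventually_nhdsWithin_iff, Metric.eventually_nhds_iff] at e4
  obtain ⟨δ, hδ, h4⟩ := e4
  obtain ⟨n, hn⟩ := exists_nat_one_div_lt hδ
  refine ⟨n, mem_iInter.2 (fun m => ?_)⟩
  simp only [mem_ofPred_eq]
  intro hm
  have hd : dist (τ m) 0 < δ := by
    rw [NNReal.dist_eq, NNReal.coe_zero, sub_zero, abs_of_nonneg (NNReal.coe_nonneg _)]
    have : ((τ m : ℝ≥0) : ℝ) ≤ ((1 / ((n : ℝ≥0) + 1) : ℝ≥0) : ℝ) := by exact_mod_cast hm
    push_cast at this
    linarith
  obtain ⟨⟨f1, f2⟩, f3⟩ := h4 hd (by simp)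
  rw [XX_eq hU, XX_eq hV, XX_eq hW]
  exact ⟨f1, f2, f3⟩

/-- the grid event: both die in the same grid interval -/
def BD (ρ : ℝ≥0 → Ω → ProbabilityMeasure I) (U V : Set I) (n L : ℕ) : Set Ω :=
  ⋃ j ∈ Finset.range (L + 1), {ω | 0 < XX ρ U (τ (Nat.pair j ((n + 1) * (L + 1) - 1))) ω ∧
    0 < XX ρ V (τ (Nat.pair j ((n + 1) * (L + 1) - 1))) ω} ∩
    {ω | XX ρ U (τ (Nat.pair (j + 1) ((n + 1) * (L + 1) - 1))) ω = 0 ∧
    XX ρ V (τ (Nat.pair (j + 1) ((n + 1) * (L + 1) - 1))) ω = 0}

lemma τ_grid (n L j : ℕ) : τ (Nat.pair j ((n + 1) * (L + 1) - 1))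
    = (j : ℝ≥0) / (((n : ℝ≥0) + 1) * ((L : ℝ≥0) + 1)) := by
  rw [τ_pair]
  congr 1
  have h1 : 1 ≤ (n + 1) * (L + 1) := Nat.mul_pos (by omega) (by omega)
  have h2 : (((n + 1) * (L + 1) - 1 : ℕ) : ℝ≥0) + 1 = (((n + 1) * (L + 1) : ℕ) : ℝ≥0) := by
    have : (n + 1) * (L + 1) - 1 + 1 = (n + 1) * (L + 1) := by omega
    exact_mod_cast this
  rw [h2]; push_cast; rfl

lemma FVF.BD_meas (h : FVF Λ P ρ 𝓕) {U V : Set I} (hU : IsOpen U) (hV : IsOpen V) (n L : ℕ) :
    MeasurableSet (BD ρ U V n L) := by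
  refine Finset.measurableSet_biUnion _ (fun j _ => ?_)
  exact (((h.XX_meas' hU _) measurableSet_Ioi).inter ((h.XX_meas' hV _) measurableSet_Ioi)).inter
    (((h.XX_meas' hU _) (measurableSet_singleton 0)).inter
      ((h.XX_meas' hV _) (measurableSet_singleton 0)))

lemma FVF.BD_le (h : FVF Λ P ρ 𝓕) {U V W : Set I} (hU : IsOpen U) (hV : IsOpen V)
    (hW : IsOpen W) (hUV : Disjoint U V) (hUVW : Disjoint (U ∪ V) W) {θ : ℝ} (hθ : 0 ≤ θ)
    {n : ℕ} (hn : 1 / 2 ≤ P.real (EE ρ U V W θ n)) (L : ℕ) :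
    Λ.real {1} / ((1 + Λ.real {1}) * (n + 1)) * (θ / 2) ≤ P.real (BD ρ U V n L) := by
  set c := Λ.real {1} with hc
  have hc0 : 0 ≤ c := measureReal_nonneg
  set δ : ℝ := 1 / (((n : ℝ) + 1) * ((L : ℝ) + 1)) with hδ
  have hδ0 : 0 < δ := by positivity
  have hδ1 : δ ≤ 1 := by
    rw [hδ, div_le_one (by positivity)]
    have h1 : (0 : ℝ) ≤ n := Nat.cast_nonneg n
    have h2 : (0 : ℝ) ≤ L := Nat.cast_nonneg L
    nlinarith
  have hδN : δ.toNNReal = 1 / (((n : ℝ≥0) + 1) * ((L : ℝ≥0) + 1)) := by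
    have : δ = ((1 / (((n : ℝ≥0) + 1) * ((L : ℝ≥0) + 1)) : ℝ≥0) : ℝ) := by push_cast; rfl
    rw [this, Real.toNNReal_coe]
  set T : ℕ → ℝ≥0 := fun j => τ (Nat.pair j ((n + 1) * (L + 1) - 1)) with hT
  have hTs : ∀ j, T j + δ.toNNReal = T (j + 1) := by
    intro j
    simp only [hT]
    rw [τ_grid, τ_grid, hδN, ← add_div]
    push_cast; rfl
  set D : ℕ → Set Ω := fun j => {ω | 0 < XX ρ U (T j) ω ∧ 0 < XX ρ V (T j) ω} with hD
  set E : ℕ → Set Ω := fun j => {ω | XX ρ U (T (j + 1)) ω = 0 ∧ XX ρ V (T (j + 1)) ω = 0} with hE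
  have hDm' : ∀ j, MeasurableSet[𝓕 (T j)] (D j) := fun j =>
    @MeasurableSet.inter _ (𝓕 (T j)) _ _ ((h.XX_meas hU (T j)) measurableSet_Ioi)
      ((h.XX_meas hV (T j)) measurableSet_Ioi)
  have hDm : ∀ j, MeasurableSet (D j) := fun j => 𝓕.le _ _ (hDm' j)
  have hEm : ∀ j, MeasurableSet (E j) := fun j =>
    ((h.XX_meas' hU _) (measurableSet_singleton 0)).inter
      ((h.XX_meas' hV _) (measurableSet_singleton 0))
  -- lower bound for one grid interval
  have hone : ∀ j ∈ Finset.range (L + 1), (1 - Real.exp (-(c * δ))) * (θ / 2)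
      ≤ P.real (D j ∩ E j) := by
    intro j hj
    rw [Finset.mem_range] at hj
    have h1 := h.both_die hU hV hUV (hDm' j) hδ0.le
    rw [hTs] at h1
    refine le_trans ?_ h1
    refine mul_le_mul_of_nonneg_left ?_ ?_
    · have hTj : T j ≤ 1 / ((n : ℝ≥0) + 1) := by
        simp only [hT]
        rw [τ_grid, div_le_div_iff₀ (by positivity) (by positivity), one_mul, mul_comm]
        gcongr
        have : j ≤ L := by omega
        have h2 : (j : ℝ≥0) ≤ L := by exact_mod_cast this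
        exact h2.trans (by simp)
      have hsub : EE ρ U V W θ n ⊆ D j := by
        intro ω hω
        have := (mem_iInter.1 hω (Nat.pair j ((n + 1) * (L + 1) - 1)))
        simp only [mem_ofPred_eq] at this
        exact ⟨(this hTj).1, (this hTj).2.1⟩
      have hint : Integrable (fun ω => 1 - XX ρ U (T j) ω - XX ρ V (T j) ω) P := by
        refine Integrable.of_bound (C := 1) ?_ (Eventually.of_forall (fun ω => ?_))
        · exact ((measurable_const.sub (h.XX_meas' hU _)).sub
            (h.XX_meas' hV _)).aestronglyMeasurable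
        · have h2 := XX_add_le (ρ := ρ) hU hV hUV (T j) ω
          have h3 := (XX_mem (ρ := ρ) hU (T j) ω).1
          have h4 := (XX_mem (ρ := ρ) hV (T j) ω).1
          rw [Real.norm_eq_abs, abs_le]
          constructor <;> linarith
      have h2 : ∫ ω in EE ρ U V W θ n, (1 - XX ρ U (T j) ω - XX ρ V (T j) ω) ∂P
          ≤ ∫ ω in D j, (1 - XX ρ U (T j) ω - XX ρ V (T j) ω) ∂P := by
        refine setIntegral_mono_set hint.integrableOn ?_ hsub.eventuallyLE
        refine Eventually.of_forall (fun ω => ?_)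
        have h2 := XX_add_le (ρ := ρ) hU hV hUV (T j) ω
        simp only [Pi.zero_apply]; linarith
      refine le_trans ?_ h2
      have h3 : θ * P.real (EE ρ U V W θ n) = ∫ _ω in EE ρ U V W θ n, θ ∂P := by
        rw [setIntegral_const, smul_eq_mul, mul_comm]
      calc θ / 2 ≤ θ * P.real (EE ρ U V W θ n) := by nlinarith
        _ = ∫ _ω in EE ρ U V W θ n, θ ∂P := h3
        _ ≤ _ := by
          refine setIntegral_mono_on (integrable_const _) hint.integrableOn
            (h.EE_meas hU hV hW θ n) (fun ω hω => ?_)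
          have h4 := (mem_iInter.1 hω (Nat.pair j ((n + 1) * (L + 1) - 1)))
          simp only [mem_ofPred_eq] at h4
          have h5 := (h4 hTj).2.2
          have h6 : XX ρ (U ∪ V) (T j) ω = XX ρ U (T j) ω + XX ρ V (T j) ω := by
            have a1 := mass_cind_union (ρ := ρ) hU hV hUV (T j) ω
            have a2 := mass_cind (ρ := ρ) (hU.union hV) (T j) ω
            linarith
          have h7 := XX_add_le (ρ := ρ) (hU.union hV) hW hUVW (T j) ω
          rw [h6] at h7
          linarith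
    · have : Real.exp (-(c * δ)) ≤ 1 := by
        rw [Real.exp_le_one_iff]
        have := mul_nonneg hc0 hδ0.le
        linarith
      linarith
  -- sum over the grid
  have hset : BD ρ U V n L = ⋃ j ∈ Finset.range (L + 1), D j ∩ E j := rfl
  have hsum : P.real (BD ρ U V n L) = ∑ j ∈ Finset.range (L + 1), P.real (D j ∩ E j) := by
    rw [hset, measureReal_def, measure_biUnion_finset₀, ENNReal.toReal_sum]
    · rfl
    · exact fun _ _ => measure_ne_top _ _
    · -- disjointness
      have habs : ∀ W' : Set I, IsOpen W' → ∀ᵐ ω ∂P, ∀ m r, τ m ≤ r →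
          (ρ (τ m) ω : Measure I) W' = 0 → (ρ r ω : Measure I) W' = 0 := fun W' hW' =>
        h.absorb_all hW'
      have hmono : ∀ i j : ℕ, i ≤ j → T i ≤ T j := by
        intro i j hij
        simp only [hT]
        rw [τ_grid, τ_grid]
        gcongr
      have key : ∀ i j, i < j → AEDisjoint P (D i ∩ E i) (D j ∩ E j) := by
        intro i j hij
        unfold AEDisjoint
        refine measure_mono_null (t := {ω | ¬ ∀ m r, τ m ≤ r →
          (ρ (τ m) ω : Measure I) U = 0 → (ρ r ω : Measure I) U = 0}) ?_ (habs U hU)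
        rintro ω ⟨⟨_, h1⟩, ⟨h2, _⟩⟩
        simp only [mem_ofPred_eq]
        intro hall
        have h3 : (ρ (T (i + 1)) ω : Measure I) U = 0 := (XX_zero_iff hU _ _).1 h1.1
        have h4 := hall _ (T j) (hmono (i + 1) j hij) h3
        exact ((XX_pos_iff hU _ _).1 h2.1) h4
      intro i _ j _ hij
      rcases lt_or_gt_of_ne hij with h1 | h1
      · exact key i j h1
      · exact (key j i h1).symm
    · exact fun j _ => ((hDm j).inter (hEm j)).nullMeasurableSet
  rw [hsum]
  refine le_trans ?_ (Finset.sum_le_sum hone)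
  rw [Finset.sum_const, Finset.card_range, nsmul_eq_mul]
  push_cast
  have h1 : c * δ / (1 + c) ≤ 1 - Real.exp (-(c * δ)) := by
    have h2 : Real.exp (-(c * δ)) ≤ 1 / (1 + c * δ) := by
      rw [Real.exp_neg, inv_eq_one_div]
      exact one_div_le_one_div_of_le (by positivity) (by linarith [Real.add_one_le_exp (c * δ)])
    have h3 : 1 / (1 + c * δ) = 1 - c * δ / (1 + c * δ) := by
      rw [eq_sub_iff_add_eq, ← add_div, div_self (by positivity)]
    have h4 : c * δ / (1 + c) ≤ c * δ / (1 + c * δ) := by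
      refine div_le_div_of_nonneg_left (by positivity) (by positivity) ?_
      nlinarith
    linarith
  have h2 : ((L : ℝ) + 1) * (c * δ / (1 + c)) = c / ((1 + c) * (n + 1)) := by
    rw [hδ]; field_simp
  calc c / ((1 + c) * (n + 1)) * (θ / 2)
      = ((L : ℝ) + 1) * (c * δ / (1 + c)) * (θ / 2) := by rw [h2]
    _ ≤ ((L : ℝ) + 1) * (1 - Real.exp (-(c * δ))) * (θ / 2) := by gcongr
    _ = _ := by ring

end process

end Pool.Agent.H971.EX
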