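import Pool.Agent.H971.EX.Atom

/-! Simultaneous extinction for `Λ({1}) > 0` (helper file). -/

open MeasureTheory ProbabilityTheory Filter Topology Set Pool.Agent.H971.FV
open scoped ENNReal NNReal unitInterval

namespace Pool.Agent.H971.EX

lemma le_alive {p : ℝ≥0 → ProbabilityMeasure I} {U : Set I} {s : ℝ≥0}
    (h : (p s : Measure I) U ≠ 0) : (s : ℝ≥0∞) ≤ alive p U :=
  le_iSup₂ (f := fun (s : ℝ≥0) (_ : (p s : Measure I) U ≠ 0) => (s : ℝ≥0∞)) s h

lemma le_ext {p : ℝ≥0 → ProbabilityMeasure I} {x : I} {s : ℝ≥0}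
    (h : (p s : Measure I) {x} ≠ 0) : (s : ℝ≥0∞) ≤ extinctionTime p x :=
  le_iSup₂ (f := fun (s : ℝ≥0) (_ : 0 < (p s : Measure I) {x}) => (s : ℝ≥0∞)) s
    (pos_iff_ne_zero.2 h)

/-- if an open set of types has its last time `e`, one of its types has extinction time `e` -/
lemma exists_type {p : ℝ≥0 → ProbabilityMeasure I} {k : ℕ}
    {F : Set I} (hF : F.Finite) (hF0 : (p (1 / ((k : ℝ≥0) + 1)) : Measure I) Fᶜ = 0)
    (habs : ∀ W ∈ bas, ∀ n r, τ n ≤ r → (p (τ n) : Measure I) W = 0 → (p r : Measure I) W = 0)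
    {U : Set I} (hU : IsOpen U) {e : ℝ≥0∞} (he : alive p U = e)
    (hk : ((1 / ((k : ℝ≥0) + 1) : ℝ≥0) : ℝ≥0∞) < e) :
    ∃ x ∈ U, extinctionTime p x = e := by
  by_contra hcon
  push Not at hcon
  have hτ : τ (Nat.pair 1 k) = 1 / ((k : ℝ≥0) + 1) := by rw [τ_pair]; simp
  have hle : ∀ x ∈ U, extinctionTime p x ≤ e := by
    intro x hx
    rw [← he]
    unfold extinctionTime
    refine iSup₂_le (fun s hs => ?_)
    exact le_alive (fun h0 => hs.ne' (measure_mono_null (singleton_subset_iff.2 hx) h0))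
  have hFU : (F ∩ U).Finite := hF.subset inter_subset_left
  set b : ℝ≥0∞ := hFU.toFinset.sup (extinctionTime p) ⊔
    ((1 / ((k : ℝ≥0) + 1) : ℝ≥0) : ℝ≥0∞) with hb
  have hbe : b < e := by
    rw [hb]
    refine max_lt ((Finset.sup_lt_iff (lt_of_le_of_lt bot_le hk)).2 (fun x hx => ?_)) hk
    rw [Set.Finite.mem_toFinset] at hx
    exact lt_of_le_of_ne (hle x hx.2) (hcon x hx.2)
  rw [← he] at hbe
  unfold alive at hbe
  rw [lt_iSup_iff] at hbe
  obtain ⟨r, hr⟩ := hbe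
  rw [lt_iSup_iff] at hr
  obtain ⟨hr0, hbr⟩ := hr
  refine hr0 ?_
  have hrk : 1 / ((k : ℝ≥0) + 1) ≤ r := by
    have h1 : ((1 / ((k : ℝ≥0) + 1) : ℝ≥0) : ℝ≥0∞) ≤ r := le_sup_right.trans hbr.le
    exact_mod_cast h1
  have h1 : (p r : Measure I) (U \ F) = 0 := by
    refine null_of_bas (hU.sdiff hF.isClosed) (fun W hW hWO => ?_)
    refine habs W hW (Nat.pair 1 k) r ?_ ?_
    · rw [hτ]; exact hrk
    · rw [hτ]; exact measure_mono_null (fun w hw hwF => (hWO hw).2 hwF) hF0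
  have h2 : (p r : Measure I) (F ∩ U) = 0 := by
    have h5 : F ∩ U ⊆ ⋃ x ∈ F ∩ U, {x} := fun x hx => mem_iUnion₂.2 ⟨x, hx, rfl⟩
    refine measure_mono_null h5 ?_
    refine (measure_biUnion_null_iff hFU.countable).2 (fun x hx => ?_)
    by_contra hne
    have h4 : extinctionTime p x ≤ b :=
      (Finset.le_sup (f := extinctionTime p) (hFU.mem_toFinset.2 hx)).trans le_sup_left
    exact absurd ((le_ext hne).trans h4) (not_le.2 hbr)
  refine measure_mono_null ?_ (measure_union_null h1 h2)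
  intro w hw
  by_cases hwF : w ∈ F
  · exact Or.inr ⟨hwF, hw⟩
  · exact Or.inl ⟨hw, hwF⟩

lemma ancestral_of {p : ℝ≥0 → ProbabilityMeasure I} {x : I} {e : ℝ≥0∞}
    (h : extinctionTime p x = e) (he : 0 < e) : Ancestral p x := by
  rw [← h] at he
  unfold extinctionTime at he
  rw [lt_iSup_iff] at he
  obtain ⟨s, hs⟩ := he
  rw [lt_iSup_iff] at hs
  obtain ⟨h1, h2⟩ := hs
  exact ⟨s, by exact_mod_cast h2, h1⟩

/-- two sets of types with the same last time -/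
lemma simul_path {p : ℝ≥0 → ProbabilityMeasure I}
    (hfin : ∀ k : ℕ, ∃ F : Set I, F.Finite ∧ (p (1 / ((k : ℝ≥0) + 1)) : Measure I) Fᶜ = 0)
    (habs : ∀ W ∈ bas, ∀ n r, τ n ≤ r → (p (τ n) : Measure I) W = 0 → (p r : Measure I) W = 0)
    {U V : Set I} (hU : IsOpen U) (hV : IsOpen V) (hUV : Disjoint U V) {e : ℝ≥0∞} (he : 0 < e)
    (h1 : alive p U = e) (h2 : alive p V = e) :
    ∃ x y : I, x ≠ y ∧ Ancestral p x ∧ Ancestral p y ∧
      extinctionTime p x = extinctionTime p y := by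
  obtain ⟨k, hk⟩ : ∃ k : ℕ, ((1 / ((k : ℝ≥0) + 1) : ℝ≥0) : ℝ≥0∞) < e := by
    obtain ⟨a, ha0, hae⟩ := ENNReal.lt_iff_exists_nnreal_btwn.1 he
    have ha0' : 0 < a := by exact_mod_cast ha0
    obtain ⟨k, hk⟩ := exists_nat_one_div_lt (K := ℝ≥0) ha0'
    exact ⟨k, lt_trans (by exact_mod_cast hk) hae⟩
  obtain ⟨F, hF, hF0⟩ := hfin k
  obtain ⟨x, hx, hxe⟩ := exists_type hF hF0 habs hU h1 hk
  obtain ⟨y, hy, hye⟩ := exists_type hF hF0 habs hV h2 hk
  refine ⟨x, y, ?_, ancestral_of hxe he, ancestral_of hye he, hxe.trans hye.symm⟩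
  rintro rfl
  exact Set.disjoint_left.1 hUV hx hy

section process

variable {Ω : Type*} [mΩ : MeasurableSpace Ω] {P : Measure Ω}
  {Λ : Measure ℝ} {ρ : ℝ≥0 → Ω → ProbabilityMeasure I}
  [IsProbabilityMeasure P] [IsFiniteMeasure Λ] {𝓕 : Filtration ℝ≥0 mΩ}

lemma BD_close {U V : Set I} (hU : IsOpen U) (hV : IsOpen V) {n L : ℕ} {ω : Ω}
    (hω : ω ∈ BD ρ U V n L)
    (aU : ∀ m r, τ m ≤ r → (ρ (τ m) ω : Measure I) U = 0 → (ρ r ω : Measure I) U = 0)
    (aV : ∀ m r, τ m ≤ r → (ρ (τ m) ω : Measure I) V = 0 → (ρ r ω : Measure I) V = 0) :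
    alive (fun t => ρ t ω) U ≤ alive (fun t => ρ t ω) V + ((1 / ((L : ℝ≥0) + 1) : ℝ≥0) : ℝ≥0∞) ∧
    alive (fun t => ρ t ω) V ≤ alive (fun t => ρ t ω) U + ((1 / ((L : ℝ≥0) + 1) : ℝ≥0) : ℝ≥0∞) := by
  unfold BD at hω
  simp only [mem_iUnion, Finset.mem_range, mem_inter_iff, mem_ofPred_eq, exists_prop] at hω
  obtain ⟨j, _, ⟨h1, h2⟩, h3, h4⟩ := hω
  have hT : τ (Nat.pair (j + 1) ((n + 1) * (L + 1) - 1))
      ≤ τ (Nat.pair j ((n + 1) * (L + 1) - 1)) + 1 / ((L : ℝ≥0) + 1) := by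
    rw [τ_grid, τ_grid]
    push_cast
    rw [add_div]
    gcongr
    exact le_mul_of_one_le_left (by positivity) (by simp)
  have hlow : ∀ W : Set I, IsOpen W → 0 < XX ρ W (τ (Nat.pair j ((n + 1) * (L + 1) - 1))) ω →
      (τ (Nat.pair j ((n + 1) * (L + 1) - 1)) : ℝ≥0∞) ≤ alive (fun t => ρ t ω) W :=
    fun W hW h => le_alive ((XX_pos_iff hW _ _).1 h)
  have hup : ∀ W : Set I, IsOpen W →
      (∀ m r, τ m ≤ r → (ρ (τ m) ω : Measure I) W = 0 → (ρ r ω : Measure I) W = 0) →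
      XX ρ W (τ (Nat.pair (j + 1) ((n + 1) * (L + 1) - 1))) ω = 0 →
      alive (fun t => ρ t ω) W ≤ τ (Nat.pair (j + 1) ((n + 1) * (L + 1) - 1)) := by
    intro W hW aW h
    unfold alive
    refine iSup₂_le (fun s hs => ?_)
    by_contra hcon
    push Not at hcon
    exact hs (aW _ s (by exact_mod_cast hcon.le) ((XX_zero_iff hW _ _).1 h))
  have hT' : ((τ (Nat.pair (j + 1) ((n + 1) * (L + 1) - 1)) : ℝ≥0) : ℝ≥0∞)
      ≤ (τ (Nat.pair j ((n + 1) * (L + 1) - 1)) : ℝ≥0∞) + ((1 / ((L : ℝ≥0) + 1) : ℝ≥0) : ℝ≥0∞) := by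
    exact_mod_cast hT
  exact ⟨(hup U hU aU h3).trans (hT'.trans (add_le_add (hlow V hV h2) le_rfl)),
    (hup V hV aV h4).trans (hT'.trans (add_le_add (hlow U hU h1) le_rfl))⟩

/-- If `Λ` has an atom at `1`, simultaneous extinction has positive probability. -/
theorem FVF.simultaneous (h : FVF Λ P ρ 𝓕) (hi : ∀ᵐ ω ∂P, (ρ 0 ω : Measure I) = volume)
    (hD : Down Λ) (h1 : Λ {1} ≠ 0) :
    ¬ ∀ᵐ ω ∂P, ∀ x y : I, x ≠ y → Ancestral (fun t => ρ t ω) x → Ancestral (fun t => ρ t ω) y →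
      extinctionTime (fun t => ρ t ω) x ≠ extinctionTime (fun t => ρ t ω) y := by
  intro hcon
  set a : I := ⟨1 / 3, by norm_num, by norm_num⟩ with ha
  set b : I := ⟨2 / 3, by norm_num, by norm_num⟩ with hb
  have hU : IsOpen (Iio a) := isOpen_Iio
  have hV : IsOpen (Ioo a b) := isOpen_Ioo
  have hW : IsOpen (Ioi b) := isOpen_Ioi
  have hab : a < b := by rw [← Subtype.coe_lt_coe]; norm_num [ha, hb]
  have hUV : Disjoint (Iio a) (Ioo a b) :=
    Set.disjoint_left.2 (fun x hx hx2 => absurd hx (not_lt.2 hx2.1.le))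
  have hUVW : Disjoint (Iio a ∪ Ioo a b) (Ioi b) := by
    refine Set.disjoint_left.2 (fun x hx hx2 => ?_)
    rcases hx with hx | hx
    · exact absurd (hx.trans hab) (not_lt.2 (le_of_lt hx2))
    · exact absurd hx.2 (not_lt.2 (le_of_lt hx2))
  have vU : 0 < (volume : Measure I) (Iio a) := by
    rw [unitInterval.volume_Iio, ENNReal.ofReal_pos]; norm_num [ha]
  have vV : 0 < (volume : Measure I) (Ioo a b) := by
    rw [unitInterval.volume_Ioo, ENNReal.ofReal_pos]; norm_num [ha, hb]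
  have vW : ENNReal.ofReal (1 / 6) < (volume : Measure I) (Ioi b) := by
    rw [unitInterval.volume_Ioi, ENNReal.ofReal_lt_ofReal_iff] <;> norm_num [hb]
  have hθ : (0 : ℝ) ≤ 1 / 6 := by norm_num
  -- good initial behaviour
  obtain ⟨n, hn⟩ : ∃ n, 1 / 2 ≤ P.real (EE ρ (Iio a) (Ioo a b) (Ioi b) (1 / 6) n) := by
    have hmono : Monotone (EE ρ (Iio a) (Ioo a b) (Ioi b) (1 / 6)) := by
      refine monotone_nat_of_le_succ (fun n ω hω => mem_iInter.2 (fun m => ?_))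
      have h2 := mem_iInter.1 hω m
      simp only [mem_ofPred_eq] at h2 ⊢
      intro hm
      refine h2 (hm.trans ?_)
      gcongr
      simp
    have hlim := tendsto_measure_iUnion_atTop (μ := P) hmono
    have hone : P (⋃ n, EE ρ (Iio a) (Ioo a b) (Ioi b) (1 / 6) n) = 1 := by
      have h3 := h.EE_ae hi hU hV hW hθ vU vV vW
      have h4 : ∀ᵐ ω ∂P, ω ∈ ⋃ n, EE ρ (Iio a) (Ioo a b) (Ioi b) (1 / 6) n := by
        filter_upwards [h3] with ω hω
        exact mem_iUnion.2 hω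
      exact (measure_congr (eventuallyEq_univ.2 h4)).trans measure_univ
    rw [hone] at hlim
    have h2 : ∀ᶠ n in atTop, ENNReal.ofReal (1 / 2) <
        P (EE ρ (Iio a) (Ioo a b) (Ioi b) (1 / 6) n) := by
      refine hlim.eventually (lt_mem_nhds ?_)
      rw [← ENNReal.ofReal_one]
      exact (ENNReal.ofReal_lt_ofReal_iff one_pos).2 (by norm_num)
    obtain ⟨n, hn⟩ := h2.exists
    refine ⟨n, ?_⟩
    have := (ENNReal.ofReal_lt_iff_lt_toReal (by norm_num) (measure_ne_top _ _)).1 hn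
    exact this.le
  set c' : ℝ := Λ.real {1} / ((1 + Λ.real {1}) * (n + 1)) * ((1 / 6) / 2) with hc'
  have hc0 : 0 < Λ.real {1} := by
    rw [measureReal_def]; exact ENNReal.toReal_pos h1 (measure_ne_top _ _)
  have hc'0 : 0 < c' := by positivity
  have hB : ∀ L, ENNReal.ofReal c' ≤ P (BD ρ (Iio a) (Ioo a b) n L) := by
    intro L
    rw [← ofReal_measureReal]
    exact ENNReal.ofReal_le_ofReal (h.BD_le hU hV hW hUV hUVW hθ hn L)
  -- the limit superior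
  set A : ℕ → Set Ω := fun m => ⋃ L, BD ρ (Iio a) (Ioo a b) n (m + L) with hA
  have hAm : ∀ m, MeasurableSet (A m) := fun m =>
    MeasurableSet.iUnion (fun L => h.BD_meas hU hV n (m + L))
  have hAanti : Antitone A := by
    refine antitone_nat_of_succ_le (fun m ω hω => ?_)
    obtain ⟨L, hL⟩ := mem_iUnion.1 hω
    exact mem_iUnion.2 ⟨L + 1, by rwa [show m + (L + 1) = m + 1 + L by omega]⟩
  have hpos : ENNReal.ofReal c' ≤ P (⋂ m, A m) := by
    refine ge_of_tendsto' (tendsto_measure_iInter_atTop (fun m => (hAm m).nullMeasurableSet)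
      hAanti ⟨0, measure_ne_top _ _⟩) (fun m => ?_)
    exact (hB (m + 0)).trans (measure_mono (subset_iUnion (fun L =>
      BD ρ (Iio a) (Ioo a b) n (m + L)) 0))
  -- contradiction
  have a1 : ∀ᵐ ω ∂P, ∀ k : ℕ, ∃ F : Set I, F.Finite ∧
      (ρ (1 / ((k : ℝ≥0) + 1)) ω : Measure I) Fᶜ = 0 := by
    rw [ae_all_iff]; intro k
    have h2 := h.finite_support hi hD (t := 1 / ((k : ℝ) + 1)) (by positivity)
    have h3 : (1 / ((k : ℝ) + 1)).toNNReal = 1 / ((k : ℝ≥0) + 1) := by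
      have : (1 / ((k : ℝ) + 1)) = ((1 / ((k : ℝ≥0) + 1) : ℝ≥0) : ℝ) := by push_cast; rfl
      rw [this, Real.toNNReal_coe]
    rwa [h3] at h2
  have a2 : ∀ᵐ ω ∂P, ∀ W ∈ bas, ∀ n r, τ n ≤ r → (ρ (τ n) ω : Measure I) W = 0 →
      (ρ r ω : Measure I) W = 0 := by
    rw [ae_ball_iff bas_countable]
    exact fun W hW => h.absorb_all (bas_open hW)
  have hnull : P (⋂ m, A m) = 0 := by
    have h2 : ∀ᵐ ω ∂P, ω ∉ ⋂ m, A m := by
      filter_upwards [hcon, a1, a2, h.absorb_all hU, h.absorb_all hV, hi]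
        with ω b1 b2 b3 b4 b5 b6 hω
      have hclose : ∀ m : ℕ, ∃ L, m ≤ L ∧ ω ∈ BD ρ (Iio a) (Ioo a b) n L := by
        intro m
        obtain ⟨L, hL⟩ := mem_iUnion.1 (mem_iInter.1 hω m)
        exact ⟨m + L, by omega, hL⟩
      have heq : alive (fun t => ρ t ω) (Iio a) = alive (fun t => ρ t ω) (Ioo a b) := by
        have hε : ∀ ε : ℝ≥0, 0 < ε → ∃ L : ℕ, ω ∈ BD ρ (Iio a) (Ioo a b) n L ∧
            ((1 / ((L : ℝ≥0) + 1) : ℝ≥0) : ℝ≥0∞) ≤ ε := by
          intro ε hε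
          obtain ⟨m, hm⟩ := exists_nat_one_div_lt (K := ℝ≥0) hε
          obtain ⟨L, hmL, hL⟩ := hclose m
          refine ⟨L, hL, ?_⟩
          have h3 : 1 / ((L : ℝ≥0) + 1) ≤ 1 / ((m : ℝ≥0) + 1) := by gcongr
          exact_mod_cast h3.trans hm.le
        refine le_antisymm ?_ ?_
        · refine ENNReal.le_of_forall_pos_le_add (fun ε hε0 _ => ?_)
          obtain ⟨L, hL, hL2⟩ := hε ε hε0
          exact (BD_close hU hV hL b4 b5).1.trans (add_le_add le_rfl hL2)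
        · refine ENNReal.le_of_forall_pos_le_add (fun ε hε0 _ => ?_)
          obtain ⟨L, hL, hL2⟩ := hε ε hε0
          exact (BD_close hU hV hL b4 b5).2.trans (add_le_add le_rfl hL2)
      have hepos : 0 < alive (fun t => ρ t ω) (Iio a) := by
        have h3 : (ρ 0 ω : Measure I) (Iio a) ≠ 0 := by rw [b6]; exact vU.ne'
        have h4 := right_lsc (p := fun t => ρ t ω) (fun t => h.right_cont ω t) hU h3
        have h5 : ∀ᶠ s in 𝓝[>] (0 : ℝ≥0), 0 < s := self_mem_nhdsWithin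
        obtain ⟨s, hs1, hs2⟩ := (h4.and h5).exists
        exact lt_of_lt_of_le (by exact_mod_cast hs2) (le_alive hs1)
      obtain ⟨x, y, hxy, hx, hy, hext⟩ := simul_path b2 b3 hU hV hUV hepos rfl heq.symm
      exact b1 x y hxy hx hy hext
    exact measure_eq_zero_iff_ae_notMem.2 h2
  rw [hnull] at hpos
  have : 0 < ENNReal.ofReal c' := ENNReal.ofReal_pos.2 hc'0
  exact absurd hpos (not_le.2 this)

end process

end Pool.Agent.H971.EX
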