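import Mathlib

/-! Pure death chains: comparison principle and semigroup (helper file). -/

open MeasureTheory Filter Topology Set

namespace Pool.Agent.H971.EX

/-- The generator of the chain which jumps from `b` to `j < b` at rate `r b j`. -/
noncomputable def Q (r : ℕ → ℕ → ℝ) (g : ℕ → ℝ) (b : ℕ) : ℝ :=
  ∑ j ∈ Finset.range b, r b j * (g j - g b)

/-- comparison principle for lower triangular systems -/
lemma comparison {N : ℕ} (A : ℕ → ℕ → ℝ) (D : ℕ → ℝ) (y y' : ℕ → ℝ → ℝ)
    (hA : ∀ b ≤ N, ∀ j, j < b → 0 ≤ A b j)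
    (hc : ∀ b ≤ N, ContinuousOn (y b) (Ici 0))
    (hd : ∀ b ≤ N, ∀ t, 0 < t → HasDerivAt (y b) (y' b t) t)
    (hineq : ∀ b ≤ N, ∀ t, 0 < t → ∑ j ∈ Finset.range b, A b j * y j t + D b * y b t ≤ y' b t)
    (h0 : ∀ b ≤ N, 0 ≤ y b 0) : ∀ b ≤ N, ∀ t, 0 ≤ t → 0 ≤ y b t := by
  intro b
  induction b using Nat.strong_induction_on with
  | _ b ih =>
    intro hb t ht
    set w : ℝ → ℝ := fun t => Real.exp (-(D b * t)) * y b t with hw
    have hmono : MonotoneOn w (Ici 0) := by
      refine monotoneOn_of_deriv_nonneg (convex_Ici 0) ?_ ?_ ?_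
      · exact ContinuousOn.mul (by fun_prop) (hc b hb)
      · intro s hs
        rw [interior_Ici] at hs
        have h1 : HasDerivAt (fun t => Real.exp (-(D b * t)))
            (Real.exp (-(D b * s)) * (-(D b * 1))) s :=
          (((hasDerivAt_id s).const_mul (D b)).neg).exp
        exact (h1.mul (hd b hb s hs)).differentiableAt.differentiableWithinAt
      · intro s hs
        rw [interior_Ici] at hs
        have h1 : HasDerivAt (fun t => Real.exp (-(D b * t)))
            (Real.exp (-(D b * s)) * (-(D b * 1))) s :=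
          (((hasDerivAt_id s).const_mul (D b)).neg).exp
        have hdw : deriv w s = Real.exp (-(D b * s)) * (-(D b * 1)) * y b s
            + Real.exp (-(D b * s)) * y' b s := (h1.mul (hd b hb s hs)).deriv
        rw [hdw]
        have h2 := hineq b hb s hs
        have h3 : 0 ≤ ∑ j ∈ Finset.range b, A b j * y j s := by
          refine Finset.sum_nonneg (fun j hj => ?_)
          rw [Finset.mem_range] at hj
          exact mul_nonneg (hA b hb j hj) (ih j hj (by omega) s (le_of_lt hs))
        have h4 := Real.exp_pos (-(D b * s))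
        nlinarith
    have h1 := hmono (mem_Ici.2 le_rfl) (mem_Ici.2 ht) ht
    simp only [hw, mul_zero, neg_zero, Real.exp_zero, one_mul] at h1
    have h2 := Real.exp_pos (-(D b * t))
    have h3 := h0 b hb
    by_contra hneg
    push Not at hneg
    nlinarith

/-- The semigroup of the chain, as solution of the backward equation. -/
noncomputable def S (r : ℕ → ℕ → ℝ) (g : ℕ → ℝ) (b : ℕ) (t : ℝ) : ℝ :=
  Real.exp (-((∑ j ∈ Finset.range b, r b j) * t)) *
    (g b + ∫ s in (0 : ℝ)..t, Real.exp ((∑ j ∈ Finset.range b, r b j) * s) *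
      ∑ j : Fin b, r b j * S r g j s)
termination_by b
decreasing_by exact j.2

variable {r : ℕ → ℕ → ℝ} {g : ℕ → ℝ}

lemma S_zero (r : ℕ → ℕ → ℝ) (g : ℕ → ℝ) (b : ℕ) : S r g b 0 = g b := by
  rw [S]; simp

lemma S_hasDerivAt (r : ℕ → ℕ → ℝ) (g : ℕ → ℝ) (b : ℕ) (t : ℝ) :
    HasDerivAt (S r g b) (Q r (fun j => S r g j t) b) t := by
  induction b using Nat.strong_induction_on generalizing t with
  | _ b ih =>
    set R := ∑ j ∈ Finset.range b, r b j with hR
    have hcont : Continuous (fun s => Real.exp (R * s) * ∑ j : Fin b, r b j * S r g j s) := by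
      refine Continuous.mul (by fun_prop) (continuous_finsetSum _ (fun j _ => ?_))
      exact continuous_const.mul
        (continuous_iff_continuousAt.2 (fun s => (ih j j.2 s).continuousAt))
    have hF : HasDerivAt (fun t => ∫ s in (0 : ℝ)..t, Real.exp (R * s) *
        ∑ j : Fin b, r b j * S r g j s)
        (Real.exp (R * t) * ∑ j : Fin b, r b j * S r g j t) t :=
      intervalIntegral.integral_hasDerivAt_right (hcont.intervalIntegrable _ _)
        (hcont.stronglyMeasurableAtFilter _ _) hcont.continuousAt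
    have hE : HasDerivAt (fun t => Real.exp (-(R * t)))
        (Real.exp (-(R * t)) * (-(R * 1))) t :=
      (((hasDerivAt_id t).const_mul R).neg).exp
    have hfun : S r g b = fun t => Real.exp (-(R * t)) *
        (g b + ∫ s in (0 : ℝ)..t, Real.exp (R * s) * ∑ j : Fin b, r b j * S r g j s) := by
      funext t; rw [S]
    have h := hE.mul (hF.const_add (g b))
    have h' : HasDerivAt (S r g b) (Real.exp (-(R * t)) * (-(R * 1)) *
        (g b + ∫ s in (0 : ℝ)..t, Real.exp (R * s) * ∑ j : Fin b, r b j * S r g j s) +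
        Real.exp (-(R * t)) * (Real.exp (R * t) * ∑ j : Fin b, r b j * S r g j t)) t := by
      rw [hfun]; exact h
    refine h'.congr_deriv ?_
    have h1 : Real.exp (-(R * t)) * (-(R * 1)) *
        (g b + ∫ s in (0 : ℝ)..t, Real.exp (R * s) * ∑ j : Fin b, r b j * S r g j s)
        = - (R * S r g b t) := by
      rw [congrFun hfun t]; ring
    rw [h1, ← mul_assoc, ← Real.exp_add, neg_add_cancel, Real.exp_zero, one_mul,
      Finset.sum_fin_eq_sum_range]
    unfold Q
    have h2 : ∑ i ∈ Finset.range b, (if h : i < b then r b (⟨i, h⟩ : Fin b) * S r g (⟨i, h⟩ : Fin b) t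
        else 0) = ∑ i ∈ Finset.range b, r b i * S r g i t := by
      refine Finset.sum_congr rfl (fun i hi => ?_)
      rw [Finset.mem_range] at hi
      rw [dif_pos hi]
    rw [h2, hR, Finset.sum_mul]
    have h3 : ∀ j ∈ Finset.range b, r b j * (S r g j t - S r g b t)
        = r b j * S r g j t - r b j * S r g b t := fun j _ => by ring
    rw [Finset.sum_congr rfl h3, Finset.sum_sub_distrib]
    ring

lemma S_continuous (r : ℕ → ℕ → ℝ) (g : ℕ → ℝ) (b : ℕ) : Continuous (S r g b) :=
  continuous_iff_continuousAt.2 (fun t => (S_hasDerivAt r g b t).continuousAt)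

lemma Q_eq (r : ℕ → ℕ → ℝ) (g : ℕ → ℝ) (b : ℕ) :
    Q r g b = ∑ j ∈ Finset.range b, r b j * g j + (-(∑ j ∈ Finset.range b, r b j)) * g b := by
  unfold Q
  have h3 : ∀ j ∈ Finset.range b, r b j * (g j - g b) = r b j * g j - r b j * g b :=
    fun j _ => by ring
  rw [Finset.sum_congr rfl h3, Finset.sum_sub_distrib, ← Finset.sum_mul]
  ring

/-- comparison with the semigroup: supersolutions dominate. -/
lemma S_le {N : ℕ} (hr : ∀ b j, j < b → 0 ≤ r b j) (y y' : ℕ → ℝ → ℝ)
    (hc : ∀ b ≤ N, ContinuousOn (y b) (Ici 0))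
    (hd : ∀ b ≤ N, ∀ t, 0 < t → HasDerivAt (y b) (y' b t) t)
    (hineq : ∀ b ≤ N, ∀ t, 0 < t → Q r (fun j => y j t) b ≤ y' b t)
    (h0 : ∀ b ≤ N, g b ≤ y b 0) : ∀ b ≤ N, ∀ t, 0 ≤ t → S r g b t ≤ y b t := by
  intro b hb t ht
  have := comparison (N := N) r (fun b => -(∑ j ∈ Finset.range b, r b j))
    (fun b t => y b t - S r g b t) (fun b t => y' b t - Q r (fun j => S r g j t) b)
    (fun b _ j hj => hr b j hj)
    (fun b hb => (hc b hb).sub (S_continuous r g b).continuousOn)
    (fun b hb t ht => (hd b hb t ht).sub (S_hasDerivAt r g b t))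
    (fun b hb t ht => by
      have h1 := hineq b hb t ht
      rw [← Q_eq r (fun j => y j t - S r g j t) b]
      have h2 : Q r (fun j => y j t - S r g j t) b
          = Q r (fun j => y j t) b - Q r (fun j => S r g j t) b := by
        unfold Q
        rw [← Finset.sum_sub_distrib]
        exact Finset.sum_congr rfl (fun j _ => by ring)
      rw [h2]; linarith)
    (fun b hb => by simp only [S_zero]; linarith [h0 b hb]) b hb t ht
  linarith

/-- comparison with the semigroup: subsolutions are dominated. -/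
lemma le_S {N : ℕ} (hr : ∀ b j, j < b → 0 ≤ r b j) (y y' : ℕ → ℝ → ℝ)
    (hc : ∀ b ≤ N, ContinuousOn (y b) (Ici 0))
    (hd : ∀ b ≤ N, ∀ t, 0 < t → HasDerivAt (y b) (y' b t) t)
    (hineq : ∀ b ≤ N, ∀ t, 0 < t → y' b t ≤ Q r (fun j => y j t) b)
    (h0 : ∀ b ≤ N, y b 0 ≤ g b) : ∀ b ≤ N, ∀ t, 0 ≤ t → y b t ≤ S r g b t := by
  intro b hb t ht
  have := comparison (N := N) r (fun b => -(∑ j ∈ Finset.range b, r b j))
    (fun b t => S r g b t - y b t) (fun b t => Q r (fun j => S r g j t) b - y' b t)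
    (fun b _ j hj => hr b j hj)
    (fun b hb => ((S_continuous r g b).continuousOn).sub (hc b hb))
    (fun b hb t ht => (S_hasDerivAt r g b t).sub (hd b hb t ht))
    (fun b hb t ht => by
      have h1 := hineq b hb t ht
      rw [← Q_eq r (fun j => S r g j t - y j t) b]
      have h2 : Q r (fun j => S r g j t - y j t) b
          = Q r (fun j => S r g j t) b - Q r (fun j => y j t) b := by
        unfold Q
        rw [← Finset.sum_sub_distrib]
        exact Finset.sum_congr rfl (fun j _ => by ring)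
      rw [h2]; linarith)
    (fun b hb => by simp only [S_zero]; linarith [h0 b hb]) b hb t ht
  linarith

/-- uniqueness -/
lemma S_eq {N : ℕ} (hr : ∀ b j, j < b → 0 ≤ r b j) (y y' : ℕ → ℝ → ℝ)
    (hc : ∀ b ≤ N, ContinuousOn (y b) (Ici 0))
    (hd : ∀ b ≤ N, ∀ t, 0 < t → HasDerivAt (y b) (y' b t) t)
    (hineq : ∀ b ≤ N, ∀ t, 0 < t → y' b t = Q r (fun j => y j t) b)
    (h0 : ∀ b ≤ N, y b 0 = g b) : ∀ b ≤ N, ∀ t, 0 ≤ t → y b t = S r g b t := by
  intro b hb t ht
  exact le_antisymm (le_S hr y y' hc hd (fun b hb t ht => (hineq b hb t ht).le)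
    (fun b hb => (h0 b hb).le) b hb t ht)
    (S_le hr y y' hc hd (fun b hb t ht => (hineq b hb t ht).ge)
    (fun b hb => (h0 b hb).ge) b hb t ht)

lemma S_mono (hr : ∀ b j, j < b → 0 ≤ r b j) {g h : ℕ → ℝ} {b : ℕ} (hgh : ∀ j ≤ b, g j ≤ h j)
    {t : ℝ} (ht : 0 ≤ t) : S r g b t ≤ S r h b t :=
  S_le (N := b) hr (fun j t => S r h j t) (fun j t => Q r (fun i => S r h i t) j)
    (fun j _ => (S_continuous r h j).continuousOn)
    (fun j _ t _ => S_hasDerivAt r h j t) (fun j _ t _ => le_rfl)
    (fun j hj => by rw [S_zero]; exact hgh j hj) b le_rfl t ht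

lemma S_lin (hr : ∀ b j, j < b → 0 ≤ r b j) (g h : ℕ → ℝ) (α β : ℝ) (b : ℕ)
    {t : ℝ} (ht : 0 ≤ t) : S r (fun j => α * g j + β * h j) b t = α * S r g b t + β * S r h b t := by
  symm
  refine S_eq (N := b) hr (fun j t => α * S r g j t + β * S r h j t)
    (fun j t => α * Q r (fun i => S r g i t) j + β * Q r (fun i => S r h i t) j)
    (fun j _ => (((S_continuous r g j).const_mul α).add
      ((S_continuous r h j).const_mul β)).continuousOn)
    (fun j _ t _ => ((S_hasDerivAt r g j t).const_mul α).add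
      ((S_hasDerivAt r h j t).const_mul β)) (fun j _ t _ => ?_)
    (fun j hj => by simp only [S_zero]) b le_rfl t ht
  unfold Q
  rw [Finset.mul_sum, Finset.mul_sum, ← Finset.sum_add_distrib]
  exact Finset.sum_congr rfl (fun i _ => by ring)

lemma S_const (hr : ∀ b j, j < b → 0 ≤ r b j) (c : ℝ) (b : ℕ)
    {t : ℝ} (ht : 0 ≤ t) : S r (fun _ => c) b t = c := by
  symm
  refine S_eq (N := b) hr (fun _ _ => c) (fun _ _ => 0)
    (fun j _ => continuousOn_const) (fun j _ t _ => hasDerivAt_const _ _) (fun j _ t _ => ?_)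
    (fun j hj => rfl) b le_rfl t ht
  unfold Q
  simp

lemma S_smul (hr : ∀ b j, j < b → 0 ≤ r b j) (g : ℕ → ℝ) (α : ℝ) (b : ℕ)
    {t : ℝ} (ht : 0 ≤ t) : S r (fun j => α * g j) b t = α * S r g b t := by
  have := S_lin hr g g α 0 b ht
  simpa using this

lemma S_add (hr : ∀ b j, j < b → 0 ≤ r b j) (g h : ℕ → ℝ) (b : ℕ)
    {t : ℝ} (ht : 0 ≤ t) : S r (fun j => g j + h j) b t = S r g b t + S r h b t := by
  have := S_lin hr g h 1 1 b ht
  simpa using this

lemma S_sub (hr : ∀ b j, j < b → 0 ≤ r b j) (g h : ℕ → ℝ) (b : ℕ)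
    {t : ℝ} (ht : 0 ≤ t) : S r (fun j => g j - h j) b t = S r g b t - S r h b t := by
  have := S_lin hr g h 1 (-1) b ht
  simpa [sub_eq_add_neg] using this

lemma S_nonneg (hr : ∀ b j, j < b → 0 ≤ r b j) {g : ℕ → ℝ} {b : ℕ} (hg : ∀ j ≤ b, 0 ≤ g j)
    {t : ℝ} (ht : 0 ≤ t) : 0 ≤ S r g b t := by
  have := S_mono hr (g := fun _ => 0) (h := g) hg ht
  rwa [S_const hr 0 b ht] at this

/-- forward equation -/
lemma S_Q (hr : ∀ b j, j < b → 0 ≤ r b j) (g : ℕ → ℝ) (b : ℕ)
    {t : ℝ} (ht : 0 ≤ t) : S r (Q r g) b t = Q r (fun j => S r g j t) b := by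
  symm
  refine S_eq (N := b) hr (fun j t => Q r (fun i => S r g i t) j)
    (fun j t => Q r (fun i => Q r (fun k => S r g k t) i) j)
    (fun j _ => ?_) (fun j _ t _ => ?_) (fun j _ t _ => rfl)
    (fun j hj => by simp only [S_zero]) b le_rfl t ht
  · unfold Q
    exact (continuous_finsetSum _ (fun i _ => continuous_const.mul
      ((S_continuous r g i).sub (S_continuous r g j)))).continuousOn
  · unfold Q
    exact HasDerivAt.fun_sum (fun i _ =>
      ((S_hasDerivAt r g i t).sub (S_hasDerivAt r g j t)).const_mul (r j i))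

lemma S_hasDerivAt' (hr : ∀ b j, j < b → 0 ≤ r b j) (g : ℕ → ℝ) (b : ℕ) {t : ℝ} (ht : 0 ≤ t) :
    HasDerivAt (S r g b) (S r (Q r g) b t) t := by
  rw [S_Q hr g b ht]; exact S_hasDerivAt r g b t

/-- comparison of two chains -/
lemma S_compare {r r' : ℕ → ℕ → ℝ} (hr' : ∀ b j, j < b → 0 ≤ r' b j)
    (hrr : ∀ b j, j < b → r' b j ≤ r b j) {c : ℝ}
    (hc : ∀ b, ∑ j ∈ Finset.range b, (r b j - r' b j) ≤ c) {g : ℕ → ℝ} (hg : ∀ j, 0 ≤ g j) (b : ℕ)
    {t : ℝ} (ht : 0 ≤ t) : Real.exp (-(c * t)) * S r' g b t ≤ S r g b t := by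
  have hr : ∀ b j, j < b → 0 ≤ r b j := fun b j hj => (hr' b j hj).trans (hrr b j hj)
  refine le_S (N := b) hr (fun j t => Real.exp (-(c * t)) * S r' g j t)
    (fun j t => Real.exp (-(c * t)) * (-(c * 1)) * S r' g j t +
      Real.exp (-(c * t)) * Q r' (fun i => S r' g i t) j)
    (fun j _ => ((by fun_prop : Continuous (fun t => Real.exp (-(c * t)))).mul
      (S_continuous r' g j)).continuousOn) (fun j _ t _ => ?_) (fun j _ t ht => ?_)
    (fun j _ => by simp only [S_zero, mul_zero, neg_zero, Real.exp_zero, one_mul]; exact le_rfl)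
    b le_rfl t ht
  · have hE : HasDerivAt (fun t => Real.exp (-(c * t)))
        (Real.exp (-(c * t)) * (-(c * 1))) t :=
      (((hasDerivAt_id t).const_mul c).neg).exp
    exact hE.mul (S_hasDerivAt r' g j t)
  · have h1 : Q r (fun i => Real.exp (-(c * t)) * S r' g i t) j
        = Real.exp (-(c * t)) * Q r (fun i => S r' g i t) j := by
      unfold Q
      rw [Finset.mul_sum]
      exact Finset.sum_congr rfl (fun i _ => by ring)
    rw [h1]
    have h2 : Q r (fun i => S r' g i t) j - Q r' (fun i => S r' g i t) j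
        = ∑ i ∈ Finset.range j, (r j i - r' j i) * S r' g i t
          - (∑ i ∈ Finset.range j, (r j i - r' j i)) * S r' g j t := by
      unfold Q
      rw [← Finset.sum_sub_distrib, Finset.sum_mul, ← Finset.sum_sub_distrib]
      exact Finset.sum_congr rfl (fun i _ => by ring)
    have h3 : 0 ≤ ∑ i ∈ Finset.range j, (r j i - r' j i) * S r' g i t := by
      refine Finset.sum_nonneg (fun i hi => ?_)
      rw [Finset.mem_range] at hi
      exact mul_nonneg (by linarith [hrr j i hi]) (S_nonneg hr' (fun k _ => hg k) ht.le)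
    have h4 : (∑ i ∈ Finset.range j, (r j i - r' j i)) * S r' g j t ≤ c * S r' g j t :=
      mul_le_mul_of_nonneg_right (hc j) (S_nonneg hr' (fun k _ => hg k) ht.le)
    have h5 := Real.exp_pos (-(c * t))
    nlinarith

/-- Chebyshev association inequality -/
lemma S_assoc (hr : ∀ b j, j < b → 0 ≤ r b j) {f a : ℕ → ℝ} {b : ℕ}
    (hf : ∀ i j, i ≤ j → f i ≤ f j) (ha : ∀ i j, i ≤ j → a i ≤ a j) {t : ℝ} (ht : 0 ≤ t) :
    S r f b t * S r a b t ≤ S r (fun j => f j * a j) b t := by
  have key : ∀ i j, 0 ≤ (f j - f i) * (a j - a i) := by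
    intro i j
    rcases le_total i j with h | h
    · exact mul_nonneg (by linarith [hf i j h]) (by linarith [ha i j h])
    · exact mul_nonneg_of_nonpos_of_nonpos (by linarith [hf j i h]) (by linarith [ha j i h])
  have h1 : ∀ i, 0 ≤ S r (fun j => f j * a j) b t - a i * S r f b t - f i * S r a b t
      + f i * a i := by
    intro i
    have h2 : 0 ≤ S r (fun j => (f j - f i) * (a j - a i)) b t :=
      S_nonneg hr (fun j _ => key i j) ht
    have h3 : (fun j => (f j - f i) * (a j - a i))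
        = fun j => (1 * (f j * a j) + (-1) * (a i * f j + f i * a j)) + f i * a i := by
      funext j; ring
    rw [h3, S_add hr (fun j => 1 * (f j * a j) + (-1) * (a i * f j + f i * a j))
      (fun _ => f i * a i) b ht, S_const hr _ b ht,
      S_lin hr (fun j => f j * a j) (fun j => a i * f j + f i * a j) 1 (-1) b ht,
      S_lin hr f a (a i) (f i) b ht] at h2
    linarith
  have h4 : 0 ≤ S r (fun i => S r (fun j => f j * a j) b t - a i * S r f b t - f i * S r a b t
      + f i * a i) b t := S_nonneg hr (fun i _ => h1 i) ht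
  have h5 : (fun i => S r (fun j => f j * a j) b t - a i * S r f b t - f i * S r a b t
      + f i * a i) = fun i => (S r (fun j => f j * a j) b t) +
        (1 * (f i * a i) + (-1) * (S r f b t * a i + S r a b t * f i)) := by
    funext i; ring
  rw [h5, S_add hr (fun _ => S r (fun j => f j * a j) b t)
    (fun i => 1 * (f i * a i) + (-1) * (S r f b t * a i + S r a b t * f i)) b ht,
    S_const hr _ b ht,
    S_lin hr (fun j => f j * a j) (fun i => S r f b t * a i + S r a b t * f i) 1 (-1) b ht,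
    S_lin hr a f (S r f b t) (S r a b t) b ht] at h4
  linarith

end Pool.Agent.H971.EX
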