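import Pool.Agent.H971.EX.Kgen

/-! Conditional moment equations for the Fleming-Viot process (helper file). -/

open MeasureTheory ProbabilityTheory Filter Topology Set Pool.Agent.H971.FV
open scoped ENNReal NNReal unitInterval

namespace Pool.Agent.H971.EX

section alg

variable {Λ : Measure ℝ} [IsFiniteMeasure Λ]

/-- the jump generator on powers of the mass of a set -/
lemma genJ_pow {φ : I → ℝ} (hφ : BLim φ) (hφ2 : ∀ x, φ x * φ x = φ x) (n : ℕ) (μ : Measure I)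
    [IsProbabilityMeasure μ] :
    gen' Λ (fun _ : Fin n => φ) μ = Q (rateJ Λ) (fun j => (∫ y, φ y ∂μ) ^ j) n := by
  set X := ∫ y, φ y ∂μ with hX
  rw [gen'_eq (fun _ : Fin n => φ) (fun _ => hφ.measurable) (fun _ x => hφ.abs_le x) μ]
  have hKS : ∀ S : Finset (Fin n), 2 ≤ S.card →
      KS (fun _ : Fin n => φ) μ S = X ^ (n - S.card + 1) - X ^ n := KS_pow hφ2 n μ
  have h1 : ∑ S ∈ (Finset.univ : Finset (Fin n)).powerset with 2 ≤ S.card,
      (∫ u, u ^ S.card * (1 - u) ^ (n - S.card) ∂(nu Λ)) * KS (fun _ : Fin n => φ) μ S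
      = ∑ S ∈ (Finset.univ : Finset (Fin n)).powerset,
        (if 2 ≤ S.card then (∫ u, u ^ S.card * (1 - u) ^ (n - S.card) ∂(nu Λ)) *
          (X ^ (n - S.card + 1) - X ^ n) else 0) := by
    rw [Finset.sum_filter]
    refine Finset.sum_congr rfl (fun S _ => ?_)
    split_ifs with h
    · rw [hKS S h]
    · rfl
  rw [h1, Finset.sum_powerset_apply_card (fun k => if 2 ≤ k then
    (∫ u, u ^ k * (1 - u) ^ (n - k) ∂(nu Λ)) * (X ^ (n - k + 1) - X ^ n) else 0),
    Finset.card_univ, Fintype.card_fin]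
  unfold Q
  cases n with
  | zero => simp
  | succ n =>
    rw [Finset.sum_range_succ' (fun j => rateJ Λ (n + 1) j * (X ^ j - X ^ (n + 1))), rateJ_zero,
      zero_mul, add_zero, Finset.sum_range_succ' (fun k => (n + 1).choose k • (if 2 ≤ k then
      (∫ u, u ^ k * (1 - u) ^ (n + 1 - k) ∂(nu Λ)) * (X ^ (n + 1 - k + 1) - X ^ (n + 1)) else 0))]
    simp only [show ¬ (2 ≤ 0) by omega, if_false, smul_zero, add_zero]
    rw [Finset.sum_range_succ', ← Finset.sum_range_reflect (fun j => rateJ Λ (n + 1) (j + 1) *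
      (X ^ (j + 1) - X ^ (n + 1)))]
    simp only [show ¬ (2 ≤ 0 + 1) by omega, if_false, smul_zero, add_zero]
    refine Finset.sum_congr rfl (fun k hk => ?_)
    rw [Finset.mem_range] at hk
    rw [if_pos (by omega : 2 ≤ k + 1 + 1)]
    have e1 : n + 1 - (k + 1 + 1) = n - 1 - k := by omega
    rw [e1]
    have e2 : rateJ Λ (n + 1) (n - 1 - k + 1) = ((n + 1).choose (k + 1 + 1)) *
        ∫ u, u ^ (k + 1 + 1) * (1 - u) ^ (n - 1 - k) ∂(nu Λ) := by
      unfold rateJ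
      rw [← integral_const_mul]
      refine integral_congr_ae (Eventually.of_forall (fun u => ?_))
      simp only [ru_succ]
      have e3 : n + 1 - (n - 1 - k) = k + 1 + 1 := by omega
      have e4 : (n + 1).choose (n - 1 - k) = (n + 1).choose (k + 1 + 1) := by
        rw [← Nat.choose_symm (by omega : n - 1 - k ≤ n + 1), e3]
      rw [e3, e4]; ring
    rw [e2, nsmul_eq_mul]
    ring

/-- the generator on powers of the mass of a set -/
lemma gen_pow {φ : I → ℝ} (hφ : BLim φ) (hφ2 : ∀ x, φ x * φ x = φ x) (n : ℕ) (μ : Measure I)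
    [IsProbabilityMeasure μ] :
    genT Λ (fun _ : Fin n => φ) μ = Q (rate Λ) (fun j => (∫ y, φ y ∂μ) ^ j) n := by
  unfold genT
  rw [genJ_pow hφ hφ2, kgen_pow hφ2, Q_rate]

end alg

section process

variable {Ω : Type*} [mΩ : MeasurableSpace Ω] {P : Measure Ω}
  {Λ : Measure ℝ} {ρ : ℝ≥0 → Ω → ProbabilityMeasure I}

/-- A Fleming-Viot process together with its filtration (the initial value is arbitrary). -/
structure FVF (Λ : Measure ℝ) (P : Measure Ω) (ρ : ℝ≥0 → Ω → ProbabilityMeasure I)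
    (𝓕 : Filtration ℝ≥0 mΩ) : Prop where
  right_cont : ∀ ω t, ContinuousWithinAt (fun s => ρ s ω) (Ici t) t
  meas : ∀ t, Measurable[𝓕 t] (ρ t)
  mart : ∀ (n : ℕ) (f : Fin n → C(I, ℝ)), Martingale
      (fun t ω => testFun f (ρ t ω) - ∫ s in (0 : ℝ)..t, genT Λ (fun i => ⇑(f i)) (ρ s.toNNReal ω : Measure I)) 𝓕 P

variable [IsProbabilityMeasure P] [IsFiniteMeasure Λ] {𝓕 : Filtration ℝ≥0 mΩ}

lemma FVF.meas' (h : FVF Λ P ρ 𝓕) (t : ℝ≥0) : Measurable (ρ t) := (h.meas t).mono (𝓕.le t) le_rfl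

lemma FVF.wm (h : FVF Λ P ρ 𝓕) : WM (fun p : ℝ × Ω => ρ p.1.toNNReal p.2) :=
  wm_joint h.meas' h.right_cont

/-- joint weak measurability of the shifted process -/
lemma FVF.wm_shift (h : FVF Λ P ρ 𝓕) (s : ℝ≥0) :
    WM (fun p : ℝ × Ω => ρ (s + p.1.toNNReal) p.2) := by
  intro g
  have h1 : Measurable (fun p : ℝ × Ω => (((s : ℝ) + (p.1.toNNReal : ℝ)), p.2)) := by
    refine Measurable.prodMk ?_ measurable_snd
    exact measurable_const.add (measurable_fst.real_toNNReal.coe_nnreal_real)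
  have h2 := (h.wm g).comp h1
  have h3 : ((fun p : ℝ × Ω => ∫ y, g y ∂(ρ p.1.toNNReal p.2 : Measure I)) ∘
      fun p : ℝ × Ω => (((s : ℝ) + (p.1.toNNReal : ℝ)), p.2))
      = fun p : ℝ × Ω => ∫ y, g y ∂(ρ (s + p.1.toNNReal) p.2 : Measure I) := by
    funext p
    simp only [Function.comp]
    have : ((s : ℝ) + (p.1.toNNReal : ℝ)).toNNReal = s + p.1.toNNReal := by
      rw [← NNReal.coe_add, Real.toNNReal_coe]
    rw [this]
  rwa [h3] at h2

/-- time-space measure -/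
noncomputable def tsG (P : Measure Ω) (t : ℝ) : Measure (ℝ × Ω) :=
  (volume.restrict (Ioc 0 t)).prod P

instance (P : Measure Ω) [IsFiniteMeasure P] (t : ℝ) : IsFiniteMeasure (tsG P t) := by
  unfold tsG; infer_instance

lemma FVF.integrable_gen (h : FVF Λ P ρ 𝓕) (s : ℝ≥0) (G : Set Ω) {n : ℕ} {f : Fin n → I → ℝ}
    (hf : ∀ i, BLim (f i)) (t : ℝ) :
    Integrable (fun p : ℝ × Ω => genT Λ f (ρ (s + p.1.toNNReal) p.2 : Measure I))
      (tsG (P.restrict G) t) :=
  Integrable.of_bound (C := genTBound Λ n) (WM.genT (h.wm_shift s) hf).aestronglyMeasurable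
    (Eventually.of_forall (fun _ => genT_abs hf _))

lemma FVF.integrable_mom (h : FVF Λ P ρ 𝓕) (G : Set Ω) {n : ℕ} {f : Fin n → I → ℝ}
    (hf : ∀ i, BLim (f i)) (t : ℝ≥0) :
    Integrable (fun ω => mom f (ρ t ω : Measure I)) (P.restrict G) :=
  Integrable.of_bound (C := 1) ((wm_of_measurable (h.meas' t)).mom hf).aestronglyMeasurable
    (Eventually.of_forall (fun ω => by
      rw [Real.norm_eq_abs, abs_of_nonneg (mom_mem hf _).1]; exact (mom_mem hf _).2))

lemma FVF.fwd_cont (h : FVF Λ P ρ 𝓕) {s : ℝ≥0} {G : Set Ω} (hG : MeasurableSet[𝓕 s] G)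
    {n : ℕ} (f : Fin n → C(I, ℝ)) (hf : ∀ i x, 0 ≤ f i x ∧ f i x ≤ 1) (t : ℝ≥0) :
    ∫ ω in G, mom (fun i => ⇑(f i)) (ρ (s + t) ω : Measure I) ∂P
      = ∫ ω in G, mom (fun i => ⇑(f i)) (ρ s ω : Measure I) ∂P
      + ∫ p, genT Λ (fun i => ⇑(f i)) (ρ (s + p.1.toNNReal) p.2 : Measure I)
        ∂(tsG (P.restrict G) t) := by
  have hB : ∀ i, BLim (fun x => f i x) := fun i => BLim.of_cont (f i) (hf i)
  have hM := h.mart n f
  have hE := hM.setIntegral_eq (le_self_add : s ≤ s + t) hG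
  -- path integrability
  have hpath : ∀ ω, ∀ a b : ℝ, IntervalIntegrable
      (fun r : ℝ => genT Λ (fun i => ⇑(f i)) (ρ r.toNNReal ω : Measure I)) volume a b := by
    intro ω a b
    have h1 : Measurable (fun r : ℝ => genT Λ (fun i => ⇑(f i)) (ρ r.toNNReal ω : Measure I)) :=
      (WM.genT (Λ := Λ) h.wm hB).comp (measurable_prodMk_right (y := ω))
    exact (intervalIntegrable_const (c := genTBound Λ n)).mono_fun' h1.aestronglyMeasurable
      (Eventually.of_forall (fun _ => genT_abs hB _))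
  have hsplit : ∀ ω, (∫ r in (0 : ℝ)..((s + t : ℝ≥0) : ℝ), genT Λ (fun i => ⇑(f i)) (ρ r.toNNReal ω : Measure I))
      = (∫ r in (0 : ℝ)..(s : ℝ), genT Λ (fun i => ⇑(f i)) (ρ r.toNNReal ω : Measure I))
        + ∫ r in Ioc (0 : ℝ) t, genT Λ (fun i => ⇑(f i)) (ρ (s + r.toNNReal) ω : Measure I) := by
    intro ω
    rw [← intervalIntegral.integral_add_adjacent_intervals (hpath ω 0 s) (hpath ω s (s + t : ℝ≥0))]
    congr 1
    have h2 := intervalIntegral.integral_comp_add_left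
      (fun r : ℝ => genT Λ (fun i => ⇑(f i)) (ρ r.toNNReal ω : Measure I)) (s : ℝ) (a := 0) (b := (t : ℝ))
    rw [add_zero] at h2
    rw [NNReal.coe_add, ← h2, intervalIntegral.integral_of_le (NNReal.coe_nonneg t)]
    refine setIntegral_congr_fun measurableSet_Ioc (fun r hr => ?_)
    show genT Λ (fun i => ⇑(f i)) (ρ ((s : ℝ) + r).toNNReal ω : Measure I) = _
    rw [Real.toNNReal_add (NNReal.coe_nonneg s) hr.1.le, Real.toNNReal_coe]
  have hint := h.integrable_gen s G hB t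
  have hval : ∫ ω in G, (∫ r in Ioc (0 : ℝ) t, genT Λ (fun i => ⇑(f i))
        (ρ (s + r.toNNReal) ω : Measure I)) ∂P
      = ∫ p, genT Λ (fun i => ⇑(f i)) (ρ (s + p.1.toNNReal) p.2 : Measure I)
        ∂(tsG (P.restrict G) t) := by
    unfold tsG at hint ⊢
    rw [integral_prod_symm _ hint]
  have hm1 := h.integrable_mom G hB s
  have hm2 := h.integrable_mom G hB (s + t)
  have hi0 : Integrable (fun ω => ∫ r in (0 : ℝ)..(s : ℝ), genT Λ (fun i => ⇑(f i)) (ρ r.toNNReal ω : Measure I))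
      (P.restrict G) := by
    have h3 : Integrable (fun p : ℝ × Ω => genT Λ (fun i => ⇑(f i))
        (ρ p.1.toNNReal p.2 : Measure I)) (tsG (P.restrict G) s) :=
      Integrable.of_bound (C := genTBound Λ n) (WM.genT h.wm hB).aestronglyMeasurable
        (Eventually.of_forall (fun _ => genT_abs hB _))
    have h4 : (fun ω => ∫ r in (0 : ℝ)..(s : ℝ), genT Λ (fun i => ⇑(f i)) (ρ r.toNNReal ω : Measure I))
        = fun ω => ∫ r in Ioc (0 : ℝ) s, genT Λ (fun i => ⇑(f i)) (ρ r.toNNReal ω : Measure I) := by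
      funext ω
      rw [intervalIntegral.integral_of_le (NNReal.coe_nonneg s)]
    rw [h4]
    exact h3.integral_prod_right
  have hi1 : Integrable (fun ω => ∫ r in Ioc (0 : ℝ) t, genT Λ (fun i => ⇑(f i))
      (ρ (s + r.toNNReal) ω : Measure I)) (P.restrict G) := hint.integral_prod_right
  have e1 : ∫ ω in G, (testFun f (ρ s ω) - ∫ r in (0 : ℝ)..(s : ℝ),
        genT Λ (fun i => ⇑(f i)) (ρ r.toNNReal ω : Measure I)) ∂P
      = ∫ ω in G, testFun f (ρ s ω) ∂P - ∫ ω in G, (∫ r in (0 : ℝ)..(s : ℝ),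
        genT Λ (fun i => ⇑(f i)) (ρ r.toNNReal ω : Measure I)) ∂P := integral_sub hm1 hi0
  have e2 : ∫ ω in G, (testFun f (ρ (s + t) ω) - ∫ r in (0 : ℝ)..((s + t : ℝ≥0) : ℝ),
        genT Λ (fun i => ⇑(f i)) (ρ r.toNNReal ω : Measure I)) ∂P
      = ∫ ω in G, testFun f (ρ (s + t) ω) ∂P - (∫ ω in G, (∫ r in (0 : ℝ)..(s : ℝ),
        genT Λ (fun i => ⇑(f i)) (ρ r.toNNReal ω : Measure I)) ∂P +
        ∫ ω in G, (∫ r in Ioc (0 : ℝ) t, genT Λ (fun i => ⇑(f i))
        (ρ (s + r.toNNReal) ω : Measure I)) ∂P) := by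
    rw [← integral_add hi0 hi1]
    refine Eq.trans (integral_congr_ae (Eventually.of_forall (fun ω => ?_)))
      (integral_sub hm2 (hi0.add hi1))
    simp only []
    rw [hsplit ω]
  rw [e1, e2, hval] at hE
  have e3 : ∫ ω in G, mom (fun i => ⇑(f i)) (ρ (s + t) ω : Measure I) ∂P
      = ∫ ω in G, testFun f (ρ (s + t) ω) ∂P := rfl
  have e4 : ∫ ω in G, mom (fun i => ⇑(f i)) (ρ s ω : Measure I) ∂P
      = ∫ ω in G, testFun f (ρ s ω) ∂P := rfl
  rw [e3, e4]
  linarith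

/-- conditional forward equation -/
lemma FVF.fwd (h : FVF Λ P ρ 𝓕) {s : ℝ≥0} {G : Set Ω} (hG : MeasurableSet[𝓕 s] G)
    {n : ℕ} {f : Fin n → I → ℝ} (hf : ∀ i, BLim (f i)) (t : ℝ≥0) :
    ∫ ω in G, mom f (ρ (s + t) ω : Measure I) ∂P
      = ∫ ω in G, mom f (ρ s ω : Measure I) ∂P
      + ∫ p, genT Λ f (ρ (s + p.1.toNNReal) p.2 : Measure I) ∂(tsG (P.restrict G) t) := by
  choose F h1 hF using hf
  have hBk : ∀ k i, BLim (fun x => F i k x) := fun k i => BLim.of_cont (F i k) (h1 i k)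
  have hk := fun k => h.fwd_cont hG (fun i => F i k) (fun i x => h1 i k x) t
  have hL : ∀ r : ℝ≥0, Tendsto (fun k => ∫ ω in G, mom (fun i => ⇑(F i k))
      (ρ r ω : Measure I) ∂P) atTop (𝓝 (∫ ω in G, mom f (ρ r ω : Measure I) ∂P)) := by
    intro r
    refine tendsto_integral_of_dominated_convergence (fun _ => 1)
      (fun k => (h.integrable_mom G (hBk k) r).aestronglyMeasurable) (integrable_const _)
      (fun k => ?_) ?_
    · exact Eventually.of_forall (fun ω => by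
        rw [Real.norm_eq_abs, abs_of_nonneg (mom_mem (hBk k) _).1]; exact (mom_mem (hBk k) _).2)
    · exact Eventually.of_forall (fun ω => tendsto_mom h1 hF _)
  have hR : Tendsto (fun k => ∫ ω in G, mom (fun i => ⇑(F i k)) (ρ s ω : Measure I) ∂P
      + ∫ p, genT Λ (fun i => ⇑(F i k)) (ρ (s + p.1.toNNReal) p.2 : Measure I)
        ∂(tsG (P.restrict G) t)) atTop
      (𝓝 (∫ ω in G, mom f (ρ s ω : Measure I) ∂P
      + ∫ p, genT Λ f (ρ (s + p.1.toNNReal) p.2 : Measure I) ∂(tsG (P.restrict G) t))) := by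
    refine (hL s).add ?_
    refine tendsto_integral_of_dominated_convergence (fun _ => genTBound Λ n)
      (fun k => (h.integrable_gen s G (hBk k) t).aestronglyMeasurable) (integrable_const _)
      (fun k => ?_) ?_
    · exact Eventually.of_forall (fun p => genT_abs (hBk k) _)
    · exact Eventually.of_forall (fun p => tendsto_genT h1 hF _)
  have hL' := hL (s + t)
  simp_rw [hk] at hL'
  exact tendsto_nhds_unique hL' hR

/-- the mass of `φ` -/
noncomputable def mass (ρ : ℝ≥0 → Ω → ProbabilityMeasure I) (φ : I → ℝ) (t : ℝ≥0) (ω : Ω) : ℝ :=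
  ∫ y, φ y ∂(ρ t ω : Measure I)

lemma mass_mem {φ : I → ℝ} (hφ : BLim φ) (t : ℝ≥0) (ω : Ω) :
    0 ≤ mass ρ φ t ω ∧ mass ρ φ t ω ≤ 1 := integral_mem hφ _

lemma FVF.mass_meas (h : FVF Λ P ρ 𝓕) {φ : I → ℝ} (hφ : BLim φ) (t : ℝ≥0) :
    Measurable[𝓕 t] (mass ρ φ t) := by
  exact @WM.blim Ω (𝓕 t) (ρ t) (@wm_of_measurable Ω (𝓕 t) (ρ t) (h.meas t)) φ hφ

lemma FVF.mass_meas' (h : FVF Λ P ρ 𝓕) {φ : I → ℝ} (hφ : BLim φ) (t : ℝ≥0) :
    Measurable (mass ρ φ t) := (h.mass_meas hφ t).mono (𝓕.le t) le_rfl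

lemma FVF.mass_pow_integrable (h : FVF Λ P ρ 𝓕) {φ : I → ℝ} (hφ : BLim φ) (t : ℝ≥0) (n : ℕ)
    (G : Set Ω) : Integrable (fun ω => mass ρ φ t ω ^ n) (P.restrict G) :=
  Integrable.of_bound (C := 1) ((h.mass_meas' hφ t).pow_const n).aestronglyMeasurable
    (Eventually.of_forall (fun ω => by
      rw [Real.norm_eq_abs, abs_of_nonneg (pow_nonneg (mass_mem hφ t ω).1 n)]
      exact pow_le_one₀ (mass_mem hφ t ω).1 (mass_mem hφ t ω).2))

/-- the moments -/
noncomputable def yy (P : Measure Ω) (ρ : ℝ≥0 → Ω → ProbabilityMeasure I) (φ : I → ℝ) (s : ℝ≥0)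
    (G : Set Ω) (n : ℕ) (t : ℝ) : ℝ := ∫ ω in G, mass ρ φ (s + t.toNNReal) ω ^ n ∂P

lemma mom_const (φ : I → ℝ) (n : ℕ) (μ : Measure I) :
    mom (fun _ : Fin n => φ) μ = (∫ y, φ y ∂μ) ^ n := by
  unfold mom; rw [Finset.prod_const, Finset.card_univ, Fintype.card_fin]

lemma FVF.yy_integral (h : FVF Λ P ρ 𝓕) {s : ℝ≥0} {G : Set Ω} (hG : MeasurableSet[𝓕 s] G)
    {φ : I → ℝ} (hφ : BLim φ) (hφ2 : ∀ x, φ x * φ x = φ x) (n : ℕ) {t : ℝ} (ht : 0 ≤ t) :
    yy P ρ φ s G n t = yy P ρ φ s G n 0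
      + ∫ r in (0 : ℝ)..t, Q (rate Λ) (fun j => yy P ρ φ s G j r) n := by
  have h1 := h.fwd hG (f := fun _ : Fin n => φ) (fun _ => hφ) t.toNNReal
  simp only [mom_const] at h1
  have hint := h.integrable_gen s G (f := fun _ : Fin n => φ) (fun _ => hφ) t
  have h2 : ∫ p, genT Λ (fun _ : Fin n => φ) (ρ (s + p.1.toNNReal) p.2 : Measure I)
      ∂(tsG (P.restrict G) (t.toNNReal : ℝ))
      = ∫ r in (0 : ℝ)..t, Q (rate Λ) (fun j => yy P ρ φ s G j r) n := by
    rw [Real.coe_toNNReal t ht]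
    unfold tsG at hint ⊢
    rw [integral_prod _ hint, intervalIntegral.integral_of_le ht]
    refine integral_congr_ae (Eventually.of_forall (fun r => ?_))
    simp only
    simp_rw [gen_pow hφ hφ2]
    unfold Q
    rw [integral_finsetSum]
    · refine Finset.sum_congr rfl (fun j _ => ?_)
      rw [integral_const_mul, integral_sub]
      · rfl
      · exact h.mass_pow_integrable hφ _ _ G
      · exact h.mass_pow_integrable hφ _ _ G
    · intro j _
      exact ((h.mass_pow_integrable hφ _ _ G).sub (h.mass_pow_integrable hφ _ _ G)).const_mul _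
  rw [h2] at h1
  unfold yy mass at h1 ⊢
  rw [Real.toNNReal_zero, add_zero]
  exact h1

lemma FVF.yy_measurable (h : FVF Λ P ρ 𝓕) {s : ℝ≥0} {G : Set Ω}
    {φ : I → ℝ} (hφ : BLim φ) (n : ℕ) : Measurable (yy P ρ φ s G n) := by
  have h1 : Measurable (fun p : ℝ × Ω => mass ρ φ (s + p.1.toNNReal) p.2 ^ n) :=
    ((h.wm_shift s).blim hφ).pow_const n
  have h2 : StronglyMeasurable (fun r : ℝ => ∫ ω, mass ρ φ (s + r.toNNReal) ω ^ n
      ∂(P.restrict G)) := h1.stronglyMeasurable.integral_prod_right'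
  exact h2.measurable

lemma yy_abs {s : ℝ≥0} {G : Set Ω} {φ : I → ℝ} (hφ : BLim φ) (n : ℕ) (t : ℝ) :
    ‖yy P ρ φ s G n t‖ ≤ 1 := by
  unfold yy
  have h1 := norm_setIntegral_le_of_norm_le_const (μ := P) (s := G) (C := 1)
    (f := fun ω => mass ρ φ (s + t.toNNReal) ω ^ n) (measure_lt_top P G) (fun ω _ => by
      rw [Real.norm_eq_abs, abs_of_nonneg (pow_nonneg (mass_mem hφ _ ω).1 n)]
      exact pow_le_one₀ (mass_mem hφ _ ω).1 (mass_mem hφ _ ω).2)
  have h2 : P.real G ≤ 1 := by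
    have := measureReal_mono (μ := P) (subset_univ G)
    rwa [probReal_univ] at this
  linarith

lemma FVF.Qyy_int (h : FVF Λ P ρ 𝓕) {s : ℝ≥0} {G : Set Ω}
    {φ : I → ℝ} (hφ : BLim φ) (n : ℕ) (a b : ℝ) :
    IntervalIntegrable (fun r => Q (rate Λ) (fun j => yy P ρ φ s G j r) n) volume a b := by
  have hi : ∀ m, IntervalIntegrable (fun r => yy P ρ φ s G m r) volume a b := by
    intro m
    exact (intervalIntegrable_const (c := (1 : ℝ))).mono_fun' (h.yy_measurable hφ m).aestronglyMeasurable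
      (Eventually.of_forall (fun _ => yy_abs hφ m _))
  have h2 : (fun r => Q (rate Λ) (fun j => yy P ρ φ s G j r) n)
      = ∑ j ∈ Finset.range n, fun r => rate Λ n j * (yy P ρ φ s G j r - yy P ρ φ s G n r) := by
    funext r
    rw [Finset.sum_apply]
    rfl
  rw [h2]
  exact IntervalIntegrable.sum _ (fun j _ => ((hi j).sub (hi n)).const_mul _)

lemma FVF.yy_continuousOn (h : FVF Λ P ρ 𝓕) {s : ℝ≥0} {G : Set Ω} (hG : MeasurableSet[𝓕 s] G)
    {φ : I → ℝ} (hφ : BLim φ) (hφ2 : ∀ x, φ x * φ x = φ x) (n : ℕ) :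
    ContinuousOn (yy P ρ φ s G n) (Ici 0) := by
  have h1 : Continuous (fun t : ℝ => yy P ρ φ s G n 0
      + ∫ r in (0 : ℝ)..t, Q (rate Λ) (fun j => yy P ρ φ s G j r) n) :=
    continuous_const.add (intervalIntegral.continuous_primitive (fun a b => h.Qyy_int hφ n a b) 0)
  exact h1.continuousOn.congr (fun t ht => h.yy_integral hG hφ hφ2 n ht)

lemma FVF.yy_hasDerivAt (h : FVF Λ P ρ 𝓕) {s : ℝ≥0} {G : Set Ω} (hG : MeasurableSet[𝓕 s] G)
    {φ : I → ℝ} (hφ : BLim φ) (hφ2 : ∀ x, φ x * φ x = φ x) (n : ℕ) {t : ℝ} (ht : 0 < t) :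
    HasDerivAt (yy P ρ φ s G n) (Q (rate Λ) (fun j => yy P ρ φ s G j t) n) t := by
  have hc : ContinuousAt (fun r => Q (rate Λ) (fun j => yy P ρ φ s G j r) n) t := by
    unfold Q
    refine tendsto_finsetSum _ (fun j _ => ?_)
    have hj : ∀ m, ContinuousAt (yy P ρ φ s G m) t := fun m =>
      (h.yy_continuousOn hG hφ hφ2 m).continuousAt (Ici_mem_nhds ht)
    exact (((hj j).sub (hj n)).const_mul _)
  have hmeas : StronglyMeasurableAtFilter
      (fun r => Q (rate Λ) (fun j => yy P ρ φ s G j r) n) (𝓝 t) := by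
    refine ⟨univ, univ_mem, ?_⟩
    have : Measurable (fun r => Q (rate Λ) (fun j => yy P ρ φ s G j r) n) := by
      unfold Q
      exact Finset.measurable_sum _ (fun j _ =>
        ((h.yy_measurable hφ j).sub (h.yy_measurable hφ n)).const_mul _)
    exact this.aestronglyMeasurable
  have h1 := (intervalIntegral.integral_hasDerivAt_right (h.Qyy_int hφ n 0 t) hmeas hc).const_add
    (yy P ρ φ s G n 0)
  refine h1.congr_of_eventuallyEq ?_
  filter_upwards [Ioi_mem_nhds ht] with r hr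
  exact h.yy_integral hG hφ hφ2 n (le_of_lt hr)

end process

end Pool.Agent.H971.EX
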