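import Pool.Agent.H971.EX.NoJump
import Pool.Agent.H971.EX.Cond

/-! Consequences of duality for the Fleming-Viot process (helper file). -/

open MeasureTheory ProbabilityTheory Filter Topology Set Pool.Agent.H971.FV
open scoped ENNReal NNReal unitInterval

namespace Pool.Agent.H971.EX

/-- indicator function of a set of types -/
noncomputable def ind (U : Set I) : I → ℝ := U.indicator (fun _ => 1)

/-- indicator function of the complement -/
noncomputable def cind (U : Set I) : I → ℝ := fun x => 1 - ind U x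

lemma ind_sq (U : Set I) (x : I) : ind U x * ind U x = ind U x := by
  unfold ind; by_cases h : x ∈ U <;> simp [h]

lemma cind_sq (U : Set I) (x : I) : cind U x * cind U x = cind U x := by
  unfold cind ind; by_cases h : x ∈ U <;> simp [h]

lemma blim_ind {U : Set I} (hU : IsOpen U) : BLim (ind U) := by
  by_cases hne : (Uᶜ).Nonempty
  · refine ⟨fun k => ⟨fun x => min 1 ((k : ℝ) * Metric.infDist x Uᶜ), by fun_prop⟩,
      fun k x => ⟨?_, min_le_left _ _⟩, fun x => ?_⟩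
    · exact le_min zero_le_one (mul_nonneg (Nat.cast_nonneg k) Metric.infDist_nonneg)
    · by_cases hx : x ∈ U
      · have hpos : 0 < Metric.infDist x Uᶜ := by
          rw [← (hU.isClosed_compl).notMem_iff_infDist_pos hne]
          simpa using hx
        have h1 : Tendsto (fun k : ℕ => (k : ℝ) * Metric.infDist x Uᶜ) atTop atTop :=
          tendsto_natCast_atTop_atTop.atTop_mul_const hpos
        have h2 : ind U x = 1 := by simp [ind, hx]
        rw [h2]
        refine tendsto_const_nhds.congr' ?_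
        filter_upwards [h1.eventually_ge_atTop 1] with k hk
        exact (min_eq_left hk).symm
      · have h0 : Metric.infDist x Uᶜ = 0 := Metric.infDist_zero_of_mem (by simpa using hx)
        have h2 : ind U x = 0 := by simp [ind, hx]
        rw [h2]
        refine tendsto_const_nhds.congr (fun k => ?_)
        show (0 : ℝ) = min 1 ((k : ℝ) * Metric.infDist x Uᶜ)
        rw [h0, mul_zero]; simp
  · rw [not_nonempty_iff_eq_empty, compl_empty_iff] at hne
    have : ind U = fun _ => 1 := by rw [hne]; funext x; simp [ind]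
    rw [this]; exact BLim.one

lemma blim_cind {U : Set I} (hU : IsOpen U) : BLim (cind U) := (blim_ind hU).compl

section process

variable {Ω : Type*} [mΩ : MeasurableSpace Ω] {P : Measure Ω}
  {Λ : Measure ℝ} {ρ : ℝ≥0 → Ω → ProbabilityMeasure I}
  [IsProbabilityMeasure P] [IsFiniteMeasure Λ] {𝓕 : Filtration ℝ≥0 mΩ}

/-- mass of a set -/
noncomputable def XX (ρ : ℝ≥0 → Ω → ProbabilityMeasure I) (U : Set I) (t : ℝ≥0) (ω : Ω) : ℝ :=
  mass ρ (ind U) t ω

lemma XX_mem {U : Set I} (hU : IsOpen U) (t : ℝ≥0) (ω : Ω) :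
    0 ≤ XX ρ U t ω ∧ XX ρ U t ω ≤ 1 := mass_mem (blim_ind hU) t ω

lemma mass_cind {U : Set I} (hU : IsOpen U) (t : ℝ≥0) (ω : Ω) :
    mass ρ (cind U) t ω = 1 - XX ρ U t ω := by
  unfold mass XX cind mass
  rw [integral_sub (integrable_const 1)
    (integrable_of_bdd (blim_ind hU).measurable (blim_ind hU).abs_le)]
  simp

lemma mass_cind_union {U V : Set I} (hU : IsOpen U) (hV : IsOpen V) (hUV : Disjoint U V)
    (t : ℝ≥0) (ω : Ω) : mass ρ (cind (U ∪ V)) t ω = 1 - XX ρ U t ω - XX ρ V t ω := by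
  rw [mass_cind (hU.union hV)]
  have h1 : XX ρ (U ∪ V) t ω = XX ρ U t ω + XX ρ V t ω := by
    unfold XX mass
    rw [← integral_add (integrable_of_bdd (blim_ind hU).measurable (blim_ind hU).abs_le)
      (integrable_of_bdd (blim_ind hV).measurable (blim_ind hV).abs_le)]
    refine integral_congr_ae (Eventually.of_forall (fun x => ?_))
    unfold ind
    rw [Set.indicator_union_of_disjoint hUV]
  rw [h1]; ring

lemma XX_add_le {U V : Set I} (hU : IsOpen U) (hV : IsOpen V) (hUV : Disjoint U V)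
    (t : ℝ≥0) (ω : Ω) : XX ρ U t ω + XX ρ V t ω ≤ 1 := by
  have h1 := (mass_mem (ρ := ρ) (blim_cind (hU.union hV)) t ω).1
  rw [mass_cind_union hU hV hUV] at h1
  linarith

lemma FVF.XX_meas (h : FVF Λ P ρ 𝓕) {U : Set I} (hU : IsOpen U) (t : ℝ≥0) :
    Measurable[𝓕 t] (XX ρ U t) := h.mass_meas (blim_ind hU) t

lemma FVF.XX_meas' (h : FVF Λ P ρ 𝓕) {U : Set I} (hU : IsOpen U) (t : ℝ≥0) :
    Measurable (XX ρ U t) := h.mass_meas' (blim_ind hU) t

lemma FVF.dual_le (h : FVF Λ P ρ 𝓕) {s : ℝ≥0} {G : Set Ω} (hG : MeasurableSet[𝓕 s] G)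
    {φ : I → ℝ} (hφ : BLim φ) (hφ2 : ∀ x, φ x * φ x = φ x) {g : ℕ → ℝ} {n : ℕ}
    (h0 : ∀ m ≤ n, g m ≤ yy P ρ φ s G m 0) {t : ℝ} (ht : 0 ≤ t) :
    S (rate Λ) g n t ≤ yy P ρ φ s G n t :=
  S_le (N := n) rate_hr (fun m t => yy P ρ φ s G m t)
    (fun m t => Q (rate Λ) (fun j => yy P ρ φ s G j t) m)
    (fun m _ => h.yy_continuousOn hG hφ hφ2 m) (fun m _ t ht => h.yy_hasDerivAt hG hφ hφ2 m ht)
    (fun m _ t _ => le_rfl) h0 n le_rfl t ht

lemma FVF.le_dual (h : FVF Λ P ρ 𝓕) {s : ℝ≥0} {G : Set Ω} (hG : MeasurableSet[𝓕 s] G)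
    {φ : I → ℝ} (hφ : BLim φ) (hφ2 : ∀ x, φ x * φ x = φ x) {g : ℕ → ℝ} {n : ℕ}
    (h0 : ∀ m ≤ n, yy P ρ φ s G m 0 ≤ g m) {t : ℝ} (ht : 0 ≤ t) :
    yy P ρ φ s G n t ≤ S (rate Λ) g n t :=
  le_S (N := n) rate_hr (fun m t => yy P ρ φ s G m t)
    (fun m t => Q (rate Λ) (fun j => yy P ρ φ s G j t) m)
    (fun m _ => h.yy_continuousOn hG hφ hφ2 m) (fun m _ t ht => h.yy_hasDerivAt hG hφ hφ2 m ht)
    (fun m _ t _ => le_rfl) h0 n le_rfl t ht

lemma FVF.dual_diff (h : FVF Λ P ρ 𝓕) {s : ℝ≥0} {G : Set Ω} (hG : MeasurableSet[𝓕 s] G)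
    {φ φ' : I → ℝ} (hφ : BLim φ) (hφ2 : ∀ x, φ x * φ x = φ x) (hφ' : BLim φ')
    (hφ2' : ∀ x, φ' x * φ' x = φ' x) {g : ℕ → ℝ} {n : ℕ}
    (h0 : ∀ m ≤ n, g m ≤ yy P ρ φ s G m 0 - yy P ρ φ' s G m 0) {t : ℝ} (ht : 0 ≤ t) :
    S (rate Λ) g n t ≤ yy P ρ φ s G n t - yy P ρ φ' s G n t := by
  refine S_le (N := n) rate_hr (fun m t => yy P ρ φ s G m t - yy P ρ φ' s G m t)
    (fun m t => Q (rate Λ) (fun j => yy P ρ φ s G j t) m
      - Q (rate Λ) (fun j => yy P ρ φ' s G j t) m)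
    (fun m _ => (h.yy_continuousOn hG hφ hφ2 m).sub (h.yy_continuousOn hG hφ' hφ2' m))
    (fun m _ t ht => (h.yy_hasDerivAt hG hφ hφ2 m ht).sub (h.yy_hasDerivAt hG hφ' hφ2' m ht))
    (fun m _ t _ => ?_) h0 n le_rfl t ht
  unfold Q
  rw [← Finset.sum_sub_distrib]
  exact le_of_eq (Finset.sum_congr rfl (fun j _ => by ring))

lemma FVF.tendsto_yy (h : FVF Λ P ρ 𝓕) {s : ℝ≥0} {G : Set Ω} (hG : MeasurableSet[𝓕 s] G)
    {φ : I → ℝ} (hφ : BLim φ) (t : ℝ) :
    Tendsto (fun n => yy P ρ φ s G n t) atTop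
      (𝓝 (P.real (G ∩ {ω | mass ρ φ (s + t.toNNReal) ω = 1}))) := by
  have hm := h.mass_meas' hφ (s + t.toNNReal)
  have hset : MeasurableSet {ω | mass ρ φ (s + t.toNNReal) ω = 1} := hm (measurableSet_singleton 1)
  have h1 : P.real (G ∩ {ω | mass ρ φ (s + t.toNNReal) ω = 1})
      = ∫ ω in G, ({ω | mass ρ φ (s + t.toNNReal) ω = 1}.indicator (fun _ => (1 : ℝ))) ω ∂P := by
    rw [integral_indicator_const (1 : ℝ) hset, smul_eq_mul, mul_one,
      measureReal_restrict_apply hset, inter_comm]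
  rw [h1]
  refine tendsto_integral_of_dominated_convergence (fun _ => 1)
    (fun n => (h.mass_pow_integrable hφ _ n G).aestronglyMeasurable) (integrable_const _)
    (fun n => Eventually.of_forall (fun ω => ?_)) (Eventually.of_forall (fun ω => ?_))
  · rw [Real.norm_eq_abs, abs_of_nonneg (pow_nonneg (mass_mem hφ _ ω).1 n)]
    exact pow_le_one₀ (mass_mem hφ _ ω).1 (mass_mem hφ _ ω).2
  · by_cases hω : mass ρ φ (s + t.toNNReal) ω = 1
    · simp [hω]
    · have h2 := mass_mem (ρ := ρ) hφ (s + t.toNNReal) ω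
      simp only [indicator, mem_ofPred_eq, hω, if_false]
      exact tendsto_pow_atTop_nhds_zero_of_lt_one h2.1 (lt_of_le_of_ne h2.2 hω)

lemma yy_zero (s : ℝ≥0) (G : Set Ω) (φ : I → ℝ) (n : ℕ) :
    yy P ρ φ s G n 0 = ∫ ω in G, mass ρ φ s ω ^ n ∂P := by
  unfold yy; rw [Real.toNNReal_zero, add_zero]

/-- the constants -/
noncomputable def w0 : ℝ := Real.exp (-(2 * Real.exp 2)) * (1 - Real.exp (-(Real.exp (-3) / 2)))

lemma w0_pos : 0 < w0 := by
  unfold w0
  have h1 : Real.exp (-(Real.exp (-3) / 2)) < 1 := by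
    rw [Real.exp_lt_one_iff]; have := Real.exp_pos (-3); linarith
  have h2 := Real.exp_pos (-(2 * Real.exp 2))
  exact mul_pos h2 (by linarith)

lemma w0_le {x y ε : ℝ} (hx : 0 ≤ x) (hxy : x ≤ y) (hy : ε / 2 < y) (hyε : y ≤ ε) (hε : 0 < ε)
    (hε2 : ε ≤ 1 / 2) {m : ℕ} (h1 : Real.exp (-3) / ε ≤ m) (h2 : (m : ℝ) ≤ Real.exp 2 / ε) :
    w0 ≤ (1 - x) ^ m - (1 - x - y) ^ m := by
  have hm1 : Real.exp (-3) ≤ m * ε := (div_le_iff₀ hε).1 h1
  have hm2 : m * ε ≤ Real.exp 2 := (le_div_iff₀ hε).1 h2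
  have hm0 : (0 : ℝ) ≤ m := Nat.cast_nonneg m
  -- lower bound of (1-x)^m
  have ha : Real.exp (-(2 * x)) ≤ 1 - x := by
    have h3 : 1 ≤ Real.exp (2 * x) * (1 - x) := by
      have h4 := Real.add_one_le_exp (2 * x)
      have h5 : 0 ≤ 1 - x := by linarith
      nlinarith
    rw [Real.exp_neg, inv_eq_one_div, div_le_iff₀ (Real.exp_pos _)]
    linarith
  have hb : Real.exp (-(2 * Real.exp 2)) ≤ (1 - x) ^ m := by
    have h3 : Real.exp (-(2 * x)) ^ m ≤ (1 - x) ^ m := pow_le_pow_left₀ (Real.exp_pos _).le ha m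
    rw [← Real.exp_nat_mul] at h3
    refine le_trans (Real.exp_le_exp.2 ?_) h3
    have : (m : ℝ) * x ≤ m * ε := mul_le_mul_of_nonneg_left (by linarith) hm0
    linarith
  have hc : (1 - y) ^ m ≤ Real.exp (-(Real.exp (-3) / 2)) := by
    have h3 : 1 - y ≤ Real.exp (-y) := by have := Real.add_one_le_exp (-y); linarith
    have h4 : (1 - y) ^ m ≤ Real.exp (-y) ^ m := pow_le_pow_left₀ (by linarith) h3 m
    rw [← Real.exp_nat_mul] at h4
    refine h4.trans (Real.exp_le_exp.2 ?_)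
    have : (m : ℝ) * (ε / 2) ≤ m * y := mul_le_mul_of_nonneg_left hy.le hm0
    linarith
  have hd : (1 - x - y) ^ m ≤ (1 - x) ^ m * (1 - y) ^ m := by
    rw [← mul_pow]
    refine pow_le_pow_left₀ (by linarith) ?_ m
    nlinarith [mul_nonneg hx (by linarith : (0 : ℝ) ≤ y)]
  have he : Real.exp (-(Real.exp (-3) / 2)) ≤ 1 := by
    rw [Real.exp_le_one_iff]; have := Real.exp_pos (-3); linarith
  unfold w0
  calc Real.exp (-(2 * Real.exp 2)) * (1 - Real.exp (-(Real.exp (-3) / 2)))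
      ≤ (1 - x) ^ m * (1 - Real.exp (-(Real.exp (-3) / 2))) :=
        mul_le_mul_of_nonneg_right hb (by linarith)
    _ ≤ (1 - x) ^ m * (1 - (1 - y) ^ m) := by
        refine mul_le_mul_of_nonneg_left (by linarith) (pow_nonneg (by linarith) m)
    _ ≤ _ := by linarith

/-- key inequality: with probability bounded from below exactly one of two small types dies. -/
theorem key (hD : Down Λ) : ∃ ε0, 0 < ε0 ∧ ∀ ε, 0 < ε → ε ≤ ε0 → ∃ t : ℝ≥0,
    ∀ {Ω : Type*} [mΩ : MeasurableSpace Ω] {P : Measure Ω} [IsProbabilityMeasure P]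
    {ρ : ℝ≥0 → Ω → ProbabilityMeasure I} {𝓕 : Filtration ℝ≥0 mΩ} (_ : FVF Λ P ρ 𝓕)
    {U V : Set I} (_ : IsOpen U) (_ : IsOpen V) (_ : Disjoint U V) (s : ℝ≥0) (G : Set Ω)
    (_ : MeasurableSet[𝓕 s] G)
    (_ : ∀ ω ∈ G, XX ρ U s ω ≤ XX ρ V s ω ∧ ε / 2 < XX ρ V s ω ∧ XX ρ V s ω ≤ ε),
    (1 / 6) * w0 * P.real G ≤ P.real (G ∩ {ω | XX ρ U (s + t) ω = 0 ∧ 0 < XX ρ V (s + t) ω}) := by
  obtain ⟨ε0, h0, h02, hall⟩ := good_time hD
  refine ⟨ε0, h0, fun ε hε hεε => ?_⟩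
  obtain ⟨t, ht, n0, hn0⟩ := hall ε hε hεε
  refine ⟨⟨t, ht.le⟩, ?_⟩
  intro Ω mΩ P _ ρ 𝓕 h U V hU hV hUV s G hG hsub
  have hGm : MeasurableSet G := 𝓕.le s G hG
  set φ := cind U with hφd
  set φ' := cind (U ∪ V) with hφd'
  have hφ := blim_cind hU
  have hφ' := blim_cind (hU.union hV)
  set g : ℕ → ℝ := fun m => yy P ρ φ s G m 0 - yy P ρ φ' s G m 0 with hg
  have hgeq : ∀ m, g m = ∫ ω in G, ((1 - XX ρ U s ω) ^ m - (1 - XX ρ U s ω - XX ρ V s ω) ^ m) ∂P := by
    intro m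
    simp only [hg]
    rw [yy_zero, yy_zero, ← integral_sub (h.mass_pow_integrable hφ _ _ G)
      (h.mass_pow_integrable hφ' _ _ G)]
    refine integral_congr_ae (Eventually.of_forall (fun ω => ?_))
    simp only
    rw [mass_cind hU, mass_cind_union hU hV hUV]
  have hint : ∀ m : ℕ, Integrable (fun ω => (1 - XX ρ U s ω) ^ m
      - (1 - XX ρ U s ω - XX ρ V s ω) ^ m) (P.restrict G) := by
    intro m
    have h1 := (h.mass_pow_integrable hφ s m G).sub (h.mass_pow_integrable hφ' s m G)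
    refine h1.congr (Eventually.of_forall (fun ω => ?_))
    simp only [Pi.sub_apply]
    rw [mass_cind hU, mass_cind_union hU hV hUV]
  have hg0 : ∀ m, 0 ≤ g m := by
    intro m
    rw [hgeq]
    refine integral_nonneg (fun ω => ?_)
    have h1 := (XX_mem (ρ := ρ) hV s ω).1
    have h2 := XX_add_le (ρ := ρ) hU hV hUV s ω
    have h3 : (1 - XX ρ U s ω - XX ρ V s ω) ^ m ≤ (1 - XX ρ U s ω) ^ m :=
      pow_le_pow_left₀ (by linarith) (by linarith) m
    simp only [Pi.zero_apply]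
    linarith
  have hgw : ∀ m : ℕ, Real.exp (-3) / ε ≤ m → (m : ℝ) ≤ Real.exp 2 / ε →
      w0 * P.real G ≤ g m := by
    intro m hm1 hm2
    rw [hgeq]
    have h1 : w0 * P.real G = ∫ _ω in G, w0 ∂P := by
      rw [setIntegral_const, smul_eq_mul, mul_comm]
    rw [h1]
    refine setIntegral_mono_on (integrable_const _) (hint m) hGm (fun ω hω => ?_)
    obtain ⟨h2, h3, h4⟩ := hsub ω hω
    exact w0_le (XX_mem hU s ω).1 h2 h3 h4 hε (hεε.trans h02) hm1 hm2
  have hw : 0 ≤ w0 * P.real G := mul_nonneg w0_pos.le measureReal_nonneg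
  have hfin : ∀ n, n0 ≤ n → (1 / 6) * (w0 * P.real G)
      ≤ yy P ρ φ s G n t - yy P ρ φ' s G n t := by
    intro n hn
    refine (hn0 n hn g hg0 _ hw hgw).trans ?_
    exact h.dual_diff hG hφ (cind_sq U) hφ' (cind_sq _) (fun m _ => le_rfl) ht.le
  have hlim := (h.tendsto_yy hG hφ t).sub (h.tendsto_yy hG hφ' t)
  have h1 := ge_of_tendsto hlim (eventually_atTop.2 ⟨n0, hfin⟩)
  have ht' : t.toNNReal = ⟨t, ht.le⟩ := Real.toNNReal_of_nonneg ht.le
  rw [ht'] at h1
  set r : ℝ≥0 := s + ⟨t, ht.le⟩ with hr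
  have e1 : {ω | mass ρ φ r ω = 1} = {ω | XX ρ U r ω = 0} := by
    ext ω
    simp only [mem_ofPred_eq]
    rw [mass_cind hU]
    constructor <;> intro h <;> linarith
  have e2 : {ω | mass ρ φ' r ω = 1} = {ω | XX ρ U r ω + XX ρ V r ω = 0} := by
    ext ω
    simp only [mem_ofPred_eq]
    rw [mass_cind_union hU hV hUV]
    constructor <;> intro h <;> linarith
  rw [e1, e2] at h1
  have h2 : P.real (G ∩ {ω | XX ρ U r ω = 0})
      ≤ P.real (G ∩ {ω | XX ρ U r ω = 0 ∧ 0 < XX ρ V r ω})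
        + P.real (G ∩ {ω | XX ρ U r ω + XX ρ V r ω = 0}) := by
    refine le_trans (measureReal_mono ?_) (measureReal_union_le _ _)
    rintro ω ⟨hω1, hω2⟩
    have h3 := (XX_mem (ρ := ρ) hV r ω).1
    rcases eq_or_lt_of_le h3 with h4 | h4
    · exact Or.inr ⟨hω1, by simp only [mem_ofPred_eq] at hω2 ⊢; linarith⟩
    · exact Or.inl ⟨hω1, hω2, h4⟩
  linarith

/-- no jump to zero -/
theorem FVF.nj (h : FVF Λ P ρ 𝓕) {η : ℝ} (hη1 : η < 1) {κ t : ℝ} (ht : 0 < t) {n : ℕ}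
    (hn : S (rate Λ) (fun m => (1 - η) ^ m) n t ≤ κ * t)
    {U : Set I} (hU : IsOpen U) {s : ℝ≥0} {G : Set Ω} (hG : MeasurableSet[𝓕 s] G)
    (hsub : ∀ ω ∈ G, η ≤ XX ρ U s ω) :
    P.real (G ∩ {ω | XX ρ U (s + t.toNNReal) ω = 0}) ≤ κ * t * P.real G := by
  have hGm : MeasurableSet G := 𝓕.le s G hG
  have hφ := blim_cind hU
  have h1 : yy P ρ (cind U) s G n t ≤ S (rate Λ) (fun m => P.real G * (1 - η) ^ m) n t := by
    refine h.le_dual hG hφ (cind_sq U) (fun m _ => ?_) ht.le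
    rw [yy_zero]
    have h2 : P.real G * (1 - η) ^ m = ∫ _ω in G, (1 - η) ^ m ∂P := by
      rw [setIntegral_const, smul_eq_mul]
    rw [h2]
    refine setIntegral_mono_on (h.mass_pow_integrable hφ _ _ G) (integrable_const _) hGm
      (fun ω hω => ?_)
    rw [mass_cind hU]
    exact pow_le_pow_left₀ (by linarith [(XX_mem (ρ := ρ) hU s ω).2]) (by linarith [hsub ω hω]) m
  rw [S_smul rate_hr _ _ n ht.le] at h1
  have h3 : P.real (G ∩ {ω | XX ρ U (s + t.toNNReal) ω = 0}) ≤ yy P ρ (cind U) s G n t := by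
    have hset : MeasurableSet {ω | XX ρ U (s + t.toNNReal) ω = 0} :=
      (h.XX_meas' hU _) (measurableSet_singleton 0)
    have h4 : P.real (G ∩ {ω | XX ρ U (s + t.toNNReal) ω = 0})
        = ∫ ω in G, ({ω | XX ρ U (s + t.toNNReal) ω = 0}.indicator (fun _ => (1 : ℝ))) ω ∂P := by
      rw [integral_indicator_const (1 : ℝ) hset, smul_eq_mul, mul_one,
        measureReal_restrict_apply hset, inter_comm]
    rw [h4]
    unfold yy
    refine integral_mono ((integrable_const (1 : ℝ)).indicator hset)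
      (h.mass_pow_integrable hφ _ _ G) (fun ω => ?_)
    simp only [indicator, mem_ofPred_eq]
    rw [mass_cind hU]
    split_ifs with h5
    · rw [h5]; simp
    · exact pow_nonneg (by linarith [(XX_mem (ρ := ρ) hU (s + t.toNNReal) ω).2]) n
  have h5 : 0 ≤ P.real G := measureReal_nonneg
  nlinarith

/-- small types die -/
theorem FVF.die (h : FVF Λ P ρ 𝓕) {x κ t : ℝ} (ht : 0 ≤ t) (hx1 : x < 1)
    (hx : ∀ n, 1 - κ ≤ S (rate Λ) (fun m => (1 - x) ^ m) n t)
    {U : Set I} (hU : IsOpen U) {s : ℝ≥0} {G : Set Ω} (hG : MeasurableSet[𝓕 s] G)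
    (hsub : ∀ ω ∈ G, XX ρ U s ω ≤ x) :
    (1 - κ) * P.real G ≤ P.real (G ∩ {ω | XX ρ U (s + t.toNNReal) ω = 0}) := by
  have hGm : MeasurableSet G := 𝓕.le s G hG
  have hφ := blim_cind hU
  have h1 : ∀ n, P.real G * (1 - κ) ≤ yy P ρ (cind U) s G n t := by
    intro n
    have h2 : S (rate Λ) (fun m => P.real G * (1 - x) ^ m) n t ≤ yy P ρ (cind U) s G n t := by
      refine h.dual_le hG hφ (cind_sq U) (fun m _ => ?_) ht
      rw [yy_zero]
      have h2 : P.real G * (1 - x) ^ m = ∫ _ω in G, (1 - x) ^ m ∂P := by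
        rw [setIntegral_const, smul_eq_mul]
      rw [h2]
      refine setIntegral_mono_on (integrable_const _) (h.mass_pow_integrable hφ _ _ G) hGm
        (fun ω hω => ?_)
      rw [mass_cind hU]
      exact pow_le_pow_left₀ (by linarith) (by linarith [hsub ω hω]) m
    rw [S_smul rate_hr _ _ n ht] at h2
    have h5 : 0 ≤ P.real G := measureReal_nonneg
    have := hx n
    nlinarith
  have h2 := ge_of_tendsto' (h.tendsto_yy hG hφ t) h1
  have e1 : {ω | mass ρ (cind U) (s + t.toNNReal) ω = 1} = {ω | XX ρ U (s + t.toNNReal) ω = 0} := by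
    ext ω
    simp only [mem_ofPred_eq]
    rw [mass_cind hU]
    constructor <;> intro h <;> linarith
  rw [e1] at h2
  linarith

/-- fixation -/
theorem FVF.decay (h : FVF Λ P ρ 𝓕) (hΛ : 0 < rate Λ 2 1) {U : Set I} (hU : IsOpen U) (t : ℝ≥0) :
    ∫ ω, XX ρ U t ω * (1 - XX ρ U t ω) ∂P ≤ Real.exp (-(rate Λ 2 1 * t)) := by
  have hφ := blim_cind hU
  set lam := rate Λ 2 1 with hlam
  set y1 : ℝ → ℝ := yy P ρ (cind U) 0 univ 1 with hy1
  set y2 : ℝ → ℝ := yy P ρ (cind U) 0 univ 2 with hy2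
  have hG : MeasurableSet[𝓕 (0 : ℝ≥0)] (univ : Set Ω) := MeasurableSet.univ
  have hE : ∀ s, HasDerivAt (fun t => Real.exp (lam * t)) (Real.exp (lam * s) * (lam * 1)) s :=
    fun s => (((hasDerivAt_id s).const_mul lam)).exp
  have hanti : AntitoneOn (fun t => Real.exp (lam * t) * (y1 t - y2 t)) (Ici 0) := by
    have hd : ∀ s, 0 < s → HasDerivAt (fun t => Real.exp (lam * t) * (y1 t - y2 t)) 0 s := by
      intro s hs
      have h1 := h.yy_hasDerivAt hG hφ (cind_sq U) 1 hs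
      have h2 := h.yy_hasDerivAt hG hφ (cind_sq U) 2 hs
      have h3 := (hE s).mul (h1.sub h2)
      refine h3.congr_deriv ?_
      simp only [Q, Finset.sum_range_succ, Finset.sum_range_zero, rate_zero, zero_mul, zero_add,
        Pi.sub_apply]
      rw [← hlam]
      ring
    refine antitoneOn_of_deriv_nonpos (convex_Ici 0) ?_ ?_ ?_
    · exact (by fun_prop : Continuous (fun t : ℝ => Real.exp (lam * t))).continuousOn.mul
        ((h.yy_continuousOn hG hφ (cind_sq U) 1).sub (h.yy_continuousOn hG hφ (cind_sq U) 2))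
    · intro s hs
      rw [interior_Ici] at hs
      exact (hd s hs).differentiableAt.differentiableWithinAt
    · intro s hs
      rw [interior_Ici] at hs
      rw [(hd s hs).deriv]
  have h1 := hanti (mem_Ici.2 le_rfl) (mem_Ici.2 t.2) t.2
  simp only [mul_zero, Real.exp_zero, one_mul] at h1
  have h2 : y1 0 - y2 0 ≤ 1 := by
    have h3 := yy_abs (P := P) (ρ := ρ) (s := 0) (G := univ) hφ 1 0
    have h4 : 0 ≤ y2 0 := by
      rw [hy2]; unfold yy
      exact integral_nonneg (fun ω => pow_nonneg (mass_mem hφ _ ω).1 2)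
    have h5 := (abs_le.1 h3).2
    linarith
  have h3 : ∫ ω, XX ρ U t ω * (1 - XX ρ U t ω) ∂P = y1 t - y2 t := by
    rw [hy1, hy2]; unfold yy
    rw [← integral_sub (h.mass_pow_integrable hφ _ _ _) (h.mass_pow_integrable hφ _ _ _),
      Measure.restrict_univ]
    refine integral_congr_ae (Eventually.of_forall (fun ω => ?_))
    simp only [Real.toNNReal_coe, zero_add]
    rw [mass_cind hU]; ring
  rw [h3, Real.exp_neg, inv_eq_one_div, le_div_iff₀ (Real.exp_pos _), mul_comm]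
  exact h1.trans h2

end process

end Pool.Agent.H971.EX
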