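import Pool.Agent.H971.EX.NoJump
import Pool.Agent.H971.FV.Forward

/-! The generator of the Fleming-Viot process with Kingman part (helper file). -/

open MeasureTheory ProbabilityTheory Filter Topology Set Pool.Agent.H971.FV
open scoped ENNReal NNReal unitInterval

namespace Pool.Agent.H971.EX

/-- Kingman part of the generator on product test functions -/
noncomputable def kgen {n : ℕ} (f : Fin n → I → ℝ) (μ : Measure I) : ℝ :=
  ∑ S ∈ (Finset.univ : Finset (Fin n)).powersetCard 2, KS f μ S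

/-- The full generator. -/
noncomputable def genT (Λ : Measure ℝ) {n : ℕ} (f : Fin n → I → ℝ) (μ : Measure I) : ℝ :=
  gen' Λ f μ + Λ.real {0} * kgen f μ

/-- uniform bound -/
noncomputable def genTBound (Λ : Measure ℝ) (n : ℕ) : ℝ :=
  genBound Λ n + Λ.real {0} * (n.choose 2)

lemma WM.genT {X : Type*} [MeasurableSpace X] {r : X → ProbabilityMeasure I} (hr : WM r) {n : ℕ}
    {Λ : Measure ℝ} [IsFiniteMeasure Λ]
    {f : Fin n → I → ℝ} (h : ∀ i, BLim (f i)) :
    Measurable (fun p => EX.genT Λ f (r p : Measure I)) := by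
  unfold EX.genT kgen
  exact (hr.gen' h).add ((Finset.measurable_sum _ (fun S _ => hr.KS h S)).const_mul _)

lemma kgen_abs {n : ℕ} {f : Fin n → I → ℝ} (h : ∀ i, BLim (f i)) (μ : Measure I)
    [IsProbabilityMeasure μ] : |kgen f μ| ≤ n.choose 2 := by
  unfold kgen
  refine (Finset.abs_sum_le_sum_abs _ _).trans ((Finset.sum_le_sum (fun S _ =>
    KS_abs h μ S)).trans ?_)
  rw [Finset.sum_const, Finset.card_powersetCard, Finset.card_univ, Fintype.card_fin]
  simp

lemma genT_abs {Λ : Measure ℝ} [IsFiniteMeasure Λ] {n : ℕ} {f : Fin n → I → ℝ}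
    (h : ∀ i, BLim (f i)) (μ : Measure I) [IsProbabilityMeasure μ] :
    |genT Λ f μ| ≤ genTBound Λ n := by
  unfold genT genTBound
  refine (abs_add_le _ _).trans (add_le_add (gen'_abs h μ) ?_)
  rw [abs_mul, abs_of_nonneg measureReal_nonneg]
  exact mul_le_mul_of_nonneg_left (kgen_abs h μ) measureReal_nonneg

lemma tendsto_genT {n : ℕ} {F : Fin n → ℕ → C(I, ℝ)} {f : Fin n → I → ℝ}
    {Λ : Measure ℝ} [IsFiniteMeasure Λ] (h1 : ∀ i k x, 0 ≤ F i k x ∧ F i k x ≤ 1)
    (hF : ∀ i x, Tendsto (fun k => F i k x) atTop (𝓝 (f i x))) (μ : Measure I)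
    [IsProbabilityMeasure μ] :
    Tendsto (fun k => genT Λ (fun i => ⇑(F i k)) μ) atTop (𝓝 (genT Λ f μ)) := by
  unfold genT kgen
  exact (tendsto_gen' h1 hF μ).add
    ((tendsto_finsetSum _ (fun S _ => tendsto_KS h1 hF μ S)).const_mul _)

section alg

variable {Λ : Measure ℝ} [IsFiniteMeasure Λ]

lemma KS_pow {φ : I → ℝ} (hφ2 : ∀ x, φ x * φ x = φ x) (n : ℕ) (μ : Measure I)
    (S : Finset (Fin n)) (hS : 2 ≤ S.card) :
    KS (fun _ : Fin n => φ) μ S
      = (∫ y, φ y ∂μ) ^ (n - S.card + 1) - (∫ y, φ y ∂μ) ^ n := by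
  set X := ∫ y, φ y ∂μ with hX
  have hpow : ∀ (m : ℕ) (x : I), φ x ^ (m + 1) = φ x := by
    intro m x
    induction m with
    | zero => simp
    | succ m ih => rw [pow_succ, ih, hφ2]
  unfold KS mom
  rw [Finset.prod_const, Finset.prod_const, Finset.card_univ, Fintype.card_fin,
    Finset.card_sdiff_of_subset (Finset.subset_univ S), Finset.card_univ, Fintype.card_fin]
  have h1 : ∫ x, ∏ _i ∈ S, φ x ∂μ = X := by
    rw [hX]
    refine integral_congr_ae (Eventually.of_forall (fun x => ?_))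
    simp only [Finset.prod_const]
    obtain ⟨m, hm⟩ : ∃ m, S.card = m + 1 := ⟨S.card - 1, by omega⟩
    rw [hm, hpow]
  rw [h1, pow_succ]; ring

lemma kgen_pow {φ : I → ℝ} (hφ2 : ∀ x, φ x * φ x = φ x) (n : ℕ) (μ : Measure I) :
    kgen (fun _ : Fin n => φ) μ = Q kr (fun j => (∫ y, φ y ∂μ) ^ j) n := by
  rw [Q_kr]
  unfold kgen
  have h1 : ∀ S ∈ (Finset.univ : Finset (Fin n)).powersetCard 2,
      KS (fun _ : Fin n => φ) μ S
        = (∫ y, φ y ∂μ) ^ (n - 1) - (∫ y, φ y ∂μ) ^ n := by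
    intro S hS
    have hc := (Finset.mem_powersetCard.1 hS).2
    have hn : 2 ≤ n := by
      have := Finset.card_le_univ S
      rw [Fintype.card_fin] at this
      omega
    rw [KS_pow hφ2 n μ S hc.ge, hc]
    congr 2
    omega
  rw [Finset.sum_congr rfl h1, Finset.sum_const, Finset.card_powersetCard, Finset.card_univ,
    Fintype.card_fin, nsmul_eq_mul]

end alg

end Pool.Agent.H971.EX
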