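import Pool.Agent.H971.EX.Times

/-! The block counting process and coming down from infinity (helper file). -/

open MeasureTheory Filter Topology Set Pool.Agent.H971.FV
open scoped ENNReal NNReal

namespace Pool.Agent.H971.EX

/-- The rate `λ_{b,k}` at which each given group of `k` among `b` blocks merges. -/
noncomputable def mergerRate (Λ : Measure ℝ) (b k : ℕ) : ℝ :=
  ∫ u in Icc 0 1, u ^ (k - 2) * (1 - u) ^ (b - k) ∂Λ

/-- `p n m t` is the probability that the `Λ`-coalescent started from `n` blocks has `m` blocks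
at time `t`: the number of blocks jumps from `n` to `n - k + 1` at rate
`(n choose k) * λ_{n,k}`, and `p` solves the Kolmogorov backward equations of this Markov chain. -/
structure IsBlockLaw (Λ : Measure ℝ) (p : ℕ → ℕ → ℝ → ℝ) : Prop where
  /-- initial value -/
  init : ∀ n m, p n m 0 = if n = m then 1 else 0
  /-- backward equation -/
  deriv : ∀ n m t, 0 ≤ t → HasDerivWithinAt (p n m)
    (∑ k ∈ Finset.Icc 2 n, (n.choose k : ℝ) * mergerRate Λ n k * (p (n - k + 1) m t - p n m t))
    (Ici 0) t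

/-- The `Λ`-coalescent comes down from infinity: for every `t > 0` the number of blocks at time
`t` of the coalescent started from `n` blocks is tight in `n`. -/
def ComesDown (Λ : Measure ℝ) : Prop :=
  ∃ p, IsBlockLaw Λ p ∧ ∀ t, 0 < t → ∀ κ : ℝ, 0 < κ → ∃ m : ℕ, ∀ n,
    1 - κ ≤ ∑ i ∈ Finset.range (m + 1), p n i t

variable {Λ : Measure ℝ} [IsFiniteMeasure Λ]

lemma integral_nu_eq (g : ℝ → ℝ) : ∫ u, g u ∂(nu Λ) = ∫ u in Ioc (0 : ℝ) 1, (u ^ 2)⁻¹ * g u ∂Λ := by
  unfold nu
  rw [integral_withDensity_eq_integral_toReal_smul (by fun_prop)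
    (Eventually.of_forall (fun _ => ENNReal.ofReal_lt_top))]
  refine setIntegral_congr_fun measurableSet_Ioc (fun u hu => ?_)
  simp only [smul_eq_mul]
  rw [ENNReal.toReal_ofReal (inv_nonneg.2 (sq_nonneg u))]

lemma rate_eq {b k : ℕ} (hk : 2 ≤ k) (hkb : k ≤ b) :
    rate Λ b (b - k + 1) = (b.choose k : ℝ) * mergerRate Λ b k := by
  have h1 : rateJ Λ b (b - k + 1)
      = (b.choose k : ℝ) * ∫ u in Ioc (0 : ℝ) 1, u ^ (k - 2) * (1 - u) ^ (b - k) ∂Λ := by
    unfold rateJ
    rw [integral_nu_eq, ← integral_const_mul]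
    refine setIntegral_congr_fun measurableSet_Ioc (fun u hu => ?_)
    simp only [ru_succ]
    have e1 : b - (b - k) = (k - 2) + 2 := by omega
    have e2 : b.choose (b - k) = b.choose k := Nat.choose_symm hkb
    have hu0 : u ≠ 0 := hu.1.ne'
    rw [e1, e2, pow_add]
    field_simp
  have h2 : mergerRate Λ b k = (∫ u in Ioc (0 : ℝ) 1, u ^ (k - 2) * (1 - u) ^ (b - k) ∂Λ)
      + Λ.real {0} * (if k = 2 then 1 else 0) := by
    unfold mergerRate
    have hint : ∀ s : Set ℝ, s ⊆ Icc 0 1 → MeasurableSet s →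
        IntegrableOn (fun u : ℝ => u ^ (k - 2) * (1 - u) ^ (b - k)) s Λ := by
      intro s hs hsm
      refine Integrable.of_bound (C := 1) (by fun_prop) ?_
      rw [ae_restrict_iff' hsm]
      refine Eventually.of_forall (fun u hu => ?_)
      have h3 := hs hu
      have h4 : 0 ≤ 1 - u := by linarith [h3.2]
      rw [norm_mul, norm_pow, norm_pow, Real.norm_eq_abs, Real.norm_eq_abs,
        abs_of_nonneg h3.1, abs_of_nonneg h4]
      exact mul_le_one₀ (pow_le_one₀ h3.1 h3.2) (pow_nonneg h4 _)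
        (pow_le_one₀ h4 (by linarith [h3.1]))
    have h5 : Icc (0 : ℝ) 1 = {0} ∪ Ioc 0 1 := by
      ext u; simp only [mem_Icc, mem_union, mem_singleton_iff, mem_Ioc]
      constructor
      · rintro ⟨ha, hb⟩
        rcases eq_or_lt_of_le ha with h | h
        · exact Or.inl h.symm
        · exact Or.inr ⟨h, hb⟩
      · rintro (rfl | ⟨ha, hb⟩)
        · norm_num
        · exact ⟨ha.le, hb⟩
    rw [h5, setIntegral_union (by simp) measurableSet_Ioc
      (hint _ (by simp) (measurableSet_singleton 0))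
      (hint _ Ioc_subset_Icc_self measurableSet_Ioc), integral_singleton, add_comm]
    congr 1
    rw [smul_eq_mul]
    congr 1
    split_ifs with h
    · subst h; simp
    · rw [zero_pow (by omega), zero_mul]
  unfold rate
  rw [h1, h2]
  have h3 : kr b (b - k + 1) = (b.choose k : ℝ) * (if k = 2 then 1 else 0) := by
    unfold kr
    by_cases h : k = 2
    · subst h
      rw [if_pos (by omega), if_pos rfl, mul_one]
    · rw [if_neg (by omega), if_neg h, mul_zero]
  rw [h3]; ring

lemma Q_rate_eq (g : ℕ → ℝ) (b : ℕ) :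
    Q (rate Λ) g b = ∑ k ∈ Finset.Icc 2 b, (b.choose k : ℝ) * mergerRate Λ b k *
      (g (b - k + 1) - g b) := by
  have h1 : ∑ k ∈ Finset.Icc 2 b, (b.choose k : ℝ) * mergerRate Λ b k * (g (b - k + 1) - g b)
      = ∑ k ∈ Finset.Icc 2 b, rate Λ b (b - k + 1) * (g (b - k + 1) - g b) := by
    refine Finset.sum_congr rfl (fun k hk => ?_)
    rw [Finset.mem_Icc] at hk
    rw [rate_eq hk.1 hk.2]
  rw [h1]
  unfold Q
  have h2 : ∑ j ∈ Finset.range b, rate Λ b j * (g j - g b)
      = ∑ j ∈ Finset.Ico 1 b, rate Λ b j * (g j - g b) := by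
    symm
    refine Finset.sum_subset (fun j hj => ?_) (fun j hj hj2 => ?_)
    · rw [Finset.mem_Ico] at hj; exact Finset.mem_range.2 hj.2
    · rw [Finset.mem_range] at hj
      have : j = 0 := by
        by_contra h0
        exact hj2 (Finset.mem_Ico.2 ⟨by omega, hj⟩)
      rw [this, rate_zero, zero_mul]
  rw [h2]
  refine Finset.sum_nbij' (fun j => b - j + 1) (fun k => b - k + 1) ?_ ?_ ?_ ?_ ?_
  · intro j hj; rw [Finset.mem_Ico] at hj; rw [Finset.mem_Icc]; omega
  · intro k hk; rw [Finset.mem_Icc] at hk; rw [Finset.mem_Ico]; omega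
  · intro j hj; rw [Finset.mem_Ico] at hj; omega
  · intro k hk; rw [Finset.mem_Icc] at hk; omega
  · intro j hj
    rw [Finset.mem_Ico] at hj
    have : b - (b - j + 1) + 1 = j := by omega
    simp only [this]

lemma law_eq {p : ℕ → ℕ → ℝ → ℝ} (hp : IsBlockLaw Λ p) (m n : ℕ) {t : ℝ} (ht : 0 ≤ t) :
    ∑ i ∈ Finset.range (m + 1), p n i t
      = S (rate Λ) (fun j => if j ≤ m then 1 else 0) n t := by
  refine S_eq (N := n) rate_hr (fun b t => ∑ i ∈ Finset.range (m + 1), p b i t)
    (fun b t => Q (rate Λ) (fun j => ∑ i ∈ Finset.range (m + 1), p j i t) b)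
    (fun b _ => ?_) (fun b _ s hs => ?_) (fun _ _ _ _ => rfl) (fun b _ => ?_) n le_rfl t ht
  · exact continuousOn_finsetSum _ (fun i _ => fun s hs => (hp.deriv b i s hs).continuousWithinAt)
  · have h1 : HasDerivAt (fun t => ∑ i ∈ Finset.range (m + 1), p b i t)
        (∑ i ∈ Finset.range (m + 1), ∑ k ∈ Finset.Icc 2 b, (b.choose k : ℝ) * mergerRate Λ b k *
          (p (b - k + 1) i s - p b i s)) s :=
      HasDerivAt.fun_sum (fun i _ => (hp.deriv b i s hs.le).hasDerivAt (Ici_mem_nhds hs))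
    refine h1.congr_deriv ?_
    rw [Q_rate_eq, Finset.sum_comm]
    refine Finset.sum_congr rfl (fun k _ => ?_)
    rw [← Finset.mul_sum, Finset.sum_sub_distrib]
  · simp only [hp.init, Finset.sum_ite_eq, Finset.mem_range, Nat.lt_succ_iff]

lemma down_of_comesDown (h : ComesDown Λ) : Down Λ := by
  obtain ⟨p, hp, hall⟩ := h
  intro t ht κ hκ
  obtain ⟨m, hm⟩ := hall t ht (κ / 2) (by positivity)
  set x : ℝ := min (1 / 2) (κ / (2 * (m + 1))) with hx
  have hx0 : 0 < x := by positivity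
  have hx1 : x < 1 := lt_of_le_of_lt (min_le_left _ _) (by norm_num)
  have hmx : (m : ℝ) * x ≤ κ / 2 := by
    have h1 : x ≤ κ / (2 * (m + 1)) := min_le_right _ _
    calc (m : ℝ) * x ≤ (m + 1) * (κ / (2 * (m + 1))) := by gcongr; linarith
      _ = κ / 2 := by field_simp
  refine ⟨x, hx0, hx1, fun n => ?_⟩
  have h1 := hm n
  rw [law_eq hp m n ht.le] at h1
  have h2 : S (rate Λ) (fun j => (if j ≤ m then 1 else 0) - m * x) n t
      ≤ S (rate Λ) (fun j => (1 - x) ^ j) n t := by
    refine S_mono rate_hr (fun j _ => ?_) ht.le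
    have hj : (0 : ℝ) ≤ (1 - x) ^ j := pow_nonneg (by linarith) j
    split_ifs with hjm
    · have h3 : 1 + (j : ℝ) * (-x) ≤ (1 + (-x)) ^ j := one_add_mul_le_pow (by linarith) j
      have h4 : (j : ℝ) ≤ m := by exact_mod_cast hjm
      have h5 : (1 : ℝ) + (-x) = 1 - x := by ring
      rw [h5] at h3
      nlinarith
    · have : 0 ≤ (m : ℝ) * x := by positivity
      linarith
  rw [S_sub rate_hr (fun j => if j ≤ m then 1 else 0) (fun _ => m * x) n ht.le,
    S_const rate_hr _ n ht.le] at h2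
  linarith

lemma rate_two (hΛ : Λ ≠ 0) (hs : Λ (Icc 0 1)ᶜ = 0) : 0 < rate Λ 2 1 := by
  have h1 : rate Λ 2 1 = (Nat.choose 2 2 : ℝ) * mergerRate Λ 2 2 := rate_eq le_rfl le_rfl
  rw [h1]
  unfold mergerRate
  simp only [Nat.choose_self, Nat.cast_one, one_mul, Nat.sub_self, pow_zero, mul_one,
    integral_const, smul_eq_mul, measureReal_restrict_apply MeasurableSet.univ, univ_inter]
  rw [measureReal_def]
  refine ENNReal.toReal_pos (fun h0 => hΛ ?_) (measure_ne_top _ _)
  rw [← Measure.measure_univ_eq_zero, ← union_compl_self (Icc (0 : ℝ) 1)]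
  exact measure_union_null h0 hs

end Pool.Agent.H971.EX
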