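import Pool.Agent.H971.EX.Chain

/-! Monotonicity in the starting point and the variance estimate (helper file). -/

open MeasureTheory Filter Topology Set

namespace Pool.Agent.H971.EX

/-- rate of the jumps from `b` to `≤ i` -/
noncomputable def RR (r : ℕ → ℕ → ℝ) (b i : ℕ) : ℝ := ∑ j ∈ Finset.range (i + 1), r b j

lemma sbp (c g : ℕ → ℝ) (b : ℕ) :
    ∑ j ∈ Finset.range b, c j * (g j - g b)
      = - ∑ i ∈ Finset.range b, (∑ j ∈ Finset.range (i + 1), c j) * (g (i + 1) - g i) := by
  induction b with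
  | zero => simp
  | succ b ih =>
    rw [Finset.sum_range_succ (fun i => (∑ j ∈ Finset.range (i + 1), c j) * (g (i + 1) - g i)),
      neg_add, ← ih]
    have h1 : ∑ j ∈ Finset.range (b + 1), c j * (g j - g (b + 1))
        = ∑ j ∈ Finset.range (b + 1), (c j * (g j - g b) - c j * (g (b + 1) - g b)) :=
      Finset.sum_congr rfl (fun j _ => by ring)
    rw [h1, Finset.sum_sub_distrib, ← Finset.sum_mul,
      Finset.sum_range_succ (fun j => c j * (g j - g b))]
    ring

lemma Q_sbp (r : ℕ → ℕ → ℝ) (g : ℕ → ℝ) (b : ℕ) :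
    Q r g b = - ∑ i ∈ Finset.range b, RR r b i * (g (i + 1) - g i) := sbp (r b) g b

lemma Q_diff (r : ℕ → ℕ → ℝ) (g : ℕ → ℝ) (b : ℕ) :
    Q r g (b + 1) - Q r g b = ∑ i ∈ Finset.range b, (RR r b i - RR r (b + 1) i) * (g (i + 1) - g i)
      + (-(RR r (b + 1) b)) * (g (b + 1) - g b) := by
  rw [Q_sbp, Q_sbp, Finset.sum_range_succ]
  have h1 : ∀ i ∈ Finset.range b, (RR r b i - RR r (b + 1) i) * (g (i + 1) - g i)
      = RR r b i * (g (i + 1) - g i) - RR r (b + 1) i * (g (i + 1) - g i) := fun i _ => by ring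
  rw [Finset.sum_congr rfl h1, Finset.sum_sub_distrib]
  ring

variable {r : ℕ → ℕ → ℝ}

/-- stochastic monotonicity -/
lemma S_succ (hM : ∀ b i, i < b → RR r (b + 1) i ≤ RR r b i)
    {g : ℕ → ℝ} (hg : ∀ j, g j ≤ g (j + 1)) (b : ℕ) {t : ℝ} (ht : 0 ≤ t) :
    S r g b t ≤ S r g (b + 1) t := by
  have := comparison (N := b) (fun b i => RR r b i - RR r (b + 1) i) (fun b => -(RR r (b + 1) b))
    (fun b t => S r g (b + 1) t - S r g b t)
    (fun b t => Q r (fun j => S r g j t) (b + 1) - Q r (fun j => S r g j t) b)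
    (fun b _ j hj => by linarith [hM b j hj])
    (fun b _ => ((S_continuous r g (b + 1)).sub (S_continuous r g b)).continuousOn)
    (fun b _ t _ => (S_hasDerivAt r g (b + 1) t).sub (S_hasDerivAt r g b t))
    (fun b _ t _ => (Q_diff r (fun j => S r g j t) b).ge)
    (fun b _ => by simp only [S_zero]; linarith [hg b]) b le_rfl t ht
  linarith

lemma S_mono_index (hM : ∀ b i, i < b → RR r (b + 1) i ≤ RR r b i)
    {g : ℕ → ℝ} (hg : ∀ j, g j ≤ g (j + 1)) {t : ℝ} (ht : 0 ≤ t) :
    Monotone (fun b => S r g b t) := monotone_nat_of_le_succ (fun b => S_succ hM hg b ht)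

lemma Q_sq (r : ℕ → ℕ → ℝ) (f : ℕ → ℝ) (b : ℕ) :
    Q r (fun j => f j * f j) b = ∑ j ∈ Finset.range b, r b j * (f b - f j) ^ 2
      + 2 * f b * Q r f b := by
  unfold Q
  rw [Finset.mul_sum, ← Finset.sum_add_distrib]
  exact Finset.sum_congr rfl (fun j _ => by ring)

/-- variance estimate -/
lemma variance (hr : ∀ b j, j < b → 0 ≤ r b j) {f : ℕ → ℝ} {C : ℝ}
    (hf : ∀ i j, i ≤ j → f i ≤ f j) (ha : ∀ i j, i ≤ j → Q r f j ≤ Q r f i)
    (hσ : ∀ b, ∑ j ∈ Finset.range b, r b j * (f b - f j) ^ 2 ≤ C) (b : ℕ) {t : ℝ} (ht : 0 ≤ t) :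
    S r (fun j => f j * f j) b t - S r f b t ^ 2 ≤ C * t := by
  set W : ℝ → ℝ := fun t => S r (fun j => f j * f j) b t - S r f b t ^ 2 - C * t with hW
  have hcont : Continuous W :=
    ((S_continuous r _ b).sub ((S_continuous r f b).pow 2)).sub (by fun_prop)
  have hanti : AntitoneOn W (Ici 0) := by
    have hd : ∀ s, 0 < s → HasDerivAt W (S r (Q r (fun j => f j * f j)) b s
        - (2 : ℕ) * S r f b s ^ (2 - 1) * S r (Q r f) b s - C * 1) s := by
      intro s hs
      exact ((S_hasDerivAt' hr _ b hs.le).sub ((S_hasDerivAt' hr f b hs.le).pow 2)).sub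
        ((hasDerivAt_id s).const_mul C)
    refine antitoneOn_of_deriv_nonpos (convex_Ici 0) hcont.continuousOn ?_ ?_
    · intro s hs
      rw [interior_Ici] at hs
      exact (hd s hs).differentiableAt.differentiableWithinAt
    · intro s hs
      rw [interior_Ici] at hs
      rw [(hd s hs).deriv]
      have hs' : (0 : ℝ) ≤ s := le_of_lt hs
      have h1 : S r (Q r (fun j => f j * f j)) b s
          ≤ C - 2 * (S r f b s * S r (fun j => - Q r f j) b s) := by
        have h2 : S r (Q r (fun j => f j * f j)) b s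
            ≤ S r (fun j => C + (-2) * (f j * (- Q r f j))) b s := by
          refine S_mono hr (fun j _ => ?_) hs'
          rw [Q_sq]
          have := hσ j
          linarith
        rw [S_add hr (fun _ => C) (fun j => (-2) * (f j * (- Q r f j))) b hs', S_const hr C b hs',
          S_smul hr (fun j => f j * (- Q r f j)) (-2) b hs'] at h2
        have h3 := S_assoc hr (b := b) hf (a := fun j => - Q r f j)
          (fun i j hij => by linarith [ha i j hij]) hs'
        linarith
      have h4 : S r (fun j => - Q r f j) b s = - S r (Q r f) b s := by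
        have := S_smul hr (Q r f) (-1) b hs'
        simpa using this
      rw [h4] at h1
      norm_num
      nlinarith
  have h := hanti (mem_Ici.2 le_rfl) (mem_Ici.2 ht) ht
  simp only [hW, S_zero, mul_zero] at h
  nlinarith

/-- harmonic numbers -/
noncomputable def Hn (b : ℕ) : ℝ := ∑ i ∈ Finset.range b, (1 : ℝ) / (i + 1)

lemma Hn_succ (b : ℕ) : Hn (b + 1) = Hn b + 1 / (b + 1) := by
  unfold Hn; rw [Finset.sum_range_succ]

lemma Hn_mono : Monotone Hn := monotone_nat_of_le_succ (fun b => by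
  rw [Hn_succ]; have : (0 : ℝ) ≤ 1 / (b + 1) := by positivity
  linarith)

lemma Hn_zero : Hn 0 = 0 := by simp [Hn]

lemma Hn_nonneg (b : ℕ) : 0 ≤ Hn b := by
  have := Hn_mono (Nat.zero_le b); rwa [Hn_zero] at this

/-- monotonicity of the drift of the harmonic number -/
lemma drift_mono (h0 : ∀ b, r b 0 = 0)
    (hr : ∀ b j, j < b → 0 ≤ r b j)
    (hM2 : ∀ b i, i < b → (b + 1) * (RR r b i - RR r (b + 1) i) ≤ (i + 1) * r (b + 1) (i + 1))
    (b : ℕ) : Q r Hn (b + 1) ≤ Q r Hn b := by
  have h1 := Q_diff r Hn b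
  have h2 : ∑ i ∈ Finset.range b, (RR r b i - RR r (b + 1) i) * (Hn (i + 1) - Hn i)
      ≤ ∑ i ∈ Finset.range b, r (b + 1) (i + 1) * (1 / (b + 1)) := by
    refine Finset.sum_le_sum (fun i hi => ?_)
    rw [Finset.mem_range] at hi
    rw [Hn_succ, add_sub_cancel_left]
    have h3 := hM2 b i hi
    have hb : (0 : ℝ) < b + 1 := by positivity
    have hi' : (0 : ℝ) < i + 1 := by positivity
    rw [mul_one_div, mul_one_div, div_le_div_iff₀ hi' hb]
    linarith
  have h4 : RR r (b + 1) b = ∑ i ∈ Finset.range b, r (b + 1) (i + 1) := by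
    unfold RR
    rw [Finset.sum_range_succ', h0, add_zero]
  rw [← Finset.sum_mul, ← h4] at h2
  rw [Hn_succ b, add_sub_cancel_left] at h1
  linarith

end Pool.Agent.H971.EX
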