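import Pool.Agent.H971.EX.Times

/-! The block counting chain leaves infinity slowly: no jump to zero (helper file). -/

open MeasureTheory Filter Topology Set Pool.Agent.H971.FV
open scoped ENNReal NNReal

namespace Pool.Agent.H971.EX

lemma choose_le (n i : ℕ) (hi : i ≤ n) :
    (n + 2).choose i ≤ (n + 1) * (n + 2) * n.choose i := by
  have h1 := Nat.choose_mul_succ_eq (n + 1) i
  have h2 := Nat.choose_mul_succ_eq n i
  have h3 : 1 ≤ n + 1 + 1 - i := by omega
  have h4 : 1 ≤ n + 1 - i := by omega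
  calc (n + 2).choose i ≤ (n + 1 + 1).choose i * (n + 1 + 1 - i) * (n + 1 - i) := by
        have h5 : (n + 1 + 1).choose i * 1 * 1
            ≤ (n + 1 + 1).choose i * (n + 1 + 1 - i) * (n + 1 - i) := by gcongr
        simpa using h5
    _ = (n + 1).choose i * (n + 1 + 1) * (n + 1 - i) := by rw [← h1]
    _ = ((n + 1).choose i * (n + 1 - i)) * (n + 1 + 1) := by ring
    _ = (n.choose i * (n + 1)) * (n + 1 + 1) := by rw [← h2]
    _ = _ := by ring

/-- the integrand -/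
noncomputable def FF (z u : ℝ) (b : ℕ) : ℝ := ∑ j ∈ Finset.range b, ru u b j * (z ^ j - z ^ b)

lemma FF_nonneg {z u : ℝ} (hz0 : 0 ≤ z) (hz1 : z ≤ 1) (h0 : 0 ≤ u) (h1 : u ≤ 1) (b : ℕ) :
    0 ≤ FF z u b := by
  refine Finset.sum_nonneg (fun j hj => ?_)
  rw [Finset.mem_range] at hj
  exact mul_nonneg (ru_nonneg h0 h1 b j)
    (by linarith [pow_le_pow_of_le_one hz0 hz1 hj.le])

lemma FF_le_one {z u : ℝ} (hz0 : 0 ≤ z) (hz1 : z ≤ 1) (h0 : 0 ≤ u) (h1 : u ≤ 1) (b : ℕ) :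
    FF z u b ≤ 1 := by
  refine le_trans ?_ (sum_ru_le h0 h1 b)
  refine Finset.sum_le_sum (fun j _ => ?_)
  have h2 : z ^ j ≤ 1 := pow_le_one₀ hz0 hz1
  have h3 : 0 ≤ z ^ b := pow_nonneg hz0 b
  have := ru_nonneg h0 h1 b j
  nlinarith

lemma FF_le {z u : ℝ} (hz0 : 0 ≤ z) (hz1 : z ≤ 1) (h0 : 0 ≤ u) (h1 : u ≤ 1) (n : ℕ) :
    FF z u (n + 2) ≤ (n + 1) * (n + 2) * u ^ 2 * (u + (1 - u) * z) ^ n := by
  have h1' : 0 ≤ 1 - u := by linarith
  have h2 : FF z u (n + 2) ≤ ∑ j ∈ Finset.range (n + 2), ru u (n + 2) j * z ^ j := by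
    refine Finset.sum_le_sum (fun j _ => ?_)
    have h3 : 0 ≤ z ^ (n + 2) := pow_nonneg hz0 _
    have := ru_nonneg h0 h1 (n + 2) j
    nlinarith
  refine h2.trans ?_
  rw [Finset.sum_range_succ', ru_zero, zero_mul, add_zero]
  have h4 : ∀ i ∈ Finset.range (n + 1), ru u (n + 2) (i + 1) * z ^ (i + 1)
      ≤ (n + 1) * (n + 2) * u ^ 2 * (((1 - u) * z) ^ i * u ^ (n - i) * (n.choose i)) := by
    intro i hi
    rw [Finset.mem_range] at hi
    rw [ru_succ]
    have e1 : n + 2 - i = (n - i) + 2 := by omega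
    have e2 : (((n + 2).choose i : ℕ) : ℝ) ≤ (n + 1) * (n + 2) * (n.choose i) := by
      exact_mod_cast choose_le n i (by omega)
    have e3 : z ^ (i + 1) ≤ z ^ i := pow_le_pow_of_le_one hz0 hz1 (by omega)
    rw [e1]
    calc ((n + 2).choose i : ℝ) * u ^ (n - i + 2) * (1 - u) ^ i * z ^ (i + 1)
        ≤ ((n + 1) * (n + 2) * (n.choose i)) * u ^ (n - i + 2) * (1 - u) ^ i * z ^ i := by
          gcongr
      _ = _ := by rw [mul_pow]; ring
  refine (Finset.sum_le_sum h4).trans ?_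
  rw [← Finset.mul_sum, ← add_pow, add_comm u ((1 - u) * z)]

section

variable {Λ : Measure ℝ} [IsFiniteMeasure Λ]

lemma Q_rate (g : ℕ → ℝ) (b : ℕ) :
    Q (rate Λ) g b = Q (rateJ Λ) g b + Λ.real {0} * Q kr g b := by
  unfold Q rate
  rw [Finset.mul_sum, ← Finset.sum_add_distrib]
  exact Finset.sum_congr rfl (fun j _ => by ring)

lemma Q_kr (g : ℕ → ℝ) (b : ℕ) : Q kr g b = (b.choose 2 : ℝ) * (g (b - 1) - g b) := by
  cases b with
  | zero => simp [Q]
  | succ b =>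
    unfold Q
    rw [sum_kr (f := fun j => g j - g (b + 1)) (by omega : b < b + 1), if_pos rfl,
      Nat.add_sub_cancel]

lemma Q_FF (z : ℝ) (b : ℕ) : Q (rateJ Λ) (fun j => z ^ j) b = ∫ u, FF z u b ∂(nu Λ) := by
  unfold Q FF rateJ
  rw [integral_finsetSum]
  · exact Finset.sum_congr rfl (fun j _ => by rw [integral_mul_const])
  · intro j hj
    rw [Finset.mem_range] at hj
    exact (ru_integrable hj).mul_const _

lemma FF_measurable (z : ℝ) (b : ℕ) : Measurable (fun u => FF z u b) := by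
  unfold FF
  exact Finset.measurable_sum _ (fun j _ => (ru_measurable b j).mul_const _)

lemma sq_pow_tendsto {q : ℝ} (h0 : 0 < q) (h1 : q < 1) :
    Tendsto (fun n : ℕ => ((n : ℝ) + 1) * (n + 2) * q ^ n) atTop (𝓝 0) := by
  have h2 : Tendsto (fun n : ℕ => ((n : ℝ)) ^ 2 * q ^ n) atTop (𝓝 0) :=
    tendsto_pow_const_mul_const_pow_of_abs_lt_one 2 (by rw [abs_of_pos h0]; exact h1)
  have h3 := ((tendsto_add_atTop_iff_nat 2).2 h2).div_const (q ^ 2)
  rw [zero_div] at h3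
  refine squeeze_zero (fun n => by positivity) (fun n => ?_) h3
  rw [le_div_iff₀ (by positivity)]
  push_cast
  rw [pow_add]
  have h4 : ((n : ℝ) + 1) * (n + 2) ≤ (n + 2) ^ 2 := by nlinarith [Nat.cast_nonneg (α := ℝ) n]
  have h5 : 0 ≤ q ^ n * q ^ 2 := by positivity
  nlinarith

lemma Q_kr_tendsto {z : ℝ} (hz0 : 0 < z) (hz1 : z < 1) :
    Tendsto (fun b => Q kr (fun j => z ^ j) b) atTop (𝓝 0) := by
  rw [← tendsto_add_atTop_iff_nat 1]
  refine squeeze_zero (fun n => ?_) (fun n => ?_) (sq_pow_tendsto hz0 hz1)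
  · rw [Q_kr, Nat.add_sub_cancel]
    have : z ^ (n + 1) ≤ z ^ n := pow_le_pow_of_le_one hz0.le hz1.le (by omega)
    exact mul_nonneg (by positivity) (by linarith)
  · rw [Q_kr, Nat.add_sub_cancel, Nat.cast_choose_two]
    push_cast
    have h2 : 0 ≤ z ^ (n + 1) := by positivity
    have h3 : 0 ≤ z ^ n := by positivity
    have hn : (0 : ℝ) ≤ n := Nat.cast_nonneg n
    have h4 : ((n : ℝ) + 1) * (n + 1 - 1) / 2 ≤ (n + 1) * (n + 2) := by nlinarith
    have h5 : (0 : ℝ) ≤ ((n : ℝ) + 1) * (n + 1 - 1) / 2 := by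
      rw [add_sub_cancel_right]; positivity
    nlinarith

lemma Q_powJ_tendsto (h1 : Λ {1} = 0) {z : ℝ} (hz0 : 0 < z) (hz1 : z < 1) :
    Tendsto (fun b => Q (rateJ Λ) (fun j => z ^ j) b) atTop (𝓝 0) := by
  simp_rw [Q_FF]
  rw [← tendsto_add_atTop_iff_nat 2]
  set q := 1 - (1 - z) / 2 with hq
  have hq0 : 0 < q := by rw [hq]; linarith
  have hq1 : q < 1 := by rw [hq]; linarith
  obtain ⟨C, hC⟩ := (sq_pow_tendsto hq0 hq1).bddAbove_range
  have hC' : ∀ n : ℕ, ((n : ℝ) + 1) * (n + 2) * q ^ n ≤ C := fun n => hC ⟨n, rfl⟩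
  have hC0 : 0 ≤ C := le_trans (by positivity) (hC' 0)
  have hae1 : ∀ᵐ u ∂(nu Λ), u ≠ 1 := by
    unfold nu
    refine (withDensity_absolutelyContinuous _ _).ae_le ?_
    refine ae_restrict_of_ae ?_
    rw [ae_iff]
    simpa using h1
  have hlim : Tendsto (fun n => ∫ u, FF z u (n + 2) ∂(nu Λ)) atTop (𝓝 (∫ _u, (0 : ℝ) ∂(nu Λ))) := by
    refine tendsto_integral_of_dominated_convergence (fun u => (C + 4) * u ^ 2)
      (fun n => (FF_measurable z (n + 2)).aestronglyMeasurable) ?_ (fun n => ?_) ?_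
    · exact integrable_nu (by fun_prop) (C := C + 4) (fun u _ => by
        rw [abs_of_nonneg (by positivity)])
    · filter_upwards [ae_nu Λ] with u hu
      have hu0 := hu.1.le
      rw [Real.norm_eq_abs, abs_of_nonneg (FF_nonneg hz0.le hz1.le hu0 hu.2 _)]
      rcases le_or_gt u (1 / 2) with h | h
      · have h2 := FF_le hz0.le hz1.le hu0 hu.2 n
        have h3 : u + (1 - u) * z ≤ q := by rw [hq]; nlinarith
        have h4 : 0 ≤ u + (1 - u) * z := by nlinarith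
        have h5 : (u + (1 - u) * z) ^ n ≤ q ^ n := pow_le_pow_left₀ h4 h3 n
        calc FF z u (n + 2) ≤ (n + 1) * (n + 2) * u ^ 2 * (u + (1 - u) * z) ^ n := h2
          _ ≤ (n + 1) * (n + 2) * u ^ 2 * q ^ n := by gcongr
          _ = ((n + 1) * (n + 2) * q ^ n) * u ^ 2 := by ring
          _ ≤ C * u ^ 2 := by gcongr; exact hC' n
          _ ≤ (C + 4) * u ^ 2 := by nlinarith [sq_nonneg u]
      · have h2 := FF_le_one hz0.le hz1.le hu0 hu.2 (n + 2)
        nlinarith [sq_nonneg u, mul_nonneg hC0 (sq_nonneg u)]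
    · filter_upwards [ae_nu Λ, hae1] with u hu hu1
      have hu0 := hu.1.le
      have hult : u < 1 := lt_of_le_of_ne hu.2 hu1
      have hqu1 : u + (1 - u) * z < 1 := by nlinarith
      have hqu0 : 0 < u + (1 - u) * z := by nlinarith [hu.1, mul_pos (sub_pos.2 hult) hz0]
      have h2 := ((sq_pow_tendsto hqu0 hqu1).mul_const (u ^ 2))
      rw [zero_mul] at h2
      refine squeeze_zero (fun n => FF_nonneg hz0.le hz1.le hu0 hu.2 _) (fun n => ?_) h2
      have h3 := FF_le hz0.le hz1.le hu0 hu.2 n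
      calc _ ≤ _ := h3
        _ = _ := by ring
  simpa using hlim

lemma Q_pow_tendsto (h1 : Λ {1} = 0) {z : ℝ} (hz0 : 0 < z) (hz1 : z < 1) :
    Tendsto (fun b => Q (rate Λ) (fun j => z ^ j) b) atTop (𝓝 0) := by
  simp_rw [Q_rate]
  have := (Q_powJ_tendsto h1 hz0 hz1).add ((Q_kr_tendsto hz0 hz1).const_mul (Λ.real {0}))
  rwa [mul_zero, add_zero] at this

/-- no jump to zero, in terms of the chain -/
theorem no_jump (h1 : Λ {1} = 0) {η : ℝ} (hη0 : 0 < η) (hη1 : η < 1) {κ : ℝ} (hκ : 0 < κ) :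
    ∃ h0, 0 < h0 ∧ ∀ h, 0 < h → h ≤ h0 → ∃ n, S (rate Λ) (fun m => (1 - η) ^ m) n h ≤ κ * h := by
  set z := 1 - η with hz
  have hz0 : 0 < z := by linarith
  have hz1 : z < 1 := by linarith
  set K : ℕ → ℝ := Q (rate Λ) (fun j => z ^ j) with hK
  have hK0 : ∀ m, 0 ≤ K m := by
    intro m
    rw [hK, Q_rate, Q_FF, Q_kr]
    refine add_nonneg (integral_nonneg_of_ae (by
      filter_upwards [ae_nu Λ] with u hu
      exact FF_nonneg hz0.le hz1.le hu.1.le hu.2 m)) (mul_nonneg measureReal_nonneg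
      (mul_nonneg (by positivity) ?_))
    have : z ^ m ≤ z ^ (m - 1) := pow_le_pow_of_le_one hz0.le hz1.le (by omega)
    linarith
  have hKt : Tendsto K atTop (𝓝 0) := Q_pow_tendsto h1 hz0 hz1
  obtain ⟨C, hC⟩ := hKt.bddAbove_range
  have hC' : ∀ m, K m ≤ C := fun m => hC ⟨m, rfl⟩
  have hC0 : 0 ≤ C := (hK0 0).trans (hC' 0)
  obtain ⟨M, hM⟩ := (hKt.eventually (gt_mem_nhds (by positivity : (0 : ℝ) < κ / 4))).exists_forall_of_atTop
  set D := C * (z ^ M)⁻¹ with hD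
  have hD0 : 0 ≤ D := by positivity
  refine ⟨1 / (2 * (D + 1)), by positivity, fun h hh hh0 => ?_⟩
  obtain ⟨n, hn⟩ : ∃ n : ℕ, z ^ n < h * κ / 4 := exists_pow_lt_of_lt_one (by positivity) hz1
  refine ⟨n, ?_⟩
  set g : ℕ → ℝ := fun m => z ^ m with hg
  -- mean value
  obtain ⟨ξ, hξ, hξ2⟩ := exists_hasDerivAt_eq_slope (S (rate Λ) g n) (S (rate Λ) K n)
    hh (S_continuous (rate Λ) g n).continuousOn
    (fun x hx => S_hasDerivAt' rate_hr g n (by linarith [hx.1]))
  rw [S_zero, sub_zero, eq_div_iff hh.ne'] at hξ2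
  have hmono : S (rate Λ) g n ξ ≤ S (rate Λ) g n h := by
    have : MonotoneOn (S (rate Λ) g n) (Ici 0) := by
      refine monotoneOn_of_deriv_nonneg (convex_Ici 0) (S_continuous _ g n).continuousOn ?_ ?_
      · exact fun s _ => (S_hasDerivAt _ g n s).differentiableAt.differentiableWithinAt
      · intro s hs
        rw [interior_Ici] at hs
        rw [(S_hasDerivAt' rate_hr g n (le_of_lt hs)).deriv]
        exact S_nonneg rate_hr (fun j _ => hK0 j) (le_of_lt hs)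
    exact this (mem_Ici.2 hξ.1.le) (mem_Ici.2 hh.le) hξ.2.le
  have hbound : S (rate Λ) K n ξ ≤ κ / 4 + D * S (rate Λ) g n ξ := by
    have h2 : S (rate Λ) K n ξ ≤ S (rate Λ) (fun m => κ / 4 + D * g m) n ξ := by
      refine S_mono rate_hr (fun m _ => ?_) hξ.1.le
      rcases le_or_gt M m with hm | hm
      · have h3 := hM m hm
        have h4 : 0 ≤ D * g m := mul_nonneg hD0 (pow_nonneg hz0.le m)
        linarith
      · have h3 := hC' m
        have h4 : z ^ M ≤ z ^ m := pow_le_pow_of_le_one hz0.le hz1.le hm.le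
        have h5 : 1 ≤ (z ^ M)⁻¹ * z ^ m := by
          rw [inv_mul_eq_div, le_div_iff₀ (by positivity)]; linarith
        have h6 : C ≤ D * g m := by
          rw [hD, hg, mul_assoc]
          nlinarith
        linarith
    rw [S_add rate_hr (fun _ => κ / 4) (fun m => D * g m) n hξ.1.le, S_const rate_hr _ n hξ.1.le,
      S_smul rate_hr g D n hξ.1.le] at h2
    exact h2
  set Y := S (rate Λ) g n h with hY
  have hY0 : 0 ≤ Y := S_nonneg rate_hr (fun j _ => pow_nonneg hz0.le j) hh.le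
  have h7 : D * h ≤ 1 / 2 := by
    calc D * h ≤ D * (1 / (2 * (D + 1))) := mul_le_mul_of_nonneg_left hh0 hD0
      _ ≤ 1 / 2 := by rw [mul_one_div, div_le_div_iff₀ (by positivity) (by norm_num)]; linarith
  have h8 : Y ≤ z ^ n + (κ / 4 + D * Y) * h := by
    have h9 : S (rate Λ) K n ξ * h ≤ (κ / 4 + D * Y) * h := by
      refine mul_le_mul_of_nonneg_right ?_ hh.le
      have := mul_le_mul_of_nonneg_left hmono hD0
      linarith
    have h10 : g n = z ^ n := rfl
    linarith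
  nlinarith

end

end Pool.Agent.H971.EX
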