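import Pool.Agent.H971.EX.Stop

/-! Two types which become small together: null event (helper file). -/

open MeasureTheory ProbabilityTheory Filter Topology Set Pool.Agent.H971.FV
open scoped ENNReal NNReal unitInterval

namespace Pool.Agent.H971.EX

/-- enumeration of the nonnegative rational times -/
noncomputable def τ (n : ℕ) : ℝ≥0 := (n.unpair.1 : ℝ≥0) / ((n.unpair.2 : ℝ≥0) + 1)

lemma τ_pair (a b : ℕ) : τ (Nat.pair a b) = (a : ℝ≥0) / ((b : ℝ≥0) + 1) := by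
  unfold τ; rw [Nat.unpair_pair]

section process

variable {Ω : Type*} [mΩ : MeasurableSpace Ω] {P : Measure Ω}
  {Λ : Measure ℝ} {ρ : ℝ≥0 → Ω → ProbabilityMeasure I}
  [IsProbabilityMeasure P] [IsFiniteMeasure Λ] {𝓕 : Filtration ℝ≥0 mΩ}

/-- both masses are positive and at most `1/(q+1)` at a time `s ≤ M` -/
def BB (ρ : ℝ≥0 → Ω → ProbabilityMeasure I) (U V : Set I) (M : ℝ≥0) (q : ℕ) (s : ℝ≥0) : Set Ω :=
  {ω | s ≤ M ∧ (0 < XX ρ U s ω ∧ XX ρ U s ω ≤ 1 / (q + 1)) ∧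
    (0 < XX ρ V s ω ∧ XX ρ V s ω ≤ 1 / (q + 1))}

/-- both masses become arbitrarily small at rational times at which both are positive -/
def DD (ρ : ℝ≥0 → Ω → ProbabilityMeasure I) (U V : Set I) (M : ℝ≥0) : Set Ω :=
  ⋂ q : ℕ, ⋃ n, BB ρ U V M q (τ n)

lemma DD_symm (U V : Set I) (M : ℝ≥0) : DD ρ U V M = DD ρ V U M := by
  unfold DD BB
  ext ω
  simp only [mem_iInter, mem_iUnion, mem_ofPred_eq]
  exact forall_congr' (fun q => exists_congr (fun n => by tauto))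

lemma FVF.BB_meas (h : FVF Λ P ρ 𝓕) {U V : Set I} (hU : IsOpen U) (hV : IsOpen V) (M : ℝ≥0)
    (q : ℕ) (s : ℝ≥0) : MeasurableSet[𝓕 s] (BB ρ U V M q s) := by
  unfold BB
  have h1 : Measurable[𝓕 s] (XX ρ U s) := h.XX_meas hU s
  have h2 : Measurable[𝓕 s] (XX ρ V s) := h.XX_meas hV s
  by_cases hs : s ≤ M
  · simp only [hs, true_and]
    refine MeasurableSet.inter (m := 𝓕 s) (MeasurableSet.inter (m := 𝓕 s) ?_ ?_)
      (MeasurableSet.inter (m := 𝓕 s) ?_ ?_)
    · exact h1 measurableSet_Ioi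
    · exact h1 measurableSet_Iic
    · exact h2 measurableSet_Ioi
    · exact h2 measurableSet_Iic
  · simp only [hs, false_and]
    exact @MeasurableSet.empty Ω (𝓕 s)

lemma FVF.DD_meas (h : FVF Λ P ρ 𝓕) {U V : Set I} (hU : IsOpen U) (hV : IsOpen V) (M : ℝ≥0) :
    MeasurableSet (DD ρ U V M) :=
  MeasurableSet.iInter (fun q => MeasurableSet.iUnion (fun n =>
    𝓕.le _ _ (h.BB_meas hU hV M q (τ n))))

lemma FVF.exclude (h : FVF Λ P ρ 𝓕) {U V : Set I} (hU : IsOpen U) (hV : IsOpen V) (M r : ℝ≥0) :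
    ∀ᵐ ω ∂P, ω ∈ DD ρ U V M → ¬ (XX ρ U r ω = 0 ∧ 0 < XX ρ V r ω) := by
  have h1 := h.absorb (blim_ind hV) (ind_sq V) τ r
  have h2 : ∀ᵐ ω ∂P, ∀ n, r ≤ τ n → XX ρ U r ω = 0 → XX ρ U (τ n) ω = 0 := by
    rw [ae_all_iff]
    intro n
    filter_upwards [h.absorb (blim_ind hU) (ind_sq U) (fun _ => r) (τ n)] with ω hω hr h0
    refine hω (fun q => ⟨0, hr, ?_⟩)
    show XX ρ U r ω ≤ _
    rw [h0]; positivity
  filter_upwards [h1, h2] with ω hω1 hω2 hD hcon
  obtain ⟨hX, hY⟩ := hcon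
  have h3 : mass ρ (ind V) r ω = 0 := by
    refine hω1 (fun q => ?_)
    have h4 := mem_iInter.1 hD q
    rw [mem_iUnion] at h4
    obtain ⟨n, hn⟩ := h4
    refine ⟨n, ?_, hn.2.2.2⟩
    by_contra hcon
    push Not at hcon
    have h5 := hω2 n hcon.le hX
    exact absurd h5 hn.2.1.1.ne'
  exact absurd h3 hY.ne'

lemma piece {Ω : Type*} [mΩ : MeasurableSpace Ω] {P : Measure Ω} [IsProbabilityMeasure P]
    {G D E : Set Ω} (hG : MeasurableSet G) (hE : MeasurableSet E) {c : ℝ} (hc0 : 0 ≤ c)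
    (hc1 : c ≤ 1)
    (hex : ∀ᵐ ω ∂P, ω ∈ D → ω ∉ E) (hk : c * P.real G ≤ P.real (G ∩ E)) :
    P (G ∩ D) ≤ ENNReal.ofReal (1 - c) * P G := by
  have h1 : P (G ∩ D) ≤ P (G \ E) := by
    refine measure_mono_ae ?_
    filter_upwards [hex] with ω hω hGD
    exact ⟨hGD.1, hω hGD.2⟩
  refine h1.trans ?_
  have h2 : P.real (G \ E) = P.real G - P.real (G ∩ E) := by
    have := measureReal_inter_add_sdiff (μ := P) (s := G) hE
    linarith
  rw [← ofReal_measureReal (s := G \ E), ← ofReal_measureReal (s := G), ← ENNReal.ofReal_mul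
    (by linarith), h2]
  exact ENNReal.ofReal_le_ofReal (by linarith)

lemma w0_le_one : w0 ≤ 1 := by
  unfold w0
  have h1 : Real.exp (-(2 * Real.exp 2)) ≤ 1 := by
    rw [Real.exp_le_one_iff]; have := Real.exp_pos 2; linarith
  have h2 : 0 < Real.exp (-(Real.exp (-3) / 2)) := Real.exp_pos _
  have h3 : 0 < Real.exp (-(2 * Real.exp 2)) := Real.exp_pos _
  have h4 : Real.exp (-(Real.exp (-3) / 2)) ≤ 1 := by
    rw [Real.exp_le_one_iff]; have := Real.exp_pos (-3); linarith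
  nlinarith

/-- the event `DD` is null -/
theorem FVF.DD_null (h : FVF Λ P ρ 𝓕) (hD : Down Λ) {U V : Set I} (hU : IsOpen U)
    (hV : IsOpen V) (hUV : Disjoint U V) (M : ℝ≥0) : P (DD ρ U V M) = 0 := by
  obtain ⟨ε0, hε0, hkey⟩ := key hD
  set c : ℝ := 1 / 6 * w0 with hc
  have hc0 : 0 < c := by have := w0_pos; rw [hc]; positivity
  have hc1 : c ≤ 1 := by rw [hc]; have := w0_le_one; linarith
  set θ := ENNReal.ofReal (1 - c) with hθ
  have hDm := h.DD_meas hU hV M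
  -- the pieces
  have hpiece : ∀ (U V : Set I), IsOpen U → IsOpen V → Disjoint U V → ∀ (i : ℕ) (s : ℝ≥0)
      (G : Set Ω), MeasurableSet[𝓕 s] G →
      (∀ ω ∈ G, XX ρ U s ω ≤ XX ρ V s ω ∧ ε0 * (1 / 2) ^ i / 2 < XX ρ V s ω ∧
        XX ρ V s ω ≤ ε0 * (1 / 2) ^ i) → P (G ∩ DD ρ U V M) ≤ θ * P G := by
    intro U V hU hV hUV i s G hG hsub
    have hε : 0 < ε0 * (1 / 2) ^ i := by positivity
    have hεε : ε0 * (1 / 2) ^ i ≤ ε0 := by
      have : ((1 : ℝ) / 2) ^ i ≤ 1 := pow_le_one₀ (by norm_num) (by norm_num)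
      nlinarith
    obtain ⟨t, ht⟩ := hkey _ hε hεε
    have h1 := ht h hU hV hUV s G hG hsub
    have hE : MeasurableSet {ω | XX ρ U (s + t) ω = 0 ∧ 0 < XX ρ V (s + t) ω} :=
      ((h.XX_meas' hU _) (measurableSet_singleton 0)).inter
        ((h.XX_meas' hV _) measurableSet_Ioi)
    exact piece (𝓕.le s G hG) hE hc0.le hc1 (h.exclude hU hV M (s + t)) h1
  obtain ⟨q0, hq0⟩ : ∃ q0 : ℕ, (1 : ℝ) / (q0 + 1) < ε0 := exists_nat_one_div_lt hε0
  have hmain : ∀ q : ℕ, q0 ≤ q → P (DD ρ U V M) ≤ θ * P (⋃ n, BB ρ U V M q (τ n)) := by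
    intro q hq
    have hqε : (1 : ℝ) / (q + 1) ≤ ε0 := by
      refine le_trans ?_ hq0.le
      have : (q0 : ℝ) ≤ q := by exact_mod_cast hq
      gcongr
    have h1 := stop_seq (𝓕 := 𝓕) (ν := P.restrict (DD ρ U V M)) (P := P) τ
      (fun s => BB ρ U V M q s) (fun s => h.BB_meas hU hV M q s) θ (fun s G hG hsub => ?_)
    · refine le_trans ?_ h1
      rw [Measure.restrict_apply' hDm]
      refine measure_mono (subset_inter ?_ (subset_refl _))
      exact iInter_subset _ q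
    · have hX : Measurable[𝓕 s] (XX ρ U s) := h.XX_meas hU s
      have hY : Measurable[𝓕 s] (XX ρ V s) := h.XX_meas hV s
      -- the countable partition
      refine part_le (𝓕.le s) (fun k => if k % 2 = 0 then
          {ω | XX ρ U s ω ≤ XX ρ V s ω ∧ ε0 * (1 / 2) ^ (k / 2) / 2 < XX ρ V s ω ∧
            XX ρ V s ω ≤ ε0 * (1 / 2) ^ (k / 2)}
          else {ω | XX ρ V s ω ≤ XX ρ U s ω ∧ ε0 * (1 / 2) ^ (k / 2) / 2 < XX ρ U s ω ∧
            XX ρ U s ω ≤ ε0 * (1 / 2) ^ (k / 2)}) (fun k => ?_) θ (fun k G' hG' hsub' => ?_) hG ?_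
      · split_ifs with hk
        · exact MeasurableSet.inter (m := 𝓕 s) (measurableSet_le hX hY)
            (MeasurableSet.inter (m := 𝓕 s) (hY measurableSet_Ioi) (hY measurableSet_Iic))
        · exact MeasurableSet.inter (m := 𝓕 s) (measurableSet_le hY hX)
            (MeasurableSet.inter (m := 𝓕 s) (hX measurableSet_Ioi) (hX measurableSet_Iic))
      · rw [Measure.restrict_apply' hDm]
        split_ifs at hsub' with hk
        · exact hpiece U V hU hV hUV (k / 2) s G' hG' (fun ω hω => hsub' hω)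
        · rw [DD_symm]
          exact hpiece V U hV hU hUV.symm (k / 2) s G' hG' (fun ω hω => hsub' hω)
      · intro ω hω
        obtain ⟨_, ⟨hx0, hx1⟩, hy0, hy1⟩ := hsub hω
        have hlev : ∀ y : ℝ, 0 < y → y ≤ 1 / (q + 1) → ∃ i : ℕ, ε0 * (1 / 2) ^ i / 2 < y ∧
            y ≤ ε0 * (1 / 2) ^ i := by
          intro y hy0 hy1
          obtain ⟨i, hi1, hi2⟩ := exists_nat_pow_near_of_lt_one (x := y / ε0) (y := (1 : ℝ) / 2)
            (by positivity) (by rw [div_le_one hε0]; linarith) (by norm_num) (by norm_num)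
          refine ⟨i, ?_, ?_⟩
          · rw [lt_div_iff₀ hε0, pow_succ] at hi1; linarith
          · rw [div_le_iff₀ hε0] at hi2; linarith
        rw [mem_iUnion]
        rcases le_total (XX ρ U s ω) (XX ρ V s ω) with hxy | hxy
        · obtain ⟨i, hi⟩ := hlev _ hy0 hy1
          refine ⟨2 * i, ?_⟩
          have e1 : 2 * i / 2 = i := by omega
          have e2 : 2 * i % 2 = 0 := by omega
          simp only [e1, e2, if_true]
          exact ⟨hxy, hi⟩
        · obtain ⟨i, hi⟩ := hlev _ hx0 hx1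
          refine ⟨2 * i + 1, ?_⟩
          have e1 : (2 * i + 1) / 2 = i := by omega
          have e2 : ¬ ((2 * i + 1) % 2 = 0) := by omega
          simp only [e1, e2, if_false]
          exact ⟨hxy, hi⟩
  -- the limit
  have hanti : Antitone (fun q : ℕ => ⋃ n, BB ρ U V M q (τ n)) := by
    intro q q' hqq
    refine iUnion_mono (fun n ω hω => ?_)
    obtain ⟨h1, ⟨h2, h3⟩, h4, h5⟩ := hω
    have h6 : (1 : ℝ) / (q' + 1) ≤ 1 / (q + 1) := by
      have : (q : ℝ) ≤ q' := by exact_mod_cast hqq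
      gcongr
    exact ⟨h1, ⟨h2, h3.trans h6⟩, h4, h5.trans h6⟩
  have hlim := tendsto_measure_iInter_atTop (μ := P)
    (s := fun q : ℕ => ⋃ n, BB ρ U V M q (τ n))
    (fun q => (MeasurableSet.iUnion (fun n =>
      𝓕.le _ _ (h.BB_meas hU hV M q (τ n)))).nullMeasurableSet) hanti ⟨0, measure_ne_top P _⟩
  have hlim2 : Tendsto (fun q : ℕ => θ * P (⋃ n, BB ρ U V M q (τ n))) atTop
      (𝓝 (θ * P (DD ρ U V M))) := ENNReal.Tendsto.const_mul hlim (Or.inr ENNReal.ofReal_ne_top)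
  have hfin := ge_of_tendsto hlim2 (eventually_atTop.2 ⟨q0, hmain⟩)
  by_contra hne
  have hθ1 : θ < 1 := by rw [hθ, ENNReal.ofReal_lt_one]; linarith
  have h1 : θ * P (DD ρ U V M) < 1 * P (DD ρ U V M) :=
    ENNReal.mul_lt_mul_left hne (measure_ne_top P _) hθ1
  rw [one_mul] at h1
  exact absurd hfin (not_le.2 h1)

end process

end Pool.Agent.H971.EX
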