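import Pool.Agent.H971.EX.Null

/-! Simultaneous extinction of two open sets of types has probability zero (helper file). -/

open MeasureTheory ProbabilityTheory Filter Topology Set Pool.Agent.H971.FV
open scoped ENNReal NNReal unitInterval

namespace Pool.Agent.H971.EX

section process

variable {Ω : Type*} [mΩ : MeasurableSpace Ω] {P : Measure Ω}
  {Λ : Measure ℝ} {ρ : ℝ≥0 → Ω → ProbabilityMeasure I}
  [IsProbabilityMeasure P] [IsFiniteMeasure Λ] {𝓕 : Filtration ℝ≥0 mΩ}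

/-- two disjoint sets of types cannot both survive forever -/
theorem FVF.survive_null (h : FVF Λ P ρ 𝓕) (hD : Down Λ) (hΛ : 0 < rate Λ 2 1) {U V : Set I}
    (hU : IsOpen U) (hV : IsOpen V) (hUV : Disjoint U V) :
    ∀ᵐ ω ∂P, ¬ ∀ n, 0 < XX ρ U (τ n) ω ∧ 0 < XX ρ V (τ n) ω := by
  set A : Set Ω := {ω | ∀ n, 0 < XX ρ U (τ n) ω ∧ 0 < XX ρ V (τ n) ω} with hA
  have hbound : ∀ κ : ℝ, 0 < κ → P.real A ≤ 2 * κ := by
    intro κ hκ
    obtain ⟨x, hx0, hx1, hx⟩ := hD 1 one_pos κ hκ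
    -- bound at time k
    have hk : ∀ k : ℕ, P.real A ≤ 2 * κ + Real.exp (-(rate Λ 2 1 * k)) / x ^ 2 := by
      intro k
      have hone : ∀ (W : Set I), IsOpen W →
          P.real ({ω | XX ρ W k ω ≤ x} ∩ {ω | 0 < XX ρ W (k + 1) ω}) ≤ κ := by
        intro W hW
        have hG : MeasurableSet[𝓕 (k : ℝ≥0)] {ω | XX ρ W k ω ≤ x} :=
          (h.XX_meas hW k) measurableSet_Iic
        have h1 := h.die zero_le_one hx1 hx hW hG (fun ω hω => hω)
        rw [Real.toNNReal_one] at h1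
        have hE : MeasurableSet {ω | XX ρ W (k + 1) ω = 0} :=
          (h.XX_meas' hW _) (measurableSet_singleton 0)
        have h2 := measureReal_inter_add_sdiff (μ := P) (s := {ω | XX ρ W (k : ℝ≥0) ω ≤ x}) hE
        have h3 : P.real ({ω | XX ρ W k ω ≤ x} ∩ {ω | 0 < XX ρ W (k + 1) ω})
            ≤ P.real ({ω | XX ρ W k ω ≤ x} \ {ω | XX ρ W (k + 1) ω = 0}) := by
          refine measureReal_mono ?_
          rintro ω ⟨hω1, hω2⟩
          exact ⟨hω1, fun h0 => by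
            simp only [mem_ofPred_eq] at h0 hω2
            linarith⟩
        have h4 : P.real {ω | XX ρ W (k : ℝ≥0) ω ≤ x} ≤ 1 := measureReal_le_one
        nlinarith
      have hbig : P.real {ω | x < XX ρ U k ω ∧ x < XX ρ V k ω}
          ≤ Real.exp (-(rate Λ 2 1 * k)) / x ^ 2 := by
        have h1 := h.decay hΛ hU (k : ℝ≥0)
        have hm : MeasurableSet {ω | x < XX ρ U (k : ℝ≥0) ω ∧ x < XX ρ V (k : ℝ≥0) ω} :=
          ((h.XX_meas' hU _) measurableSet_Ioi).inter ((h.XX_meas' hV _) measurableSet_Ioi)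
        rw [le_div_iff₀ (by positivity)]
        have hi : Integrable (fun ω => XX ρ U (k : ℝ≥0) ω * (1 - XX ρ U (k : ℝ≥0) ω)) P := by
          refine Integrable.of_bound (C := 1) ?_ (Eventually.of_forall (fun ω => ?_))
          · have := h.XX_meas' hU (k : ℝ≥0)
            exact (this.mul (measurable_const.sub this)).aestronglyMeasurable
          · have h2 := XX_mem (ρ := ρ) hU (k : ℝ≥0) ω
            rw [Real.norm_eq_abs, abs_of_nonneg (mul_nonneg h2.1 (by linarith))]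
            nlinarith
        have h2 : P.real {ω | x < XX ρ U (k : ℝ≥0) ω ∧ x < XX ρ V (k : ℝ≥0) ω} * x ^ 2
            = ∫ ω, ({ω | x < XX ρ U (k : ℝ≥0) ω ∧ x < XX ρ V (k : ℝ≥0) ω}.indicator
              (fun _ => x ^ 2)) ω ∂P := by
          rw [integral_indicator_const _ hm, smul_eq_mul]
        rw [h2]
        refine (integral_mono ((integrable_const _).indicator hm) hi (fun ω => ?_)).trans h1
        simp only [indicator, mem_ofPred_eq]
        have h3 := XX_add_le (ρ := ρ) hU hV hUV (k : ℝ≥0) ω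
        have h4 := XX_mem (ρ := ρ) hU (k : ℝ≥0) ω
        split_ifs with h5
        · have h6 : XX ρ V (k : ℝ≥0) ω ≤ 1 - XX ρ U (k : ℝ≥0) ω := by linarith
          nlinarith [h5.1, h5.2]
        · exact mul_nonneg h4.1 (by linarith)
      have hsub : A ⊆ (({ω | XX ρ U k ω ≤ x} ∩ {ω | 0 < XX ρ U (k + 1) ω}) ∪
          ({ω | XX ρ V k ω ≤ x} ∩ {ω | 0 < XX ρ V (k + 1) ω})) ∪
          {ω | x < XX ρ U k ω ∧ x < XX ρ V k ω} := by
        intro ω hω
        have e1 : τ (Nat.pair (k + 1) 0) = (k : ℝ≥0) + 1 := by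
          rw [τ_pair]; push_cast; simp
        have h1 := hω (Nat.pair (k + 1) 0)
        rw [e1] at h1
        by_cases h2 : XX ρ U k ω ≤ x
        · exact Or.inl (Or.inl ⟨h2, h1.1⟩)
        by_cases h3 : XX ρ V k ω ≤ x
        · exact Or.inl (Or.inr ⟨h3, h1.2⟩)
        · exact Or.inr ⟨not_le.1 h2, not_le.1 h3⟩
      calc P.real A ≤ _ := measureReal_mono hsub
        _ ≤ _ := measureReal_union_le _ _
        _ ≤ (P.real ({ω | XX ρ U k ω ≤ x} ∩ {ω | 0 < XX ρ U (k + 1) ω}) +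
            P.real ({ω | XX ρ V k ω ≤ x} ∩ {ω | 0 < XX ρ V (k + 1) ω})) +
            P.real {ω | x < XX ρ U k ω ∧ x < XX ρ V k ω} := by
            gcongr; exact measureReal_union_le _ _
        _ ≤ (κ + κ) + Real.exp (-(rate Λ 2 1 * k)) / x ^ 2 := by
            gcongr
            · exact hone U hU
            · exact hone V hV
        _ = _ := by ring
    have hlim : Tendsto (fun k : ℕ => 2 * κ + Real.exp (-(rate Λ 2 1 * k)) / x ^ 2) atTop
        (𝓝 (2 * κ + 0 / x ^ 2)) := by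
      refine Tendsto.const_add _ (Tendsto.div_const ?_ _)
      refine Real.tendsto_exp_atBot.comp ?_
      exact tendsto_neg_atTop_atBot.comp (tendsto_natCast_atTop_atTop.const_mul_atTop hΛ)
    rw [zero_div, add_zero] at hlim
    exact ge_of_tendsto' hlim hk
  have hzero : P.real A ≤ 0 := by
    refine le_of_forall_pos_le_add (fun ε hε => ?_)
    have := hbound (ε / 2) (by positivity)
    linarith
  have hz : P A = 0 := by
    have h1 : P.real A = 0 := le_antisymm hzero measureReal_nonneg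
    rwa [measureReal_eq_zero_iff] at h1
  rw [ae_iff]
  simpa only [not_not] using hz

/-- bad grid event: a mass `≥ η` jumps to zero together with the other one -/
def Bad (ρ : ℝ≥0 → Ω → ProbabilityMeasure I) (U V : Set I) (η : ℝ) (M k : ℕ) : Set Ω :=
  ⋃ j ∈ Finset.range (M * (k + 1)), {ω | (η ≤ XX ρ U ((j : ℝ≥0) / (k + 1)) ω ∧
    XX ρ U ((j : ℝ≥0) / (k + 1) + 1 / (k + 1)) ω = 0) ∨ (η ≤ XX ρ V ((j : ℝ≥0) / (k + 1)) ω ∧
    XX ρ V ((j : ℝ≥0) / (k + 1) + 1 / (k + 1)) ω = 0)}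

theorem FVF.bad_null (h : FVF Λ P ρ 𝓕) (h1 : Λ {1} = 0) {U V : Set I}
    (hU : IsOpen U) (hV : IsOpen V) {η : ℝ} (hη0 : 0 < η) (hη1 : η < 1) (M : ℕ) :
    ∀ᵐ ω ∂P, ∃ k, ω ∉ Bad ρ U V η M k := by
  have hbound : ∀ κ : ℝ, 0 < κ → P.real (⋂ k, Bad ρ U V η M k) ≤ 2 * M * κ := by
    intro κ hκ
    obtain ⟨h0, hh0, hall⟩ := no_jump h1 hη0 hη1 hκ
    obtain ⟨k, hk⟩ : ∃ k : ℕ, (1 : ℝ) / (k + 1) < h0 := exists_nat_one_div_lt hh0
    obtain ⟨n, hn⟩ := hall (1 / ((k : ℝ) + 1)) (by positivity) hk.le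
    refine (measureReal_mono (iInter_subset _ k)).trans ?_
    have hone : ∀ (W : Set I), IsOpen W → ∀ s : ℝ≥0,
        P.real ({ω | η ≤ XX ρ W s ω} ∩ {ω | XX ρ W (s + 1 / (k + 1)) ω = 0})
          ≤ κ * (1 / ((k : ℝ) + 1)) := by
      intro W hW s
      have hG : MeasurableSet[𝓕 s] {ω | η ≤ XX ρ W s ω} := (h.XX_meas hW s) measurableSet_Ici
      have h2 := h.nj hη1 (by positivity : (0 : ℝ) < 1 / ((k : ℝ) + 1)) hn hW hG (fun ω hω => hω)
      have h3 : (1 / ((k : ℝ) + 1)).toNNReal = 1 / ((k : ℝ≥0) + 1) := by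
        have : (1 / ((k : ℝ) + 1)) = ((1 / ((k : ℝ≥0) + 1) : ℝ≥0) : ℝ) := by push_cast; rfl
        rw [this, Real.toNNReal_coe]
      rw [h3] at h2
      refine h2.trans ?_
      have h4 : P.real {ω | η ≤ XX ρ W s ω} ≤ 1 := measureReal_le_one
      have h5 : 0 ≤ κ * (1 / ((k : ℝ) + 1)) := by positivity
      nlinarith
    calc P.real (Bad ρ U V η M k)
        ≤ ∑ j ∈ Finset.range (M * (k + 1)), P.real {ω | (η ≤ XX ρ U ((j : ℝ≥0) / (k + 1)) ω ∧
          XX ρ U ((j : ℝ≥0) / (k + 1) + 1 / (k + 1)) ω = 0) ∨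
          (η ≤ XX ρ V ((j : ℝ≥0) / (k + 1)) ω ∧
          XX ρ V ((j : ℝ≥0) / (k + 1) + 1 / (k + 1)) ω = 0)} :=
          measureReal_biUnion_finset_le _ _
      _ ≤ ∑ _j ∈ Finset.range (M * (k + 1)), 2 * (κ * (1 / ((k : ℝ) + 1))) := by
          refine Finset.sum_le_sum (fun j _ => ?_)
          have h2 := hone U hU ((j : ℝ≥0) / (k + 1))
          have h3 := hone V hV ((j : ℝ≥0) / (k + 1))
          have h4 : P.real {ω | η ≤ XX ρ U ((j : ℝ≥0) / (k + 1)) ω ∧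
              XX ρ U ((j : ℝ≥0) / (k + 1) + 1 / (k + 1)) ω = 0} ≤ κ * (1 / ((k : ℝ) + 1)) := h2
          have h5 : P.real {ω | η ≤ XX ρ V ((j : ℝ≥0) / (k + 1)) ω ∧
              XX ρ V ((j : ℝ≥0) / (k + 1) + 1 / (k + 1)) ω = 0} ≤ κ * (1 / ((k : ℝ) + 1)) := h3
          exact (measureReal_union_le _ _).trans ((add_le_add h4 h5).trans (by linarith))
      _ = 2 * M * κ := by
          rw [Finset.sum_const, Finset.card_range, nsmul_eq_mul]
          push_cast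
          have : (k : ℝ) + 1 ≠ 0 := by positivity
          field_simp
  have hzero : P.real (⋂ k, Bad ρ U V η M k) ≤ 0 := by
    refine le_of_forall_pos_le_add (fun ε hε => ?_)
    have h2 := hbound (ε / (2 * M + 1)) (by positivity)
    have h3 : 2 * (M : ℝ) * (ε / (2 * M + 1)) ≤ ε := by
      rw [mul_div_assoc', div_le_iff₀ (by positivity)]
      nlinarith
    linarith
  have hz : P (⋂ k, Bad ρ U V η M k) = 0 := by
    have h2 : P.real (⋂ k, Bad ρ U V η M k) = 0 := le_antisymm hzero measureReal_nonneg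
    rwa [measureReal_eq_zero_iff] at h2
  rw [ae_iff]
  refine measure_mono_null (fun ω hω => ?_) hz
  simp only [mem_ofPred_eq, not_exists, not_not] at hω
  exact mem_iInter.2 hω

omit [IsProbabilityMeasure P] [IsFiniteMeasure Λ] in
lemma XX_eq {U : Set I} (hU : IsOpen U) (t : ℝ≥0) (ω : Ω) :
    XX ρ U t ω = (ρ t ω : Measure I).real U := by
  unfold XX mass ind
  rw [integral_indicator_const _ hU.measurableSet, smul_eq_mul, mul_one]

lemma XX_pos_iff {U : Set I} (hU : IsOpen U) (t : ℝ≥0) (ω : Ω) :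
    0 < XX ρ U t ω ↔ (ρ t ω : Measure I) U ≠ 0 := by
  rw [XX_eq hU]
  constructor
  · intro h h0
    rw [measureReal_def, h0] at h
    simp at h
  · intro h
    rw [measureReal_def]
    exact ENNReal.toReal_pos h (measure_ne_top _ _)

lemma XX_zero_iff {U : Set I} (hU : IsOpen U) (t : ℝ≥0) (ω : Ω) :
    XX ρ U t ω = 0 ↔ (ρ t ω : Measure I) U = 0 := by
  have h1 := XX_pos_iff (ρ := ρ) hU t ω
  have h2 := (XX_mem (ρ := ρ) hU t ω).1
  constructor
  · intro h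
    by_contra hne
    exact absurd h (h1.2 hne).ne'
  · intro h
    by_contra hne
    exact (h1.1 (lt_of_le_of_ne h2 (Ne.symm hne))) h

/-- right lower semicontinuity -/
lemma right_lsc {p : ℝ≥0 → ProbabilityMeasure I}
    (hr : ∀ t, ContinuousWithinAt p (Ici t) t) {U : Set I} (hU : IsOpen U) {t : ℝ≥0}
    (ht : (p t : Measure I) U ≠ 0) : ∀ᶠ s in 𝓝[>] t, (p s : Measure I) U ≠ 0 := by
  have h1 : Tendsto p (𝓝[>] t) (𝓝 (p t)) := (hr t).tendsto.mono_left
    (nhdsWithin_mono t Ioi_subset_Ici_self)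
  have h2 := ProbabilityMeasure.le_liminf_measure_open_of_tendsto h1 hU
  have h3 : 0 < liminf (fun s => (p s : Measure I) U) (𝓝[>] t) :=
    lt_of_lt_of_le (pos_iff_ne_zero.2 ht) h2
  exact (eventually_lt_of_lt_liminf h3).mono (fun s hs => hs.ne')

end process

/-- last time at which `U` has positive mass -/
noncomputable def alive (p : ℝ≥0 → ProbabilityMeasure I) (U : Set I) : ℝ≥0∞ :=
  ⨆ (s : ℝ≥0) (_ : (p s : Measure I) U ≠ 0), (s : ℝ≥0∞)

/-- good path for the pair -/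
structure GoodPair (p : ℝ≥0 → ProbabilityMeasure I) (U V : Set I) : Prop where
  absU : ∀ n r, τ n ≤ r → (p (τ n) : Measure I) U = 0 → (p r : Measure I) U = 0
  absV : ∀ n r, τ n ≤ r → (p (τ n) : Measure I) V = 0 → (p r : Measure I) V = 0
  nsurv : ¬ ∀ n, (p (τ n) : Measure I) U ≠ 0 ∧ (p (τ n) : Measure I) V ≠ 0
  nbad : ∀ q M : ℕ, ∃ k : ℕ, ∀ j : ℕ, j < M * (k + 1) →
    (p ((j : ℝ≥0) / (k + 1) + 1 / (k + 1)) : Measure I) U = 0 →
    (p ((j : ℝ≥0) / (k + 1) + 1 / (k + 1)) : Measure I) V = 0 →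
    (p ((j : ℝ≥0) / (k + 1)) : Measure I).real U < 1 / (q + 2) ∧
    (p ((j : ℝ≥0) / (k + 1)) : Measure I).real V < 1 / (q + 2)
  nDD : ∀ M : ℕ, ¬ ∀ q : ℕ, ∃ n, τ n ≤ M ∧
    (0 < (p (τ n) : Measure I).real U ∧ (p (τ n) : Measure I).real U ≤ 1 / (q + 1)) ∧
    (0 < (p (τ n) : Measure I).real V ∧ (p (τ n) : Measure I).real V ≤ 1 / (q + 1))

lemma alive_zero_of_lt {p : ℝ≥0 → ProbabilityMeasure I} {U : Set I} {s : ℝ≥0}
    (h : alive p U < s) : (p s : Measure I) U = 0 := by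
  by_contra hne
  have : (s : ℝ≥0∞) ≤ alive p U := le_iSup₂ (f := fun (s : ℝ≥0) (_ : (p s : Measure I) U ≠ 0) =>
    (s : ℝ≥0∞)) s hne
  exact absurd h (not_lt.2 this)

lemma alive_zero_at {p : ℝ≥0 → ProbabilityMeasure I}
    (hr : ∀ t, ContinuousWithinAt p (Ici t) t) {U : Set I} (hU : IsOpen U) {e : ℝ≥0}
    (h : alive p U = e) : (p e : Measure I) U = 0 := by
  by_contra hne
  have h1 := right_lsc hr hU hne
  have h2 : ∀ᶠ s in 𝓝[>] e, e < s := self_mem_nhdsWithin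
  obtain ⟨s, hs1, hs2⟩ := (h1.and h2).exists
  exact hs1 (alive_zero_of_lt (by rw [h]; exact_mod_cast hs2))

lemma pos_of_lt_alive {p : ℝ≥0 → ProbabilityMeasure I} {U : Set I}
    (habs : ∀ n r, τ n ≤ r → (p (τ n) : Measure I) U = 0 → (p r : Measure I) U = 0) {n : ℕ}
    (h : (τ n : ℝ≥0∞) < alive p U) : (p (τ n) : Measure I) U ≠ 0 := by
  intro h0
  unfold alive at h
  rw [lt_iSup_iff] at h
  obtain ⟨s, hs⟩ := h
  rw [lt_iSup_iff] at hs
  obtain ⟨hs1, hs2⟩ := hs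
  exact hs1 (habs n s (by exact_mod_cast hs2.le) h0)

theorem pair_ne {p : ℝ≥0 → ProbabilityMeasure I}
    (hr : ∀ t, ContinuousWithinAt p (Ici t) t) {U V : Set I} (hU : IsOpen U) (hV : IsOpen V)
    (hg : GoodPair p U V) {e : ℝ≥0∞} (he : 0 < e) (h1 : alive p U = e) (h2 : alive p V = e) :
    False := by
  by_cases hetop : e = ∞
  · refine hg.nsurv (fun n => ⟨?_, ?_⟩)
    · exact pos_of_lt_alive hg.absU (by rw [h1, hetop]; exact ENNReal.coe_lt_top)
    · exact pos_of_lt_alive hg.absV (by rw [h2, hetop]; exact ENNReal.coe_lt_top)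
  lift e to ℝ≥0 using hetop
  have he' : 0 < e := by exact_mod_cast he
  obtain ⟨M, hM⟩ := exists_nat_gt e
  refine hg.nDD M (fun q => ?_)
  obtain ⟨k, hk⟩ := hg.nbad q M
  -- the grid point before `e`
  have hk1 : (0 : ℝ≥0) < (k : ℝ≥0) + 1 := by positivity
  obtain ⟨m, hm⟩ : ∃ m : ℕ, ⌈e * ((k : ℝ≥0) + 1)⌉₊ = m + 1 := by
    refine ⟨⌈e * ((k : ℝ≥0) + 1)⌉₊ - 1, ?_⟩
    have : 0 < ⌈e * ((k : ℝ≥0) + 1)⌉₊ := Nat.ceil_pos.2 (by positivity)
    omega
  have hm1 : (m : ℝ≥0) < e * ((k : ℝ≥0) + 1) := Nat.lt_ceil.1 (by omega)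
  have hm2 : e * ((k : ℝ≥0) + 1) ≤ (m : ℝ≥0) + 1 := by
    have := Nat.le_ceil (e * ((k : ℝ≥0) + 1))
    rw [hm] at this
    push_cast at this
    exact this
  have hs1 : (m : ℝ≥0) / (k + 1) < e := (div_lt_iff₀ hk1).2 hm1
  have hs2 : e ≤ (m : ℝ≥0) / (k + 1) + 1 / (k + 1) := by
    rw [← add_div]; exact (le_div_iff₀ hk1).2 hm2
  have hmM : m < M * (k + 1) := by
    have h3 : (m : ℝ≥0) < M * ((k : ℝ≥0) + 1) := hm1.trans (by gcongr)
    exact_mod_cast h3
  have hzero : ∀ (W : Set I), IsOpen W → alive p W = e →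
      (p ((m : ℝ≥0) / (k + 1) + 1 / (k + 1)) : Measure I) W = 0 := by
    intro W hW hal
    rcases eq_or_lt_of_le hs2 with h3 | h3
    · rw [← h3]; exact alive_zero_at hr hW hal
    · exact alive_zero_of_lt (by rw [hal]; exact_mod_cast h3)
  obtain ⟨h3, h4⟩ := hk m hmM (hzero U hU h1) (hzero V hV h2)
  have hτ : τ (Nat.pair m k) = (m : ℝ≥0) / (k + 1) := τ_pair m k
  have hpU : (p (τ (Nat.pair m k)) : Measure I) U ≠ 0 :=
    pos_of_lt_alive hg.absU (by rw [h1, hτ]; exact_mod_cast hs1)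
  have hpV : (p (τ (Nat.pair m k)) : Measure I) V ≠ 0 :=
    pos_of_lt_alive hg.absV (by rw [h2, hτ]; exact_mod_cast hs1)
  have hq : (1 : ℝ) / (q + 2) ≤ 1 / (q + 1) := by gcongr; norm_num
  refine ⟨Nat.pair m k, ?_, ⟨?_, ?_⟩, ⟨?_, ?_⟩⟩
  · rw [hτ]; exact (hs1.trans hM).le
  · rw [measureReal_def]; exact ENNReal.toReal_pos hpU (measure_ne_top _ _)
  · rw [hτ]; exact h3.le.trans hq
  · rw [measureReal_def]; exact ENNReal.toReal_pos hpV (measure_ne_top _ _)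
  · rw [hτ]; exact h4.le.trans hq

section process

variable {Ω : Type*} [mΩ : MeasurableSpace Ω] {P : Measure Ω}
  {Λ : Measure ℝ} {ρ : ℝ≥0 → Ω → ProbabilityMeasure I}
  [IsProbabilityMeasure P] [IsFiniteMeasure Λ] {𝓕 : Filtration ℝ≥0 mΩ}

/-- absorption for all real times -/
lemma FVF.absorb_all (h : FVF Λ P ρ 𝓕) {U : Set I} (hU : IsOpen U) :
    ∀ᵐ ω ∂P, ∀ n r, τ n ≤ r → (ρ (τ n) ω : Measure I) U = 0 → (ρ r ω : Measure I) U = 0 := by
  have h1 : ∀ᵐ ω ∂P, ∀ n m, τ n ≤ τ m → XX ρ U (τ n) ω = 0 → XX ρ U (τ m) ω = 0 := by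
    rw [ae_all_iff]; intro n
    rw [ae_all_iff]; intro m
    filter_upwards [h.absorb (blim_ind hU) (ind_sq U) (fun _ => τ n) (τ m)] with ω hω hr h0
    refine hω (fun q => ⟨0, hr, ?_⟩)
    show XX ρ U (τ n) ω ≤ _
    rw [h0]; positivity
  filter_upwards [h1] with ω hω n r hnr h0
  by_contra hne
  rcases eq_or_lt_of_le hnr with h2 | h2
  · rw [← h2] at hne; exact hne h0
  have h3 := right_lsc (p := fun t => ρ t ω) (fun t => h.right_cont ω t) hU hne
  -- a rational time slightly to the right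
  rw [eventually_nhdsWithin_iff, Metric.eventually_nhds_iff] at h3
  obtain ⟨δ, hδ, h4⟩ := h3
  obtain ⟨k, hk⟩ := exists_nat_one_div_lt hδ
  have hk1 : (0 : ℝ≥0) < (k : ℝ≥0) + 1 := by positivity
  set m := ⌊r * ((k : ℝ≥0) + 1)⌋₊ + 1 with hm
  have hm1 : r < (m : ℝ≥0) / (k + 1) := by
    rw [lt_div_iff₀ hk1, hm]
    push_cast
    exact Nat.lt_floor_add_one _
  have hm2 : (m : ℝ≥0) / (k + 1) ≤ r + 1 / (k + 1) := by
    rw [div_le_iff₀ hk1, add_mul, one_div, inv_mul_cancel₀ hk1.ne', hm]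
    push_cast
    gcongr
    exact Nat.floor_le (by positivity)
  have hdist : dist ((m : ℝ≥0) / (k + 1)) r < δ := by
    rw [NNReal.dist_eq, abs_of_nonneg (by
      have : (r : ℝ) ≤ (((m : ℝ≥0) / (k + 1) : ℝ≥0) : ℝ) := by exact_mod_cast hm1.le
      linarith)]
    have h5 : (((m : ℝ≥0) / (k + 1) : ℝ≥0) : ℝ) ≤ r + 1 / ((k : ℝ) + 1) := by
      have h6 : (((m : ℝ≥0) / (k + 1) : ℝ≥0) : ℝ) ≤ ((r + 1 / (k + 1) : ℝ≥0) : ℝ) := by
        exact_mod_cast hm2
      refine h6.trans (le_of_eq ?_)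
      push_cast
      rfl
    linarith
  have h5 := h4 hdist (mem_Ioi.2 hm1)
  have h6 := hω n (Nat.pair m k) (by rw [τ_pair]; exact (h2.trans hm1).le)
    ((XX_zero_iff hU _ _).2 h0)
  rw [τ_pair, XX_zero_iff hU] at h6
  exact h5 h6

theorem FVF.goodPair (h : FVF Λ P ρ 𝓕) (hD : Down Λ) (hΛ : 0 < rate Λ 2 1) (h1 : Λ {1} = 0)
    {U V : Set I} (hU : IsOpen U) (hV : IsOpen V) (hUV : Disjoint U V) :
    ∀ᵐ ω ∂P, GoodPair (fun t => ρ t ω) U V := by
  have hb : ∀ᵐ ω ∂P, ∀ q M : ℕ, ∃ k, ω ∉ Bad ρ U V (1 / ((q : ℝ) + 2)) M k := by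
    rw [ae_all_iff]; intro q
    rw [ae_all_iff]; intro M
    refine h.bad_null h1 hU hV (by positivity) ?_ M
    rw [div_lt_one (by positivity)]
    have : (0 : ℝ) ≤ q := Nat.cast_nonneg q
    linarith
  have hd : ∀ᵐ ω ∂P, ∀ M : ℕ, ω ∉ DD ρ U V M := by
    rw [ae_all_iff]; intro M
    rw [ae_iff]
    exact measure_mono_null (fun ω hω => not_not.1 hω) (h.DD_null hD hU hV hUV M)
  filter_upwards [h.absorb_all hU, h.absorb_all hV, h.survive_null hD hΛ hU hV hUV, hb, hd]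
    with ω a1 a2 a3 a4 a5
  refine ⟨a1, a2, ?_, ?_, ?_⟩
  · intro hall
    exact a3 (fun n => ⟨(XX_pos_iff hU _ _).2 (hall n).1, (XX_pos_iff hV _ _).2 (hall n).2⟩)
  · intro q M
    obtain ⟨k, hk⟩ := a4 q M
    refine ⟨k, fun j hj h2 h3 => ?_⟩
    unfold Bad at hk
    simp only [mem_iUnion, Finset.mem_range, mem_ofPred_eq, not_exists, not_or, not_and] at hk
    obtain ⟨h4, h5⟩ := hk j hj
    constructor
    · by_contra hcon
      push Not at hcon
      rw [← XX_eq hU] at hcon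
      exact h4 hcon ((XX_zero_iff hU _ _).2 h2)
    · by_contra hcon
      push Not at hcon
      rw [← XX_eq hV] at hcon
      exact h5 hcon ((XX_zero_iff hV _ _).2 h3)
  · intro M hall
    refine a5 M ?_
    unfold DD
    rw [mem_iInter]
    intro q
    rw [mem_iUnion]
    obtain ⟨n, hn⟩ := hall q
    refine ⟨n, hn.1, ?_, ?_⟩
    · rw [XX_eq hU]; exact hn.2.1
    · rw [XX_eq hV]; exact hn.2.2

end process

end Pool.Agent.H971.EX
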