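import Pool.Agent.H971.EX.Mono
import Pool.Agent.H971.FV.Gen

/-! The rates of the block counting chain (helper file). -/

open MeasureTheory Filter Topology Set Pool.Agent.H971.FV
open scoped ENNReal NNReal

namespace Pool.Agent.H971.EX

/-- The rate `b → j` given that the proportion `u` of the blocks merges. -/
noncomputable def ru (u : ℝ) (b : ℕ) : ℕ → ℝ
  | 0 => 0
  | j + 1 => (b.choose j) * u ^ (b - j) * (1 - u) ^ j

@[simp] lemma ru_zero (u : ℝ) (b : ℕ) : ru u b 0 = 0 := rfl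
lemma ru_succ (u : ℝ) (b j : ℕ) : ru u b (j + 1) = (b.choose j) * u ^ (b - j) * (1 - u) ^ j := rfl

/-- The rates of the jumps with `u > 0`. -/
noncomputable def rateJ (Λ : Measure ℝ) (b j : ℕ) : ℝ := ∫ u, ru u b j ∂(nu Λ)

lemma ru_nonneg {u : ℝ} (h0 : 0 ≤ u) (h1 : u ≤ 1) (b j : ℕ) : 0 ≤ ru u b j := by
  cases j with
  | zero => exact le_rfl
  | succ j => rw [ru_succ]; have : 0 ≤ 1 - u := by linarith
              positivity

lemma ru_rec (u : ℝ) {b i : ℕ} (hi : i ≤ b) :
    ru u (b + 1) (i + 1) = u * ru u b (i + 1) + (1 - u) * ru u b i := by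
  cases i with
  | zero => simp only [ru_succ, ru_zero, Nat.choose_zero_right, Nat.sub_zero]; ring
  | succ i =>
    simp only [ru_succ, Nat.choose_succ_succ, Nat.cast_add]
    have h1 : b + 1 - (i + 1) = b - i := by omega
    have h2 : b - i = (b - (i + 1)) + 1 := by omega
    rw [h1, h2]
    ring

lemma ru_RR (u : ℝ) (b : ℕ) {i : ℕ} (hi : i ≤ b) :
    RR (ru u) b i - RR (ru u) (b + 1) i = (1 - u) * ru u b i := by
  induction i with
  | zero => simp [RR]
  | succ i ih =>
    have h1 := ih (by omega)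
    unfold RR at h1 ⊢
    rw [Finset.sum_range_succ _ (i + 1), Finset.sum_range_succ _ (i + 1),
      ru_rec u (by omega : i ≤ b)]
    linarith

lemma ru_M2 {u : ℝ} (h0 : 0 ≤ u) (h1 : u ≤ 1) {b i : ℕ} (hi : i ≤ b) :
    (b + 1) * ((1 - u) * ru u b i) ≤ (i + 1) * ru u (b + 1) (i + 1) := by
  have h1' : 0 ≤ 1 - u := by linarith
  cases i with
  | zero => simp only [ru_zero, mul_zero]
            exact mul_nonneg (by positivity) (ru_nonneg h0 h1 _ _)
  | succ i =>
    simp only [ru_succ]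
    have h2 : b + 1 - (i + 1) = b - i := by omega
    rw [h2]
    have h3 : ((b : ℝ) + 1) * (b.choose i) = ((b + 1).choose (i + 1)) * (i + 1) := by
      exact_mod_cast Nat.add_one_mul_choose_eq b i
    have h4 : 0 ≤ u ^ (b - i) * (1 - u) ^ (i + 1) := by positivity
    have h5 : (0 : ℝ) ≤ ((b + 1).choose (i + 1) : ℝ) := by positivity
    push_cast
    calc ((b : ℝ) + 1) * ((1 - u) * ((b.choose i) * u ^ (b - i) * (1 - u) ^ i))
        = (((b : ℝ) + 1) * (b.choose i)) * (u ^ (b - i) * (1 - u) ^ (i + 1)) := by ring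
      _ = ((b + 1).choose (i + 1)) * (i + 1) * (u ^ (b - i) * (1 - u) ^ (i + 1)) := by rw [h3]
      _ ≤ ((b + 1).choose (i + 1)) * (i + 1 + 1) * (u ^ (b - i) * (1 - u) ^ (i + 1)) := by
          gcongr; linarith
      _ = _ := by ring

lemma sum_ru_le {u : ℝ} (h0 : 0 ≤ u) (h1 : u ≤ 1) (b : ℕ) :
    ∑ j ∈ Finset.range b, ru u b j ≤ 1 := by
  have h1' : 0 ≤ 1 - u := by linarith
  have h2 : ∑ j ∈ Finset.range b, ru u b j ≤ ∑ j ∈ Finset.range (b + 1 + 1), ru u b j :=
    Finset.sum_le_sum_of_subset_of_nonneg (by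
      intro x hx; rw [Finset.mem_range] at *; omega) (fun j _ _ => ru_nonneg h0 h1 b j)
  refine h2.trans ?_
  rw [Finset.sum_range_succ', ru_zero, add_zero]
  have h3 := add_pow (1 - u) u b
  rw [show (1 - u) + u = 1 by ring, one_pow] at h3
  rw [h3]
  refine le_of_eq (Finset.sum_congr rfl (fun j _ => ?_))
  rw [ru_succ]; ring

lemma Hn_sub_le {b j : ℕ} (hj : j ≤ b) : Hn b - Hn j ≤ (b - j) / (j + 1) := by
  induction b, hj using Nat.le_induction with
  | base => simp
  | succ b hb ih =>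
    rw [Hn_succ]
    have h1 : (1 : ℝ) / (b + 1) ≤ 1 / (j + 1) := by
      apply one_div_le_one_div_of_le (by positivity)
      have : (j : ℝ) ≤ b := by exact_mod_cast hb
      linarith
    have h2 : ((b + 1 : ℕ) - j : ℝ) / (j + 1) = (b - j) / (j + 1) + 1 / (j + 1) := by
      push_cast; ring
    rw [h2]; linarith

lemma ru_var {u : ℝ} (h0 : 0 ≤ u) (h1 : u ≤ 1 / 2) (b : ℕ) :
    ∑ j ∈ Finset.range b, ru u b j * (Hn b - Hn j) ^ 2 ≤ 4 * u ^ 2 := by
  have h1' : 0 ≤ 1 - u := by linarith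
  -- termwise
  have hterm : ∀ j ∈ Finset.range b, (1 - u) ^ 2 * (ru u b j * (Hn b - Hn j) ^ 2)
      ≤ u ^ 2 * ((1 - u) ^ (j + 1) * u ^ (b - (j + 1)) * (b.choose (j + 1))) := by
    intro j hj
    rw [Finset.mem_range] at hj
    cases j with
    | zero => simp only [ru_zero, zero_mul, mul_zero]; positivity
    | succ j =>
      rw [ru_succ]
      have e1 : b - j = 2 + (b - (j + 1 + 1)) := by omega
      have e2 : ((b.choose (j + 1) : ℝ)) * (j + 1) = (b.choose j) * (b - j) := by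
        have := Nat.choose_succ_right_eq b j
        have h : ((b.choose (j + 1) : ℝ)) * ((j + 1 : ℕ) : ℝ) = (b.choose j) * ((b - j : ℕ) : ℝ) := by
          exact_mod_cast this
        rw [Nat.cast_sub (by omega)] at h
        push_cast at h
        exact h
      have e3 : ((b.choose (j + 2) : ℝ)) * (j + 2) = (b.choose (j + 1)) * (b - (j + 1)) := by
        have := Nat.choose_succ_right_eq b (j + 1)
        have h : ((b.choose (j + 1 + 1) : ℝ)) * ((j + 1 + 1 : ℕ) : ℝ)
            = (b.choose (j + 1)) * ((b - (j + 1) : ℕ) : ℝ) := by exact_mod_cast this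
        rw [Nat.cast_sub (by omega)] at h
        push_cast at h
        have h' : (j : ℝ) + 1 + 1 = j + 2 := by ring
        rw [h'] at h
        exact h
      have hbj : (0 : ℝ) ≤ b - (j + 1) := by
        have : ((j + 1 : ℕ) : ℝ) ≤ b := by exact_mod_cast hj.le
        push_cast at this; linarith
      have hd0 : 0 ≤ Hn b - Hn (j + 1) := by linarith [Hn_mono hj.le]
      have hd : Hn b - Hn (j + 1) ≤ (b - (j + 1)) / (j + 2) := by
        have := Hn_sub_le hj.le
        push_cast at this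
        rw [show (j : ℝ) + 1 + 1 = j + 2 by ring] at this
        exact this
      have hj1 : (0 : ℝ) < j + 1 := by positivity
      have hj2 : (0 : ℝ) < j + 2 := by positivity
      -- the key inequality
      have hkey : (b.choose j : ℝ) * (Hn b - Hn (j + 1)) ^ 2 ≤ b.choose (j + 2) := by
        have s1 : (Hn b - Hn (j + 1)) ^ 2 ≤ ((b - (j + 1)) / (j + 2)) ^ 2 := by
          apply pow_le_pow_left₀ hd0 hd
        have s2 : (((b : ℝ) - (j + 1)) / (j + 2)) ^ 2 ≤ (b - j) * (b - (j + 1)) / ((j + 1) * (j + 2)) := by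
          rw [div_pow, div_le_div_iff₀ (by positivity) (by positivity)]
          have : ((b : ℝ) - (j + 1)) * ((j + 1) * (j + 2)) ≤ (b - j) * (j + 2) ^ 2 := by nlinarith
          nlinarith
        have s3 : (b.choose j : ℝ) * ((b - j) * (b - (j + 1)) / ((j + 1) * (j + 2)))
            = b.choose (j + 2) := by
          rw [mul_div_assoc', div_eq_iff (by positivity)]
          calc (b.choose j : ℝ) * ((b - j) * (b - (j + 1)))
              = ((b.choose j : ℝ) * (b - j)) * (b - (j + 1)) := by ring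
            _ = ((b.choose (j + 1) : ℝ) * (j + 1)) * (b - (j + 1)) := by rw [e2]
            _ = ((b.choose (j + 1) : ℝ) * (b - (j + 1))) * (j + 1) := by ring
            _ = (b.choose (j + 2) : ℝ) * (j + 2) * (j + 1) := by rw [e3]
            _ = _ := by ring
        calc (b.choose j : ℝ) * (Hn b - Hn (j + 1)) ^ 2
            ≤ (b.choose j : ℝ) * ((b - j) * (b - (j + 1)) / ((j + 1) * (j + 2))) :=
              mul_le_mul_of_nonneg_left (s1.trans s2) (by positivity)
          _ = _ := s3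
      have h4 : 0 ≤ u ^ (b - (j + 1 + 1)) * (1 - u) ^ (j + 2) * u ^ 2 := by positivity
      calc (1 - u) ^ 2 * ((b.choose j) * u ^ (b - j) * (1 - u) ^ j * (Hn b - Hn (j + 1)) ^ 2)
          = ((b.choose j : ℝ) * (Hn b - Hn (j + 1)) ^ 2) *
            (u ^ (b - (j + 1 + 1)) * (1 - u) ^ (j + 2) * u ^ 2) := by rw [e1, pow_add]; ring
        _ ≤ (b.choose (j + 2)) * (u ^ (b - (j + 1 + 1)) * (1 - u) ^ (j + 2) * u ^ 2) :=
            mul_le_mul_of_nonneg_right hkey h4
        _ = _ := by ring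
  have hsum : (1 - u) ^ 2 * ∑ j ∈ Finset.range b, ru u b j * (Hn b - Hn j) ^ 2 ≤ u ^ 2 := by
    rw [Finset.mul_sum]
    refine (Finset.sum_le_sum hterm).trans ?_
    rw [← Finset.mul_sum]
    have h3 := add_pow (1 - u) u b
    rw [show (1 - u) + u = 1 by ring, one_pow, Finset.sum_range_succ'] at h3
    have h5 : (0 : ℝ) ≤ (1 - u) ^ 0 * u ^ (b - 0) * (b.choose 0) := by positivity
    have h6 : ∑ j ∈ Finset.range b, (1 - u) ^ (j + 1) * u ^ (b - (j + 1)) * (b.choose (j + 1)) ≤ 1 := by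
      linarith
    have : 0 ≤ u ^ 2 := by positivity
    nlinarith
  have h7 : (0 : ℝ) ≤ ∑ j ∈ Finset.range b, ru u b j * (Hn b - Hn j) ^ 2 :=
    Finset.sum_nonneg (fun j _ => mul_nonneg (ru_nonneg h0 (by linarith) b j) (sq_nonneg _))
  have h8 : (1 : ℝ) / 4 ≤ (1 - u) ^ 2 := by nlinarith
  nlinarith

section measure

variable {Λ : Measure ℝ} [IsFiniteMeasure Λ]

lemma ru_measurable (b j : ℕ) : Measurable (fun u => ru u b j) := by
  cases j with
  | zero => exact measurable_const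
  | succ j => simp only [ru_succ]; fun_prop

lemma ru_bound {u : ℝ} (hu : u ∈ Ioc (0 : ℝ) 1) {b j : ℕ} (hj : j < b) :
    |ru u b j| ≤ (2 ^ b : ℝ) * u ^ 2 := by
  have h0 := hu.1.le
  have h1 : 0 ≤ 1 - u := by linarith [hu.2]
  rw [abs_of_nonneg (ru_nonneg h0 hu.2 b j)]
  cases j with
  | zero => simp only [ru_zero]; positivity
  | succ j =>
    rw [ru_succ]
    have h2 : ((b.choose j : ℕ) : ℝ) ≤ 2 ^ b := by exact_mod_cast Nat.choose_le_two_pow b j
    have h3 : u ^ (b - j) ≤ u ^ 2 := pow_le_pow_of_le_one h0 hu.2 (by omega)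
    have h4 : (1 - u) ^ j ≤ 1 := pow_le_one₀ h1 (by linarith)
    calc (b.choose j : ℝ) * u ^ (b - j) * (1 - u) ^ j ≤ 2 ^ b * u ^ 2 * 1 := by gcongr
      _ = _ := by ring

lemma ru_integrable {b j : ℕ} (hj : j < b) : Integrable (fun u => ru u b j) (nu Λ) :=
  integrable_nu (ru_measurable b j) (C := 2 ^ b) (fun _ hu => ru_bound hu hj)

lemma ae_nu (Λ : Measure ℝ) : ∀ᵐ u ∂(nu Λ), u ∈ Ioc (0 : ℝ) 1 := by
  unfold nu
  refine (withDensity_absolutelyContinuous _ _).ae_le ?_
  exact ae_restrict_mem measurableSet_Ioc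

lemma rateJ_nonneg (b j : ℕ) : 0 ≤ rateJ Λ b j :=
  integral_nonneg_of_ae (by
    filter_upwards [ae_nu Λ] with u hu
    exact ru_nonneg hu.1.le hu.2 b j)

lemma rateJ_zero (Λ : Measure ℝ) (b : ℕ) : rateJ Λ b 0 = 0 := by simp [rateJ]

lemma RR_rateJ {b i : ℕ} (hi : i < b) : RR (rateJ Λ) b i = ∫ u, RR (ru u) b i ∂(nu Λ) := by
  unfold RR rateJ
  rw [integral_finsetSum]
  intro j hj
  rw [Finset.mem_range] at hj
  exact ru_integrable (by omega)

lemma RR_integrable {b i : ℕ} (hi : i < b) : Integrable (fun u => RR (ru u) b i) (nu Λ) := by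
  unfold RR
  refine integrable_finsetSum _ (fun j hj => ?_)
  rw [Finset.mem_range] at hj
  exact ru_integrable (by omega)

lemma rateJ_diff {b i : ℕ} (hi : i < b) :
    RR (rateJ Λ) b i - RR (rateJ Λ) (b + 1) i = ∫ u, (1 - u) * ru u b i ∂(nu Λ) := by
  rw [RR_rateJ hi, RR_rateJ (by omega), ← integral_sub (RR_integrable hi) (RR_integrable (by omega))]
  refine integral_congr_ae (Eventually.of_forall (fun u => ?_))
  exact ru_RR u b hi.le

lemma rateJ_M1 (b i : ℕ) (hi : i < b) : RR (rateJ Λ) (b + 1) i ≤ RR (rateJ Λ) b i := by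
  have h := rateJ_diff (Λ := Λ) hi
  have h2 : 0 ≤ ∫ u, (1 - u) * ru u b i ∂(nu Λ) := integral_nonneg_of_ae (by
    filter_upwards [ae_nu Λ] with u hu
    exact mul_nonneg (by linarith [hu.2]) (ru_nonneg hu.1.le hu.2 b i))
  linarith

lemma rateJ_M2 (b i : ℕ) (hi : i < b) :
    (b + 1) * (RR (rateJ Λ) b i - RR (rateJ Λ) (b + 1) i) ≤ (i + 1) * rateJ Λ (b + 1) (i + 1) := by
  rw [rateJ_diff hi]
  unfold rateJ
  rw [← integral_const_mul, ← integral_const_mul]
  have hint : Integrable (fun u => (1 - u) * ru u b i) (nu Λ) :=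
    integrable_nu (by have := ru_measurable b i; fun_prop) (C := 2 ^ b) (fun u hu => by
      rw [abs_mul, abs_of_nonneg (by linarith [hu.2] : (0 : ℝ) ≤ 1 - u)]
      have h1 := ru_bound hu hi
      have h2 : 1 - u ≤ 1 := by linarith [hu.1]
      have h3 := abs_nonneg (ru u b i)
      nlinarith [hu.2])
  refine integral_mono_ae (hint.const_mul _)
    ((ru_integrable (by omega : i + 1 < b + 1)).const_mul _) ?_
  filter_upwards [ae_nu Λ] with u hu
  exact ru_M2 hu.1.le hu.2 hi.le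

lemma integral_nu_le {g : ℝ → ℝ} (_hg : Measurable g) {C : ℝ} (hC : 0 ≤ C)
    (h : ∀ u ∈ Ioc (0 : ℝ) 1, |g u| ≤ C * u ^ 2) : ∫ u, g u ∂(nu Λ) ≤ C * Λ.real univ := by
  have h1 : ∫ u, g u ∂(nu Λ) = ∫ u in Ioc (0 : ℝ) 1, (u ^ 2)⁻¹ * g u ∂Λ := by
    unfold nu
    rw [integral_withDensity_eq_integral_toReal_smul (by fun_prop)
      (Eventually.of_forall (fun _ => ENNReal.ofReal_lt_top))]
    refine setIntegral_congr_fun measurableSet_Ioc (fun u hu => ?_)
    simp only [smul_eq_mul]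
    rw [ENNReal.toReal_ofReal (inv_nonneg.2 (sq_nonneg u))]
  rw [h1]
  have h2 : ∀ u ∈ Ioc (0 : ℝ) 1, ‖(u ^ 2)⁻¹ * g u‖ ≤ C := by
    intro u hu
    have h0 : 0 < u ^ 2 := pow_pos hu.1 2
    rw [norm_mul, Real.norm_eq_abs, Real.norm_eq_abs, abs_of_nonneg (inv_nonneg.2 h0.le),
      inv_mul_le_iff₀ h0]
    have := h u hu
    linarith
  have h3 := norm_setIntegral_le_of_norm_le_const (μ := Λ) (measure_lt_top Λ (Ioc (0 : ℝ) 1)) h2
  have h4 : Λ.real (Ioc 0 1) ≤ Λ.real univ := measureReal_mono (subset_univ _)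
  calc ∫ u in Ioc (0 : ℝ) 1, (u ^ 2)⁻¹ * g u ∂Λ
      ≤ ‖∫ u in Ioc (0 : ℝ) 1, (u ^ 2)⁻¹ * g u ∂Λ‖ := le_abs_self _
    _ ≤ C * Λ.real (Ioc 0 1) := h3
    _ ≤ C * Λ.real univ := mul_le_mul_of_nonneg_left h4 hC

/-- variance rateJ of the chain with merging proportions at most `1/2` -/
lemma rateJ_var (hΛ : Λ (Ioi (1 / 2)) = 0) (b : ℕ) :
    ∑ j ∈ Finset.range b, rateJ Λ b j * (Hn b - Hn j) ^ 2 ≤ 4 * Λ.real univ := by
  have hae : ∀ᵐ u ∂(nu Λ), u ≤ 1 / 2 := by
    unfold nu
    refine (withDensity_absolutelyContinuous _ _).ae_le ?_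
    refine ae_restrict_of_ae ?_
    rw [ae_iff]
    exact measure_mono_null (fun a (ha : ¬ a ≤ 1 / 2) => not_le.1 ha) hΛ
  have h1 : ∑ j ∈ Finset.range b, rateJ Λ b j * (Hn b - Hn j) ^ 2
      = ∫ u, ∑ j ∈ Finset.range b, ru u b j * (Hn b - Hn j) ^ 2 ∂(nu Λ) := by
    rw [integral_finsetSum]
    · exact Finset.sum_congr rfl (fun j _ => by rw [integral_mul_const]; rfl)
    · intro j hj
      rw [Finset.mem_range] at hj
      exact (ru_integrable hj).mul_const _
  have h2 : ∫ u, ∑ j ∈ Finset.range b, ru u b j * (Hn b - Hn j) ^ 2 ∂(nu Λ)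
      ≤ ∫ u, 4 * u ^ 2 ∂(nu Λ) := by
    refine integral_mono_ae ?_ ?_ ?_
    · refine integrable_finsetSum _ (fun j hj => ?_)
      rw [Finset.mem_range] at hj
      exact (ru_integrable hj).mul_const _
    · exact integrable_nu (by fun_prop) (C := 4) (fun u _ => by rw [abs_of_nonneg (by positivity)])
    · filter_upwards [hae, ae_nu Λ] with u hu hu2
      exact ru_var hu2.1.le hu b
  rw [h1]
  refine h2.trans ?_
  exact integral_nu_le (by fun_prop) (by norm_num)
    (fun u _ => by rw [abs_of_nonneg (by positivity)])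

lemma nu_add (Λ Λ' : Measure ℝ) : nu (Λ + Λ') = nu Λ + nu Λ' := by
  unfold nu
  rw [Measure.restrict_add, withDensity_add_measure]

lemma rateJ_split {b j : ℕ} (hj : j < b) :
    rateJ Λ b j = rateJ (Λ.restrict (Iic (1 / 2))) b j + rateJ (Λ.restrict (Ioi (1 / 2))) b j := by
  unfold rateJ
  rw [← integral_add_measure (ru_integrable hj) (ru_integrable hj), ← nu_add]
  have : Λ.restrict (Iic (1 / 2)) + Λ.restrict (Ioi (1 / 2)) = Λ := by
    have h := Measure.restrict_add_restrict_compl (μ := Λ) (measurableSet_Iic (a := (1 / 2 : ℝ)))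
    rwa [compl_Iic] at h
  rw [this]

lemma rateJ_le {b j : ℕ} (hj : j < b) : rateJ (Λ.restrict (Iic (1 / 2))) b j ≤ rateJ Λ b j := by
  rw [rateJ_split (Λ := Λ) hj]
  linarith [rateJ_nonneg (Λ := Λ.restrict (Ioi (1 / 2))) b j]

lemma rateJ_excess (b : ℕ) :
    ∑ j ∈ Finset.range b, (rateJ Λ b j - rateJ (Λ.restrict (Iic (1 / 2))) b j)
      ≤ 4 * Λ.real univ := by
  have h1 : ∑ j ∈ Finset.range b, (rateJ Λ b j - rateJ (Λ.restrict (Iic (1 / 2))) b j)
      = ∑ j ∈ Finset.range b, rateJ (Λ.restrict (Ioi (1 / 2))) b j := by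
    refine Finset.sum_congr rfl (fun j hj => ?_)
    rw [Finset.mem_range] at hj
    rw [rateJ_split (Λ := Λ) hj]; ring
  rw [h1]
  have h2 : ∑ j ∈ Finset.range b, rateJ (Λ.restrict (Ioi (1 / 2))) b j
      = ∫ u, ∑ j ∈ Finset.range b, ru u b j ∂(nu (Λ.restrict (Ioi (1 / 2)))) := by
    unfold rateJ
    rw [integral_finsetSum]
    intro j hj
    rw [Finset.mem_range] at hj
    exact ru_integrable hj
  rw [h2]
  have hae : ∀ᵐ u ∂(nu (Λ.restrict (Ioi (1 / 2)))), 1 / 2 < u := by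
    unfold nu
    refine (withDensity_absolutelyContinuous _ _).ae_le ?_
    exact ae_restrict_of_ae (ae_restrict_mem measurableSet_Ioi)
  have h3 : ∫ u, ∑ j ∈ Finset.range b, ru u b j ∂(nu (Λ.restrict (Ioi (1 / 2))))
      ≤ ∫ u, 4 * u ^ 2 ∂(nu (Λ.restrict (Ioi (1 / 2)))) := by
    refine integral_mono_ae ?_ ?_ ?_
    · refine integrable_finsetSum _ (fun j hj => ?_)
      rw [Finset.mem_range] at hj
      exact ru_integrable hj
    · exact integrable_nu (by fun_prop) (C := 4) (fun u _ => by rw [abs_of_nonneg (by positivity)])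
    · filter_upwards [hae, ae_nu (Λ.restrict (Ioi (1 / 2)))] with u hu hu2
      have := sum_ru_le hu2.1.le hu2.2 b
      nlinarith
  refine h3.trans ?_
  have h4 := integral_nu_le (Λ := Λ.restrict (Ioi (1 / 2))) (g := fun u => 4 * u ^ 2)
    (by fun_prop) (C := 4) (by norm_num) (fun u _ => by rw [abs_of_nonneg (by positivity)])
  refine h4.trans ?_
  have h5 : (Λ.restrict (Ioi (1 / 2))).real univ ≤ Λ.real univ := by
    rw [measureReal_restrict_apply MeasurableSet.univ]
    exact measureReal_mono (subset_univ _)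
  linarith

/-- Kingman part of the rates -/
noncomputable def kr (b j : ℕ) : ℝ := if j + 1 = b then (b.choose 2 : ℝ) else 0

lemma kr_nonneg (b j : ℕ) : 0 ≤ kr b j := by unfold kr; split_ifs <;> positivity

lemma kr_zero (b : ℕ) : kr b 0 = 0 := by
  unfold kr; split_ifs with h
  · rw [← h]; simp
  · rfl

/-- The rates of the block counting chain of the `Λ`-coalescent. -/
noncomputable def rate (Λ : Measure ℝ) (b j : ℕ) : ℝ := rateJ Λ b j + Λ.real {0} * kr b j

lemma sum_kr {f : ℕ → ℝ} {b i : ℕ} (hi : i < b) :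
    ∑ j ∈ Finset.range (i + 1), kr b j * f j = if i + 1 = b then (b.choose 2 : ℝ) * f i else 0 := by
  have h1 : ∀ j ∈ Finset.range i, kr b j * f j = 0 := by
    intro j hj
    rw [Finset.mem_range] at hj
    unfold kr
    rw [if_neg (by omega), zero_mul]
  rw [Finset.sum_range_succ, Finset.sum_eq_zero h1, zero_add]
  unfold kr
  split_ifs <;> simp

lemma RR_kr {b i : ℕ} (hi : i < b) : RR kr b i = if i + 1 = b then (b.choose 2 : ℝ) else 0 := by
  have := sum_kr (f := fun _ => 1) hi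
  simpa [RR] using this

lemma RR_rate (Λ : Measure ℝ) (b i : ℕ) :
    RR (rate Λ) b i = RR (rateJ Λ) b i + Λ.real {0} * RR kr b i := by
  unfold RR rate
  rw [Finset.sum_add_distrib, Finset.mul_sum]

lemma rate_nonneg (b j : ℕ) : 0 ≤ rate Λ b j :=
  add_nonneg (rateJ_nonneg b j) (mul_nonneg measureReal_nonneg (kr_nonneg b j))

lemma rate_zero (Λ : Measure ℝ) (b : ℕ) : rate Λ b 0 = 0 := by
  unfold rate; rw [rateJ_zero, kr_zero]; simp

lemma rate_M1 (b i : ℕ) (hi : i < b) : RR (rate Λ) (b + 1) i ≤ RR (rate Λ) b i := by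
  rw [RR_rate, RR_rate, RR_kr (by omega : i < b + 1), RR_kr hi, if_neg (by omega)]
  have h1 := rateJ_M1 (Λ := Λ) b i hi
  have h2 : (0 : ℝ) ≤ Λ.real {0} * (if i + 1 = b then (b.choose 2 : ℝ) else 0) :=
    mul_nonneg measureReal_nonneg (by split_ifs <;> positivity)
  linarith

lemma rate_M2 (b i : ℕ) (hi : i < b) :
    (b + 1) * (RR (rate Λ) b i - RR (rate Λ) (b + 1) i) ≤ (i + 1) * rate Λ (b + 1) (i + 1) := by
  rw [RR_rate, RR_rate, RR_kr (by omega : i < b + 1), RR_kr hi, if_neg (by omega : ¬ i + 1 = b + 1)]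
  have h1 := rateJ_M2 (Λ := Λ) b i hi
  have h2 : ((b : ℝ) + 1) * (if i + 1 = b then (b.choose 2 : ℝ) else 0)
      ≤ (i + 1) * kr (b + 1) (i + 1) := by
    unfold kr
    split_ifs with h3 h4
    · subst h3
      have e1 : (((i + 1 + 1 : ℕ).choose 2 : ℕ) : ℝ) = (i + 2) * (i + 1) / 2 := by
        rw [Nat.cast_choose_two]; push_cast; ring
      have e2 : (((i + 1 : ℕ).choose 2 : ℕ) : ℝ) = (i + 1) * i / 2 := by
        rw [Nat.cast_choose_two]; push_cast; ring
      rw [e1, e2]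
      push_cast
      have : (0 : ℝ) ≤ i := Nat.cast_nonneg i
      nlinarith [mul_nonneg this this]
    · omega
    · rw [mul_zero]; positivity
    · simp
  have h3 := mul_le_mul_of_nonneg_left h2 (measureReal_nonneg (μ := Λ) (s := {0}))
  unfold rate
  nlinarith

lemma rate_drift : ∀ i j, i ≤ j → Q (rate Λ) Hn j ≤ Q (rate Λ) Hn i := by
  have h : Antitone (fun b => Q (rate Λ) Hn b) := antitone_nat_of_succ_le (fun b =>
    drift_mono (rate_zero Λ) (fun b j _ => rate_nonneg b j) rate_M2 b)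
  exact fun i j hij => h hij

lemma kr_var (b : ℕ) : ∑ j ∈ Finset.range b, kr b j * (Hn b - Hn j) ^ 2 ≤ 1 := by
  cases b with
  | zero => simp
  | succ b =>
    rw [sum_kr (f := fun j => (Hn (b + 1) - Hn j) ^ 2) (by omega : b < b + 1), if_pos rfl,
      Hn_succ, add_sub_cancel_left, Nat.cast_choose_two]
    push_cast
    rw [div_pow, one_pow, mul_one_div, div_le_one (by positivity)]
    have : (0 : ℝ) ≤ b := Nat.cast_nonneg b
    nlinarith

/-- variance rate of the chain with merging proportions at most `1/2` -/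
lemma rate_var (hΛ : Λ (Ioi (1 / 2)) = 0) (b : ℕ) :
    ∑ j ∈ Finset.range b, rate Λ b j * (Hn b - Hn j) ^ 2 ≤ 5 * Λ.real univ := by
  have h1 : ∑ j ∈ Finset.range b, rate Λ b j * (Hn b - Hn j) ^ 2
      = ∑ j ∈ Finset.range b, rateJ Λ b j * (Hn b - Hn j) ^ 2
        + Λ.real {0} * ∑ j ∈ Finset.range b, kr b j * (Hn b - Hn j) ^ 2 := by
    rw [Finset.mul_sum, ← Finset.sum_add_distrib]
    exact Finset.sum_congr rfl (fun j _ => by unfold rate; ring)
  rw [h1]
  have h2 := rateJ_var hΛ b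
  have h3 := mul_le_mul_of_nonneg_left (kr_var b) (measureReal_nonneg (μ := Λ) (s := {0}))
  have h4 : Λ.real {0} ≤ Λ.real univ := measureReal_mono (subset_univ _)
  linarith

lemma restrict_zero (Λ : Measure ℝ) : (Λ.restrict (Iic (1 / 2))).real {0} = Λ.real {0} := by
  rw [measureReal_restrict_apply (measurableSet_singleton 0)]
  congr 1
  ext x; simp only [mem_inter_iff, mem_singleton_iff, mem_Iic]
  constructor
  · exact fun h => h.1
  · rintro rfl; norm_num

lemma rate_le {b j : ℕ} (hj : j < b) : rate (Λ.restrict (Iic (1 / 2))) b j ≤ rate Λ b j := by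
  unfold rate
  rw [restrict_zero]
  linarith [rateJ_le (Λ := Λ) hj]

lemma rate_excess (b : ℕ) :
    ∑ j ∈ Finset.range b, (rate Λ b j - rate (Λ.restrict (Iic (1 / 2))) b j)
      ≤ 4 * Λ.real univ := by
  have h1 : ∑ j ∈ Finset.range b, (rate Λ b j - rate (Λ.restrict (Iic (1 / 2))) b j)
      = ∑ j ∈ Finset.range b, (rateJ Λ b j - rateJ (Λ.restrict (Iic (1 / 2))) b j) := by
    refine Finset.sum_congr rfl (fun j _ => ?_)
    unfold rate
    rw [restrict_zero]; ring
  rw [h1]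
  exact rateJ_excess b

end measure

end Pool.Agent.H971.EX
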