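import Pool.Agent.H971.EX.Dual

/-! Stopping arguments (helper file). -/

open MeasureTheory ProbabilityTheory Filter Topology Set Pool.Agent.H971.FV
open scoped ENNReal NNReal unitInterval

namespace Pool.Agent.H971.EX

section stop

variable {Ω : Type*} [mΩ : MeasurableSpace Ω] {𝓕 : Filtration ℝ≥0 mΩ}

/-- first entrance decomposition, finite sets of times -/
lemma stop_finset {ν P : Measure Ω} (F : Finset ℝ≥0) (B : ℝ≥0 → Set Ω)
    (hB : ∀ s, MeasurableSet[𝓕 s] (B s)) (θ : ℝ≥0∞)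
    (h : ∀ s, ∀ G, MeasurableSet[𝓕 s] G → G ⊆ B s → ν G ≤ θ * P G) :
    ν (⋃ s ∈ F, B s) ≤ θ * P (⋃ s ∈ F, B s) := by
  classical
  set A : ℝ≥0 → Set Ω := fun s => B s \ ⋃ s' ∈ F.filter (· < s), B s' with hA
  have hAm : ∀ s, MeasurableSet[𝓕 s] (A s) := by
    intro s
    refine MeasurableSet.diff (hB s) ?_
    refine Finset.measurableSet_biUnion _ (fun s' hs' => ?_)
    rw [Finset.mem_filter] at hs'
    exact (𝓕.mono hs'.2.le) _ (hB s')
  have hAm' : ∀ s, MeasurableSet (A s) := fun s => 𝓕.le s _ (hAm s)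
  have hU : ⋃ s ∈ F, B s = ⋃ s ∈ F, A s := by
    ext ω
    simp only [mem_iUnion, exists_prop]
    constructor
    · rintro ⟨s, hs, hω⟩
      -- minimal time
      set F' := F.filter (fun s => ω ∈ B s) with hF'
      have hne : F'.Nonempty := ⟨s, by rw [hF', Finset.mem_filter]; exact ⟨hs, hω⟩⟩
      have hmin : F'.min' hne ∈ F.filter (fun s => ω ∈ B s) := F'.min'_mem hne
      rw [Finset.mem_filter] at hmin
      refine ⟨F'.min' hne, hmin.1, hmin.2, ?_⟩
      simp only [mem_iUnion, exists_prop, not_exists, not_and]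
      intro s' hs' hω'
      rw [Finset.mem_filter] at hs'
      have h1 : s' ∈ F' := by rw [hF', Finset.mem_filter]; exact ⟨hs'.1, hω'⟩
      have h2 := F'.min'_le s' h1
      exact absurd hs'.2 (not_lt.2 h2)
    · rintro ⟨s, hs, hω⟩
      exact ⟨s, hs, hω.1⟩
  have hdisj : (↑F : Set ℝ≥0).PairwiseDisjoint A := by
    intro s hs s' hs' hne
    rw [Function.onFun, Set.disjoint_left]
    intro ω h1 h2
    rcases lt_or_gt_of_ne hne with h3 | h3
    · refine h2.2 ?_
      simp only [mem_iUnion, exists_prop]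
      exact ⟨s, Finset.mem_filter.2 ⟨hs, h3⟩, h1.1⟩
    · refine h1.2 ?_
      simp only [mem_iUnion, exists_prop]
      exact ⟨s', Finset.mem_filter.2 ⟨hs', h3⟩, h2.1⟩
  rw [hU, measure_biUnion_finset hdisj (fun s _ => hAm' s),
    measure_biUnion_finset hdisj (fun s _ => hAm' s), Finset.mul_sum]
  exact Finset.sum_le_sum (fun s _ => h s (A s) (hAm s) sdiff_subset)

/-- first entrance decomposition, sequences of times -/
lemma stop_seq {ν P : Measure Ω} (τ : ℕ → ℝ≥0) (B : ℝ≥0 → Set Ω)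
    (hB : ∀ s, MeasurableSet[𝓕 s] (B s)) (θ : ℝ≥0∞)
    (h : ∀ s, ∀ G, MeasurableSet[𝓕 s] G → G ⊆ B s → ν G ≤ θ * P G) :
    ν (⋃ n, B (τ n)) ≤ θ * P (⋃ n, B (τ n)) := by
  classical
  have h1 : ⋃ n, B (τ n) = ⋃ N : ℕ, ⋃ s ∈ (Finset.range N).image τ, B s := by
    ext ω
    simp only [mem_iUnion, Finset.mem_image, Finset.mem_range, exists_prop]
    constructor
    · rintro ⟨n, hn⟩
      exact ⟨n + 1, τ n, ⟨n, by omega, rfl⟩, hn⟩
    · rintro ⟨N, s, ⟨n, _, rfl⟩, hs⟩
      exact ⟨n, hs⟩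
  have hmono : Monotone (fun N : ℕ => ⋃ s ∈ (Finset.range N).image τ, B s) := by
    intro N M hNM
    refine biUnion_subset_biUnion_left ?_
    intro s hs
    simp only [Finset.coe_image, Finset.coe_range, mem_image, mem_Iio] at hs ⊢
    obtain ⟨n, hn, rfl⟩ := hs
    exact ⟨n, by omega, rfl⟩
  rw [h1, hmono.measure_iUnion]
  refine iSup_le (fun N => ?_)
  refine (stop_finset _ B hB θ h).trans ?_
  gcongr
  exact subset_iUnion (fun N : ℕ => ⋃ s ∈ (Finset.range N).image τ, B s) N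

/-- countable partition of the condition -/
lemma part_le {ν P : Measure Ω} {m : MeasurableSpace Ω} (hm : m ≤ mΩ) (C : ℕ → Set Ω)
    (hC : ∀ i, MeasurableSet[m] (C i)) (θ : ℝ≥0∞)
    (h : ∀ i, ∀ G, MeasurableSet[m] G → G ⊆ C i → ν G ≤ θ * P G) {G : Set Ω}
    (hG : MeasurableSet[m] G) (hsub : G ⊆ ⋃ i, C i) : ν G ≤ θ * P G := by
  have hd : ∀ i, MeasurableSet[m] (G ∩ disjointed C i) := fun i =>
    hG.inter (MeasurableSet.disjointed hC i)
  have h1 : G = ⋃ i, (G ∩ disjointed C i) := by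
    rw [← inter_iUnion, iUnion_disjointed, inter_eq_left.2 hsub]
  have hdisj : Pairwise (Function.onFun Disjoint (fun i => G ∩ disjointed C i)) := by
    intro i j hij
    exact (disjoint_disjointed C hij).mono inter_subset_right inter_subset_right
  rw [h1, measure_iUnion hdisj (fun i => hm _ (hd i)), measure_iUnion hdisj (fun i => hm _ (hd i)),
    ← ENNReal.tsum_mul_left]
  exact ENNReal.tsum_le_tsum (fun i => h i _ (hd i)
    (inter_subset_right.trans (disjointed_subset C i)))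

end stop

section process

variable {Ω : Type*} [mΩ : MeasurableSpace Ω] {P : Measure Ω}
  {Λ : Measure ℝ} {ρ : ℝ≥0 → Ω → ProbabilityMeasure I}
  [IsProbabilityMeasure P] [IsFiniteMeasure Λ] {𝓕 : Filtration ℝ≥0 mΩ}

/-- martingale property of masses -/
lemma FVF.mart_mass (h : FVF Λ P ρ 𝓕) {φ : I → ℝ} (hφ : BLim φ) (hφ2 : ∀ x, φ x * φ x = φ x)
    {s r : ℝ≥0} (hsr : s ≤ r) {G : Set Ω} (hG : MeasurableSet[𝓕 s] G) :
    ∫ ω in G, mass ρ φ r ω ∂P = ∫ ω in G, mass ρ φ s ω ∂P := by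
  have h1 := h.yy_integral hG hφ hφ2 1 (t := ((r - s : ℝ≥0) : ℝ)) (NNReal.coe_nonneg _)
  have h2 : ∀ u : ℝ, Q (rate Λ) (fun j => yy P ρ φ s G j u) 1 = 0 := by
    intro u
    simp [Q, rate_zero]
  simp only [h2, intervalIntegral.integral_zero, add_zero] at h1
  rw [yy_zero] at h1
  unfold yy at h1
  rw [Real.toNNReal_coe, add_tsub_cancel_of_le hsr] at h1
  simpa using h1

lemma FVF.mass_integrable (h : FVF Λ P ρ 𝓕) {φ : I → ℝ} (hφ : BLim φ) (t : ℝ≥0)
    (G : Set Ω) : Integrable (fun ω => mass ρ φ t ω) (P.restrict G) := by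
  simpa using h.mass_pow_integrable hφ t 1 G

/-- mass zero is absorbing: fixed times -/
lemma FVF.absorb (h : FVF Λ P ρ 𝓕) {φ : I → ℝ} (hφ : BLim φ) (hφ2 : ∀ x, φ x * φ x = φ x)
    (τ : ℕ → ℝ≥0) (r : ℝ≥0) :
    ∀ᵐ ω ∂P, (∀ q : ℕ, ∃ n, τ n ≤ r ∧ mass ρ φ (τ n) ω ≤ 1 / (q + 1)) → mass ρ φ r ω = 0 := by
  set ν : Measure Ω := P.withDensity (fun ω => ENNReal.ofReal (mass ρ φ r ω)) with hν
  have hmr := h.mass_meas' hφ r
  have hkey : ∀ q : ℕ, ν (⋃ n, {ω | τ n ≤ r ∧ mass ρ φ (τ n) ω ≤ 1 / (q + 1)})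
      ≤ ENNReal.ofReal (1 / (q + 1)) := by
    intro q
    have h1 := stop_seq (𝓕 := 𝓕) (ν := ν) (P := P) τ
      (fun s => {ω | s ≤ r ∧ mass ρ φ s ω ≤ 1 / (q + 1)}) (fun s => ?_)
      (ENNReal.ofReal (1 / (q + 1))) (fun s G hG hsub => ?_)
    · refine h1.trans ?_
      calc ENNReal.ofReal (1 / (q + 1)) * P _ ≤ ENNReal.ofReal (1 / (q + 1)) * 1 := by
            gcongr; exact prob_le_one
        _ = _ := mul_one _
    · by_cases hs : s ≤ r
      · simp only [hs, true_and]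
        exact (h.mass_meas hφ s) measurableSet_Iic
      · simp only [hs, false_and]
        exact @MeasurableSet.empty Ω (𝓕 s)
    · have hGm := 𝓕.le s G hG
      by_cases hs : s ≤ r
      · have h2 : ν G = ENNReal.ofReal (∫ ω in G, mass ρ φ r ω ∂P) := by
          rw [hν, withDensity_apply _ hGm,
            ofReal_integral_eq_lintegral_ofReal (h.mass_integrable hφ r G)
              (Eventually.of_forall (fun ω => (mass_mem hφ r ω).1))]
        rw [h2, h.mart_mass hφ hφ2 hs hG]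
        have h3 : ∫ ω in G, mass ρ φ s ω ∂P ≤ 1 / (q + 1) * P.real G := by
          have h4 : ∫ ω in G, mass ρ φ s ω ∂P ≤ ∫ _ω in G, (1 / ((q : ℝ) + 1)) ∂P := by
            refine setIntegral_mono_on (h.mass_integrable hφ s G) (integrable_const _) hGm
              (fun ω hω => (hsub hω).2)
          rw [setIntegral_const, smul_eq_mul, mul_comm] at h4
          exact h4
        refine (ENNReal.ofReal_le_ofReal h3).trans ?_
        rw [ENNReal.ofReal_mul (by positivity), ofReal_measureReal]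
      · have : G = ∅ := by
          refine eq_empty_of_subset_empty (fun ω hω => hs (hsub hω).1)
        rw [this]; simp
  have hzero : ν {ω | ∀ q : ℕ, ∃ n, τ n ≤ r ∧ mass ρ φ (τ n) ω ≤ 1 / (q + 1)} = 0 := by
    refine le_antisymm ?_ zero_le
    have h1 : Tendsto (fun q : ℕ => ENNReal.ofReal (1 / ((q : ℝ) + 1))) atTop (𝓝 0) := by
      rw [← ENNReal.ofReal_zero]
      exact ENNReal.tendsto_ofReal tendsto_one_div_add_atTop_nhds_zero_nat
    refine ge_of_tendsto' h1 (fun q => (measure_mono ?_).trans (hkey q))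
    intro ω hω
    obtain ⟨n, hn⟩ := hω q
    exact mem_iUnion.2 ⟨n, hn⟩
  rw [hν, withDensity_apply_eq_zero' (by fun_prop)] at hzero
  rw [ae_iff]
  refine measure_mono_null ?_ hzero
  intro ω hω
  simp only [mem_ofPred_eq, Classical.not_imp] at hω
  refine ⟨?_, hω.1⟩
  simp only [mem_ofPred_eq, ne_eq, ENNReal.ofReal_eq_zero, not_le]
  exact lt_of_le_of_ne (mass_mem hφ r ω).1 (Ne.symm hω.2)

end process

end Pool.Agent.H971.EX
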