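import Pool.Agent.H971.EX.Path

/-! Finiteness of the support at positive times (helper file). -/

open MeasureTheory ProbabilityTheory Filter Topology Set Pool.Agent.H971.FV
open scoped ENNReal NNReal unitInterval

namespace Pool.Agent.H971.EX

/-- weights of the `p`-random subset -/
noncomputable def wt (T : Finset ℕ) (p : ℝ) (S : Finset ℕ) : ℝ :=
  p ^ S.card * (1 - p) ^ (T \ S).card

lemma sum_wt {T B : Finset ℕ} (hB : B ⊆ T) (p : ℝ) :
    ∑ S ∈ T.powerset, (if B ⊆ S then wt T p S else 0) = p ^ B.card := by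
  have h := Finset.prod_add (fun _ => p) (fun i => if i ∈ B then 0 else 1 - p) T
  have h1 : ∏ i ∈ T, (p + if i ∈ B then 0 else 1 - p) = p ^ B.card := by
    have h2 : ∀ i ∈ T, (p + if i ∈ B then 0 else 1 - p) = if i ∈ B then p else 1 := by
      intro i _; split_ifs <;> ring
    rw [Finset.prod_congr rfl h2, Finset.prod_ite, Finset.prod_const, Finset.prod_const_one,
      mul_one, Finset.filter_mem_eq_inter, Finset.inter_eq_right.2 hB]
  rw [← h1, h]
  refine Finset.sum_congr rfl (fun S hS => ?_)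
  rw [Finset.prod_const]
  split_ifs with hBS
  · unfold wt
    congr 1
    rw [Finset.prod_congr rfl (g := fun _ => 1 - p), Finset.prod_const]
    intro i hi
    rw [if_neg]
    intro hiB
    exact (Finset.mem_sdiff.1 hi).2 (hBS hiB)
  · obtain ⟨i, hi, hiS⟩ := Finset.not_subset.1 hBS
    rw [Finset.prod_eq_zero (i := i) (Finset.mem_sdiff.2 ⟨hB hi, hiS⟩) (by rw [if_pos hi]),
      mul_zero]

lemma sum_wt_one (T : Finset ℕ) (p : ℝ) : ∑ S ∈ T.powerset, wt T p S = 1 := by
  have := sum_wt (Finset.empty_subset T) p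
  simpa using this

lemma wt_nonneg (T S : Finset ℕ) {p : ℝ} (h0 : 0 ≤ p) (h1 : p ≤ 1) : 0 ≤ wt T p S := by
  unfold wt
  have : 0 ≤ 1 - p := by linarith
  positivity

/-- cells -/
noncomputable def cell (k : ℕ) (x : I) : ℕ := ⌊(2 : ℝ) ^ k * (x : ℝ)⌋₊

/-- number of cells -/
def cells (k : ℕ) : Finset ℕ := Finset.range (2 ^ k + 1)

lemma cell_mem (k : ℕ) (x : I) : cell k x ∈ cells k := by
  unfold cell cells
  rw [Finset.mem_range, Nat.lt_succ_iff]
  have h1 : (2 : ℝ) ^ k * (x : ℝ) ≤ 2 ^ k := by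
    have := x.2.2
    have h2 : (0 : ℝ) < 2 ^ k := by positivity
    nlinarith
  calc ⌊(2 : ℝ) ^ k * (x : ℝ)⌋₊ ≤ ⌊(2 : ℝ) ^ k⌋₊ := Nat.floor_le_floor h1
    _ = ⌊((2 ^ k : ℕ) : ℝ)⌋₊ := by push_cast; rfl
    _ = 2 ^ k := Nat.floor_natCast _

/-- indicator of a union of cells -/
noncomputable def ci (k : ℕ) (S : Finset ℕ) : I → ℝ := fun x => if cell k x ∈ S then 1 else 0

lemma ci_sq (k : ℕ) (S : Finset ℕ) (x : I) : ci k S x * ci k S x = ci k S x := by
  unfold ci; split_ifs <;> simp

lemma blim_ci (k : ℕ) (S : Finset ℕ) : BLim (ci k S) := by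
  have hone : ∀ a : ℕ, BLim (fun x => if cell k x = a then (1 : ℝ) else 0) := by
    intro a
    have hU : IsOpen {x : I | (2 : ℝ) ^ k * (x : ℝ) < a} :=
      isOpen_lt (by fun_prop) continuous_const
    have hV : IsOpen {x : I | (2 : ℝ) ^ k * (x : ℝ) < a + 1} :=
      isOpen_lt (by fun_prop) continuous_const
    have h1 := (blim_cind hU).mul (blim_ind hV)
    have h2 : (fun x => if cell k x = a then (1 : ℝ) else 0)
        = fun x => cind {x : I | (2 : ℝ) ^ k * (x : ℝ) < a} x
          * ind {x : I | (2 : ℝ) ^ k * (x : ℝ) < a + 1} x := by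
      funext x
      unfold cell cind ind
      have h3 : ⌊(2 : ℝ) ^ k * (x : ℝ)⌋₊ = a ↔
          (a : ℝ) ≤ (2 : ℝ) ^ k * (x : ℝ) ∧ (2 : ℝ) ^ k * (x : ℝ) < a + 1 := by
        have hx0 : (0 : ℝ) ≤ (2 : ℝ) ^ k * (x : ℝ) := mul_nonneg (by positivity) x.2.1
        exact Nat.floor_eq_iff hx0
      by_cases h4 : (2 : ℝ) ^ k * (x : ℝ) < a
      · rw [if_neg (by rw [h3]; intro h; linarith [h.1])]
        simp [indicator, h4]
      · by_cases h5 : (2 : ℝ) ^ k * (x : ℝ) < a + 1
        · rw [if_pos (h3.2 ⟨not_lt.1 h4, h5⟩)]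
          simp [indicator, h4, h5]
        · rw [if_neg (by rw [h3]; exact fun h => h5 h.2)]
          simp [indicator, h4, h5]
    rw [h2]; exact h1
  induction S using Finset.induction_on with
  | empty =>
    have : ci k ∅ = fun x => 1 - (1 : ℝ) := by funext x; simp [ci]
    rw [this]; exact BLim.one.compl
  | insert a S ha ih =>
    have : ci k (insert a S) = fun x => 1 - (1 - (if cell k x = a then (1 : ℝ) else 0)) *
        (1 - ci k S x) := by
      funext x
      unfold ci
      by_cases h1 : cell k x = a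
      · simp [h1]
      · by_cases h2 : cell k x ∈ S
        · simp [h1, h2]
        · simp [h1, h2]
    rw [this]
    exact ((hone a).compl.mul ih.compl).compl

/-- the average over the random subset -/
lemma sum_ci (k : ℕ) (p : ℝ) (x : I) :
    ∑ S ∈ (cells k).powerset, wt (cells k) p S * ci k S x = p := by
  have h1 := sum_wt (T := cells k) (B := {cell k x})
    (Finset.singleton_subset_iff.2 (cell_mem k x)) p
  rw [Finset.card_singleton, pow_one] at h1
  refine Eq.trans (Finset.sum_congr rfl (fun S _ => ?_)) h1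
  unfold ci
  simp only [Finset.singleton_subset_iff]
  split_ifs <;> simp

/-- Lebesgue measure of a union of cells -/
noncomputable def vol (k : ℕ) (S : Finset ℕ) : ℝ := ∫ y, ci k S y ∂(volume : Measure I)

lemma vol_nonneg (k : ℕ) (S : Finset ℕ) : 0 ≤ vol k S := (integral_mem (blim_ci k S) _).1

lemma sum_vol (k : ℕ) (p : ℝ) : ∑ S ∈ (cells k).powerset, wt (cells k) p S * vol k S = p := by
  have h1 : ∑ S ∈ (cells k).powerset, wt (cells k) p S * vol k S
      = ∫ y, ∑ S ∈ (cells k).powerset, wt (cells k) p S * ci k S y ∂(volume : Measure I) := by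
    rw [integral_finsetSum]
    · refine Finset.sum_congr rfl (fun S _ => ?_)
      rw [integral_const_mul]; rfl
    · intro S _
      exact (integrable_of_bdd (blim_ci k S).measurable (blim_ci k S).abs_le).const_mul _
  rw [h1]
  simp_rw [sum_ci]
  simp

lemma jensen (k : ℕ) {p : ℝ} (h0 : 0 ≤ p) (h1 : p ≤ 1) (m : ℕ) :
    p ^ m ≤ ∑ S ∈ (cells k).powerset, wt (cells k) p S * vol k S ^ m := by
  have := Real.pow_arith_mean_le_arith_mean_pow (cells k).powerset (wt (cells k) p) (vol k)
    (fun S _ => wt_nonneg _ S h0 h1) (sum_wt_one _ _) (fun S _ => vol_nonneg k S) m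
  rwa [sum_vol] at this

lemma S_sum {r : ℕ → ℕ → ℝ} (hr : ∀ b j, j < b → 0 ≤ r b j) {ι : Type*} (T : Finset ι)
    (c : ι → ℝ) (g : ι → ℕ → ℝ) (n : ℕ) {t : ℝ} (ht : 0 ≤ t) :
    S r (fun j => ∑ i ∈ T, c i * g i j) n t = ∑ i ∈ T, c i * S r (g i) n t := by
  classical
  induction T using Finset.induction_on with
  | empty => simp only [Finset.sum_empty]; exact S_const hr 0 n ht
  | insert a T ha ih =>
    simp_rw [Finset.sum_insert ha]
    rw [S_add hr (fun j => c a * g a j) (fun j => ∑ i ∈ T, c i * g i j) n ht,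
      S_smul hr (g a) (c a) n ht, ih]

section process

variable {Ω : Type*} [mΩ : MeasurableSpace Ω] {P : Measure Ω}
  {Λ : Measure ℝ} {ρ : ℝ≥0 → Ω → ProbabilityMeasure I}
  [IsProbabilityMeasure P] [IsFiniteMeasure Λ] {𝓕 : Filtration ℝ≥0 mΩ}

lemma FVF.cells_le (h : FVF Λ P ρ 𝓕) (hi : ∀ᵐ ω ∂P, (ρ 0 ω : Measure I) = volume) {p κ t : ℝ}
    (ht : 0 ≤ t) (hp0 : 0 ≤ p) (hp1 : p ≤ 1) (hp : ∀ n, 1 - κ ≤ S (rate Λ) (fun m => p ^ m) n t)
    (k : ℕ) : 1 - κ ≤ ∑ S ∈ (cells k).powerset, wt (cells k) p S *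
      P.real {ω | mass ρ (ci k S) t.toNNReal ω = 1} := by
  have h1 : ∀ n, 1 - κ ≤ ∑ S ∈ (cells k).powerset, wt (cells k) p S *
      yy P ρ (ci k S) 0 univ n t := by
    intro n
    refine (hp n).trans ((S_mono rate_hr (fun m _ => jensen k hp0 hp1 m) ht).trans ?_)
    rw [S_sum rate_hr (cells k).powerset (wt (cells k) p) (fun S m => vol k S ^ m) n ht]
    refine Finset.sum_le_sum (fun S _ => mul_le_mul_of_nonneg_left ?_ (wt_nonneg _ S hp0 hp1))
    refine h.dual_le (MeasurableSet.univ) (blim_ci k S) (ci_sq k S) (fun m _ => ?_) ht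
    rw [yy_zero, Measure.restrict_univ]
    have h2 : ∀ᵐ ω ∂P, mass ρ (ci k S) 0 ω ^ m = vol k S ^ m := by
      filter_upwards [hi] with ω hω
      unfold mass vol
      rw [hω]
    rw [integral_congr_ae h2, integral_const, probReal_univ, one_smul]
  have hT : Tendsto (fun n => ∑ S ∈ (cells k).powerset, wt (cells k) p S *
      yy P ρ (ci k S) 0 univ n t) atTop (𝓝 (∑ S ∈ (cells k).powerset, wt (cells k) p S *
      P.real {ω | mass ρ (ci k S) t.toNNReal ω = 1})) := by
    refine tendsto_finsetSum _ (fun S _ => ?_)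
    have h2 := (h.tendsto_yy (s := 0) (G := univ) MeasurableSet.univ (blim_ci k S) t).const_mul
      (wt (cells k) p S)
    simpa only [univ_inter, zero_add] using h2
  exact ge_of_tendsto' hT h1

/-- charged cells -/
noncomputable def charged (μ : Measure I) (k : ℕ) : Finset ℕ :=
  open Classical in (cells k).filter (fun a => μ {x | cell k x = a} ≠ 0)

lemma cell_meas (k : ℕ) : Measurable (cell k) := by
  unfold cell
  exact Nat.measurable_floor.comp (by fun_prop)

lemma mass_one_iff (k : ℕ) {S : Finset ℕ} (t : ℝ≥0) (ω : Ω) :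
    mass ρ (ci k S) t ω = 1 ↔ charged (ρ t ω : Measure I) k ⊆ S := by
  have hm : ∀ T : Set ℕ, MeasurableSet {x : I | cell k x ∈ T} := fun T =>
    cell_meas k (MeasurableSet.of_discrete (s := T))
  have h1 : mass ρ (ci k S) t ω = (ρ t ω : Measure I).real {x | cell k x ∈ (S : Set ℕ)} := by
    unfold mass
    rw [← integral_indicator_one (hm _)]
    refine integral_congr_ae (Eventually.of_forall (fun x => ?_))
    simp [ci, indicator]
  have h2 : (ρ t ω : Measure I).real {x | cell k x ∈ (S : Set ℕ)}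
      + (ρ t ω : Measure I).real {x | cell k x ∈ (S : Set ℕ)}ᶜ = 1 :=
    (measureReal_add_measureReal_compl (hm _)).trans probReal_univ
  have h3 : mass ρ (ci k S) t ω = 1 ↔ (ρ t ω : Measure I) {x | cell k x ∈ (S : Set ℕ)}ᶜ = 0 := by
    rw [← measureReal_eq_zero_iff, h1]
    constructor <;> intro h <;> linarith
  rw [h3]
  constructor
  · intro h a ha
    unfold charged at ha
    rw [Finset.mem_filter] at ha
    by_contra haS
    refine ha.2 (measure_mono_null ?_ h)
    intro x hx
    simp only [mem_ofPred_eq] at hx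
    simp only [mem_compl_iff, mem_ofPred_eq, Finset.mem_coe]
    rwa [hx]
  · intro h
    have h4 : {x : I | cell k x ∈ (S : Set ℕ)}ᶜ ⊆
        ⋃ a ∈ (cells k \ S), {x : I | cell k x = a} := by
      intro x hx
      simp only [mem_compl_iff, mem_ofPred_eq, Finset.mem_coe] at hx
      simp only [mem_iUnion, mem_ofPred_eq, exists_prop, exists_eq_right']
      exact Finset.mem_sdiff.2 ⟨cell_mem k x, hx⟩
    refine measure_mono_null h4 ?_
    refine (measure_biUnion_null_iff (Finset.countable_toSet _)).2 ?_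
    intro a ha
    rw [Finset.mem_coe, Finset.mem_sdiff] at ha
    by_contra hne
    exact ha.2 (h (by unfold charged; rw [Finset.mem_filter]; exact ⟨ha.1, hne⟩))

/-- the event that at most `M` cells are charged -/
def few (ρ : ℝ≥0 → Ω → ProbabilityMeasure I) (t : ℝ≥0) (M k : ℕ) : Set Ω :=
  {ω | (charged (ρ t ω : Measure I) k).card ≤ M}

lemma few_anti (t : ℝ≥0) (M : ℕ) : Antitone (few ρ t M) := by
  refine antitone_nat_of_succ_le (fun k ω hω => ?_)
  unfold few at hω ⊢
  simp only [mem_ofPred_eq] at hω ⊢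
  refine le_trans ?_ hω
  refine le_trans (Finset.card_le_card (t := (charged (ρ t ω : Measure I) (k + 1)).image (· / 2))
    ?_) Finset.card_image_le
  intro a ha
  unfold charged at ha
  rw [Finset.mem_filter] at ha
  rw [Finset.mem_image]
  by_contra hcon
  push Not at hcon
  refine ha.2 ?_
  have h1 : {x : I | cell k x = a} ⊆ ⋃ b ∈ (cells (k + 1)).filter (fun b => b / 2 = a),
      {x : I | cell (k + 1) x = b} := by
    intro x hx
    simp only [mem_ofPred_eq] at hx
    simp only [mem_iUnion, mem_ofPred_eq, exists_prop, exists_eq_right', Finset.mem_filter]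
    refine ⟨cell_mem _ x, ?_⟩
    rw [← hx]
    unfold cell
    rw [← Nat.floor_div_natCast]
    congr 1
    rw [pow_succ]
    push_cast
    ring
  refine measure_mono_null h1 ?_
  refine (measure_biUnion_null_iff (Finset.countable_toSet _)).2 ?_
  intro b hb
  rw [Finset.mem_coe, Finset.mem_filter] at hb
  by_contra hne
  exact hcon b (by unfold charged; rw [Finset.mem_filter]; exact ⟨hb.1, hne⟩) hb.2

lemma FVF.few_meas (h : FVF Λ P ρ 𝓕) (t : ℝ≥0) (M k : ℕ) : MeasurableSet (few ρ t M k) := by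
  have h1 : few ρ t M k = ⋃ S ∈ (cells k).powerset.filter (fun S => S.card ≤ M),
      {ω | mass ρ (ci k S) t ω = 1} := by
    ext ω
    unfold few
    simp only [mem_ofPred_eq, mem_iUnion, exists_prop, Finset.mem_filter, Finset.mem_powerset,
      mass_one_iff]
    constructor
    · intro h2
      refine ⟨charged (ρ t ω : Measure I) k, ⟨?_, h2⟩, subset_rfl⟩
      unfold charged
      exact Finset.filter_subset _ _
    · rintro ⟨S, ⟨_, h3⟩, h4⟩
      exact (Finset.card_le_card h4).trans h3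
  rw [h1]
  refine Finset.measurableSet_biUnion _ (fun S _ => ?_)
  exact (h.mass_meas' (blim_ci k S) t) (measurableSet_singleton 1)

lemma FVF.few_le (h : FVF Λ P ρ 𝓕) (hi : ∀ᵐ ω ∂P, (ρ 0 ω : Measure I) = volume) {p κ t : ℝ}
    (ht : 0 ≤ t) (hp0 : 0 ≤ p) (hp1 : p ≤ 1) (hp : ∀ n, 1 - κ ≤ S (rate Λ) (fun m => p ^ m) n t)
    (M k : ℕ) : 1 - κ - p ^ M ≤ P.real (few ρ t.toNNReal M k) := by
  have h1 := h.cells_le hi ht hp0 hp1 hp k
  have hm : ∀ S : Finset ℕ, MeasurableSet {ω | mass ρ (ci k S) t.toNNReal ω = 1} := fun S =>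
    (h.mass_meas' (blim_ci k S) _) (measurableSet_singleton 1)
  have h2 : ∑ S ∈ (cells k).powerset, wt (cells k) p S *
      P.real {ω | mass ρ (ci k S) t.toNNReal ω = 1}
      = ∫ ω, ∑ S ∈ (cells k).powerset, wt (cells k) p S *
        ({ω | mass ρ (ci k S) t.toNNReal ω = 1}.indicator (fun _ => (1 : ℝ))) ω ∂P := by
    rw [integral_finsetSum]
    · refine Finset.sum_congr rfl (fun S _ => ?_)
      rw [integral_const_mul, integral_indicator_const (1 : ℝ) (hm S), smul_eq_mul, mul_one]
    · intro S _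
      exact ((integrable_const (1 : ℝ)).indicator (hm S)).const_mul _
  have h3 : ∫ ω, ∑ S ∈ (cells k).powerset, wt (cells k) p S *
        ({ω | mass ρ (ci k S) t.toNNReal ω = 1}.indicator (fun _ => (1 : ℝ))) ω ∂P
      ≤ ∫ ω, ((few ρ t.toNNReal M k).indicator (fun _ => (1 : ℝ)) ω + p ^ M) ∂P := by
    refine integral_mono (integrable_finsetSum _ (fun S _ =>
      ((integrable_const (1 : ℝ)).indicator (hm S)).const_mul _))
      (((integrable_const (1 : ℝ)).indicator (h.few_meas _ M k)).add (integrable_const _))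
      (fun ω => ?_)
    simp only
    have h4 : ∑ S ∈ (cells k).powerset, wt (cells k) p S *
        ({ω | mass ρ (ci k S) t.toNNReal ω = 1}.indicator (fun _ => (1 : ℝ))) ω
        = p ^ (charged (ρ t.toNNReal ω : Measure I) k).card := by
      rw [← sum_wt (T := cells k) (B := charged (ρ t.toNNReal ω : Measure I) k)
        (by unfold charged; exact Finset.filter_subset _ _) p]
      refine Finset.sum_congr rfl (fun S _ => ?_)
      simp only [indicator, mem_ofPred_eq, mass_one_iff]
      split_ifs <;> simp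
    rw [h4]
    by_cases h5 : ω ∈ few ρ t.toNNReal M k
    · rw [indicator_of_mem h5]
      have h6 : p ^ (charged (ρ t.toNNReal ω : Measure I) k).card ≤ 1 := pow_le_one₀ hp0 hp1
      have h7 : 0 ≤ p ^ M := pow_nonneg hp0 M
      linarith
    · rw [indicator_of_notMem h5, zero_add]
      unfold few at h5
      simp only [mem_ofPred_eq, not_le] at h5
      exact pow_le_pow_of_le_one hp0 hp1 h5.le
  rw [integral_add ((integrable_const (1 : ℝ)).indicator (h.few_meas _ M k)) (integrable_const _),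
    integral_indicator_const (1 : ℝ) (h.few_meas _ M k), integral_const, probReal_univ, one_smul,
    smul_eq_mul, mul_one] at h3
  linarith

/-- the path statement -/
lemma finite_of_few {μ : Measure I} {M : ℕ} (h : ∀ k, (charged μ k).card ≤ M) :
    ∃ F : Set I, F.Finite ∧ μ Fᶜ = 0 := by
  set Z : ℕ → Set I := fun k => {x | cell k x ∈ charged μ k} with hZ
  have hnull : ∀ k, μ (Z k)ᶜ = 0 := by
    intro k
    have h4 : (Z k)ᶜ ⊆ ⋃ a ∈ (cells k \ charged μ k), {x : I | cell k x = a} := by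
      intro x hx
      simp only [hZ, mem_compl_iff, mem_ofPred_eq] at hx
      simp only [mem_iUnion, mem_ofPred_eq, exists_prop, exists_eq_right']
      exact Finset.mem_sdiff.2 ⟨cell_mem k x, hx⟩
    refine measure_mono_null h4 ?_
    refine (measure_biUnion_null_iff (Finset.countable_toSet _)).2 ?_
    intro a ha
    rw [Finset.mem_coe, Finset.mem_sdiff] at ha
    by_contra hne
    exact ha.2 (by unfold charged; rw [Finset.mem_filter]; exact ⟨ha.1, hne⟩)
  refine ⟨⋂ k, Z k, ?_, ?_⟩
  · by_contra hinf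
    obtain ⟨G, hG, hGc⟩ := (show (⋂ k, Z k).Infinite from hinf).exists_subset_card_eq (M + 1)
    -- separate the points
    have hsep : ∀ q ∈ G.offDiag, ∃ k0, ∀ k, k0 ≤ k → cell k q.1 ≠ cell k q.2 := by
      intro q hq
      rw [Finset.mem_offDiag] at hq
      have hne : (q.1 : ℝ) ≠ q.2 := fun h => hq.2.2 (Subtype.ext h)
      have hd : 0 < |(q.1 : ℝ) - q.2| := abs_pos.2 (sub_ne_zero.2 hne)
      obtain ⟨k0, hk0⟩ := pow_unbounded_of_one_lt (1 / |(q.1 : ℝ) - q.2|) (one_lt_two (α := ℝ))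
      refine ⟨k0, fun k hk heq => ?_⟩
      have h2k : (2 : ℝ) ^ k0 ≤ 2 ^ k := pow_le_pow_right₀ one_le_two hk
      have h1 : 1 < 2 ^ k * |(q.1 : ℝ) - q.2| := by
        have := hk0.trans_le h2k
        rwa [div_lt_iff₀ hd] at this
      have e1 : (0 : ℝ) ≤ 2 ^ k * (q.1 : ℝ) := mul_nonneg (by positivity) q.1.2.1
      have e2 : (0 : ℝ) ≤ 2 ^ k * (q.2 : ℝ) := mul_nonneg (by positivity) q.2.2.1
      have f1 := Nat.floor_le e1
      have f2 := Nat.floor_le e2
      have f3 := Nat.lt_floor_add_one ((2 : ℝ) ^ k * (q.1 : ℝ))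
      have f4 := Nat.lt_floor_add_one ((2 : ℝ) ^ k * (q.2 : ℝ))
      unfold cell at heq
      rw [heq] at f1 f3
      have h3 : |2 ^ k * (q.1 : ℝ) - 2 ^ k * (q.2 : ℝ)| < 1 := by
        rw [abs_lt]; constructor <;> linarith
      rw [← mul_sub, abs_mul, abs_of_nonneg (by positivity : (0 : ℝ) ≤ 2 ^ k)] at h3
      linarith
    choose! K hK using hsep
    set k := G.offDiag.sup K with hk
    have hinj : Set.InjOn (cell k) G := by
      intro x hx y hy hxy
      by_contra hne
      have hq : (x, y) ∈ G.offDiag := Finset.mem_offDiag.2 ⟨hx, hy, hne⟩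
      exact hK (x, y) hq k (Finset.le_sup (f := K) hq) hxy
    have h5 : (G.image (cell k)).card = M + 1 := by rw [Finset.card_image_of_injOn hinj, hGc]
    have h6 : G.image (cell k) ⊆ charged μ k := by
      intro a ha
      obtain ⟨x, hx, rfl⟩ := Finset.mem_image.1 ha
      exact mem_iInter.1 (hG hx) k
    have h7 := (Finset.card_le_card h6).trans (h k)
    omega
  · rw [compl_iInter, measure_iUnion_null_iff]
    exact hnull

theorem FVF.finite_support (h : FVF Λ P ρ 𝓕) (hi : ∀ᵐ ω ∂P, (ρ 0 ω : Measure I) = volume)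
    (hD : Down Λ) {t : ℝ} (ht : 0 < t) :
    ∀ᵐ ω ∂P, ∃ F : Set I, F.Finite ∧ (ρ t.toNNReal ω : Measure I) Fᶜ = 0 := by
  set A : Set Ω := {ω | ¬ ∃ F : Set I, F.Finite ∧ (ρ t.toNNReal ω : Measure I) Fᶜ = 0} with hA
  have hbound : ∀ κ : ℝ, 0 < κ → P A ≤ ENNReal.ofReal (2 * κ) := by
    intro κ hκ
    obtain ⟨x, hx0, hx1, hx⟩ := hD t ht κ hκ
    obtain ⟨M, hM⟩ := exists_pow_lt_of_lt_one hκ (by linarith : 1 - x < 1)
    have h1 : ∀ k, ENNReal.ofReal (1 - 2 * κ) ≤ P (few ρ t.toNNReal M k) := by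
      intro k
      have h2 := h.few_le hi ht.le (by linarith : (0 : ℝ) ≤ 1 - x) (by linarith) hx M k
      rw [← ofReal_measureReal]
      exact ENNReal.ofReal_le_ofReal (by linarith)
    have h2 : ENNReal.ofReal (1 - 2 * κ) ≤ P (⋂ k, few ρ t.toNNReal M k) := by
      refine ge_of_tendsto' (tendsto_measure_iInter_atTop
        (fun k => (h.few_meas t.toNNReal M k).nullMeasurableSet) (few_anti t.toNNReal M)
        ⟨0, measure_ne_top _ _⟩) h1
    have h3 : A ⊆ (⋂ k, few ρ t.toNNReal M k)ᶜ := by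
      intro ω hω hω2
      exact hω (finite_of_few (fun k => mem_iInter.1 hω2 k))
    refine (measure_mono h3).trans ?_
    rw [prob_compl_eq_one_sub (MeasurableSet.iInter (fun k => h.few_meas t.toNNReal M k))]
    rw [tsub_le_iff_left]
    refine le_trans ?_ (add_le_add_left h2 _)
    rcases le_or_gt (2 * κ) 1 with h4 | h4
    · rw [← ENNReal.ofReal_add (by linarith) (by linarith)]
      simp
    · refine le_trans ?_ le_add_self
      rw [← ENNReal.ofReal_one]
      exact ENNReal.ofReal_le_ofReal h4.le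
  have hz : P A = 0 := by
    refine le_antisymm (ENNReal.le_of_forall_pos_le_add (fun ε hε _ => ?_)) (by simp)
    refine (hbound (ε / 2) (by positivity)).trans ?_
    rw [zero_add, mul_div_cancel₀ _ (by norm_num : (2 : ℝ) ≠ 0), ENNReal.ofReal_coe_nnreal]
  rw [ae_iff]
  exact hz

end process

end Pool.Agent.H971.EX
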