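import Pool.Agent.H971.EX.Rates

/-! Good times for the block counting chain (helper file). -/

open MeasureTheory Filter Topology Set Pool.Agent.H971.FV
open scoped ENNReal NNReal

namespace Pool.Agent.H971.EX

variable {r : ℕ → ℕ → ℝ}

lemma Q_nonpos (hr : ∀ b j, j < b → 0 ≤ r b j) {g : ℕ → ℝ} (hg : ∀ i j, i ≤ j → g i ≤ g j)
    (b : ℕ) : Q r g b ≤ 0 := by
  unfold Q
  refine Finset.sum_nonpos (fun j hj => ?_)
  rw [Finset.mem_range] at hj
  exact mul_nonpos_of_nonneg_of_nonpos (hr b j hj) (by linarith [hg j b hj.le])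

/-- monotone functions decrease along the chain -/
lemma S_antitone (hr : ∀ b j, j < b → 0 ≤ r b j) {g : ℕ → ℝ} (hg : ∀ i j, i ≤ j → g i ≤ g j)
    (b : ℕ) : AntitoneOn (S r g b) (Ici 0) := by
  refine antitoneOn_of_deriv_nonpos (convex_Ici 0) (S_continuous r g b).continuousOn ?_ ?_
  · exact fun s _ => (S_hasDerivAt r g b s).differentiableAt.differentiableWithinAt
  · intro s hs
    rw [interior_Ici] at hs
    rw [(S_hasDerivAt' hr g b (le_of_lt hs)).deriv]
    have := S_mono hr (g := Q r g) (h := fun _ => 0) (b := b)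
      (fun j _ => Q_nonpos hr hg j) (le_of_lt hs)
    rwa [S_const hr 0 b (le_of_lt hs)] at this

/-- mean square -/
lemma S_sq (hr : ∀ b j, j < b → 0 ≤ r b j) (f : ℕ → ℝ) (c : ℝ) (b : ℕ) {t : ℝ} (ht : 0 ≤ t) :
    S r (fun j => (f j - c) ^ 2) b t = (S r (fun j => f j * f j) b t - S r f b t ^ 2)
      + (S r f b t - c) ^ 2 := by
  have h1 : (fun j => (f j - c) ^ 2)
      = fun j => (1 * (f j * f j) + (-2 * c) * f j) + c ^ 2 := by funext j; ring
  rw [h1, S_add hr (fun j => 1 * (f j * f j) + (-2 * c) * f j) (fun _ => c ^ 2) b ht,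
    S_const hr _ b ht, S_lin hr (fun j => f j * f j) f 1 (-2 * c) b ht]
  ring

section times

variable (hr : ∀ b j, j < b → 0 ≤ r b j) (hM : ∀ b i, i < b → RR r (b + 1) i ≤ RR r b i)
  (hD : ∀ i j, i ≤ j → Q r Hn j ≤ Q r Hn i) {C : ℝ}
  (hσ : ∀ b, ∑ j ∈ Finset.range b, r b j * (Hn b - Hn j) ^ 2 ≤ C)

include hr hD hσ in
lemma upper {M : ℕ} {t : ℝ} (ht : 0 ≤ t) (b : ℕ)
    (h : 1 / 2 ≤ S r (fun m => if m ≤ M then 1 else 0) b t) :
    S r Hn b t ≤ Hn M + (1 + 2 * (C * t)) := by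
  set h0 := S r Hn b t with hh0
  by_contra hcon
  push Not at hcon
  have hHn : ∀ i j, i ≤ j → Hn i ≤ Hn j := fun i j hij => Hn_mono hij
  have h1 := variance hr hHn hD hσ b ht
  have h2 := S_sq hr Hn h0 b ht
  rw [← hh0, sub_self, zero_pow (by norm_num), add_zero] at h2
  rw [← hh0] at h1
  have hCt : 0 ≤ C * t := by
    have h3 : 0 ≤ S r (fun j => (Hn j - h0) ^ 2) b t := S_nonneg hr (fun j _ => sq_nonneg _) ht
    linarith
  have h3 : (h0 - Hn M) ^ 2 * S r (fun m => if m ≤ M then 1 else 0) b t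
      ≤ S r (fun j => (Hn j - h0) ^ 2) b t := by
    rw [← S_smul hr _ _ b ht]
    refine S_mono hr (fun j _ => ?_) ht
    split_ifs with hj
    · have h4 := hHn j M hj
      have h5 : 0 ≤ h0 - Hn M := by linarith
      nlinarith
    · rw [mul_zero]; exact sq_nonneg _
  have h5 : 0 ≤ (h0 - Hn M) ^ 2 := sq_nonneg _
  nlinarith

include hr hM hD hσ in
/-- existence of good times -/
lemma good_time_aux
    (hdown : ∀ t, 0 < t → ∃ M : ℕ, ∀ b, 1 / 2 ≤ S r (fun m => if m ≤ M then 1 else 0) b t)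
    {δ : ℝ} (hδ : 0 < δ) : ∃ L0 : ℝ, ∀ ℓ, L0 ≤ ℓ → ∃ t, 0 < t ∧ t ≤ δ ∧ ∃ n0 : ℕ, ∀ n, n0 ≤ n →
      |S r Hn n t - ℓ| ≤ 1 := by
  have hHn : ∀ i j, i ≤ j → Hn i ≤ Hn j := fun i j hij => Hn_mono hij
  have hup : ∀ t, 0 < t → ∃ B : ℝ, ∀ b, S r Hn b t ≤ B := by
    intro t ht
    obtain ⟨M, hM2⟩ := hdown t ht
    exact ⟨_, fun b => upper hr hD hσ ht.le b (hM2 b)⟩
  obtain ⟨L0, hL0⟩ := hup δ hδ
  refine ⟨L0, fun ℓ hℓ => ?_⟩
  -- a large starting point
  obtain ⟨N, hN⟩ : ∃ N : ℕ, ℓ + 1 < Hn N := by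
    have h1 : Tendsto (fun n : ℕ => ∑ i ∈ Finset.range n, (1 : ℝ) / (i + 1)) atTop atTop :=
      Real.tendsto_sum_range_one_div_nat_succ_atTop
    exact (h1.eventually_gt_atTop (ℓ + 1)).exists
  obtain ⟨t1, ht1, ht1δ, ht1N⟩ : ∃ t1, 0 < t1 ∧ t1 < δ ∧ ℓ < S r Hn N t1 := by
    have h1 : Tendsto (S r Hn N) (𝓝 0) (𝓝 (S r Hn N 0)) := (S_continuous r Hn N).tendsto 0
    rw [S_zero] at h1
    have h2 : ∀ᶠ t in 𝓝[>] (0 : ℝ), ℓ < S r Hn N t :=
      (h1.eventually (lt_mem_nhds (by linarith : ℓ < Hn N))).filter_mono nhdsWithin_le_nhds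
    have h3 : ∀ᶠ t in 𝓝[>] (0 : ℝ), t < δ := nhdsWithin_le_nhds (Iio_mem_nhds hδ)
    have h4 : ∀ᶠ t in 𝓝[>] (0 : ℝ), 0 < t := self_mem_nhdsWithin
    obtain ⟨t, h⟩ := ((h2.and h3).and h4).exists
    exact ⟨t, h.2, h.1.2, h.1.1⟩
  -- Lipschitz constant
  obtain ⟨B, hB⟩ := hup (t1 / 2) (by linarith)
  have hB0 : 0 ≤ B := by
    have h1 : 0 ≤ S r Hn 0 (t1 / 2) := S_nonneg hr (fun j _ => Hn_nonneg j) (by linarith)
    exact h1.trans (hB 0)
  set L := 2 * B / t1 with hL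
  have hL0' : 0 ≤ L := by positivity
  have hanti : ∀ b, AntitoneOn (S r (fun j => - Q r Hn j) b) (Ici 0) := fun b =>
    S_antitone hr (fun i j hij => by linarith [hD i j hij]) b
  have hneg : ∀ b t, 0 ≤ t → S r (fun j => - Q r Hn j) b t = - S r (Q r Hn) b t := by
    intro b t ht
    have := S_smul hr (Q r Hn) (-1) b ht
    simpa using this
  have hA : ∀ b, S r (fun j => - Q r Hn j) b t1 ≤ L := by
    intro b
    obtain ⟨ξ, hξ, hξ2⟩ := exists_hasDerivAt_eq_slope (S r Hn b) (S r (Q r Hn) b)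
      (by linarith : t1 / 2 < t1) (S_continuous r Hn b).continuousOn
      (fun x hx => S_hasDerivAt' hr Hn b (by linarith [hx.1]))
    have h1 := hanti b (mem_Ici.2 (by linarith [hξ.1] : (0 : ℝ) ≤ ξ)) (mem_Ici.2 ht1.le) hξ.2.le
    rw [hneg b ξ (by linarith [hξ.1]), hξ2] at h1
    have h2 : 0 ≤ S r Hn b t1 := S_nonneg hr (fun j _ => Hn_nonneg j) ht1.le
    have h3 := hB b
    refine h1.trans ?_
    rw [hL, ← neg_div, div_le_div_iff₀ (by linarith) ht1]
    have h4 : -(S r Hn b t1 - S r Hn b (t1 / 2)) ≤ B := by linarith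
    nlinarith
  have hLip : ∀ b s t, t1 ≤ s → s ≤ t → S r Hn b s - S r Hn b t ≤ L * (t - s) := by
    intro b s t hs hst
    rcases eq_or_lt_of_le hst with rfl | hst
    · simp
    obtain ⟨ξ, hξ, hξ2⟩ := exists_hasDerivAt_eq_slope (S r Hn b) (S r (Q r Hn) b)
      hst (S_continuous r Hn b).continuousOn
      (fun x hx => S_hasDerivAt' hr Hn b (by linarith [hx.1]))
    have h1 := hanti b (mem_Ici.2 ht1.le) (mem_Ici.2 (by linarith [hξ.1] : (0 : ℝ) ≤ ξ))
      (by linarith [hξ.1])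
    have h2 := h1.trans (hA b)
    rw [hneg b ξ (by linarith [hξ.1]), hξ2, ← neg_div, div_le_iff₀ (by linarith)] at h2
    linarith
  -- the first time below the level
  set T : Set ℝ := {t | t1 ≤ t ∧ t ≤ δ ∧ ∀ n, S r Hn n t ≤ ℓ} with hT
  have hTne : T.Nonempty := ⟨δ, ht1δ.le, le_rfl, fun n => (hL0 n).trans hℓ⟩
  have hTbdd : BddBelow T := ⟨t1, fun t ht => ht.1⟩
  have hTclosed : IsClosed T := by
    have h1 : T = Icc t1 δ ∩ ⋂ n, {t | S r Hn n t ≤ ℓ} := by
      ext t; simp only [hT, mem_ofPred_eq, mem_inter_iff, mem_Icc, mem_iInter, and_assoc]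
    rw [h1]
    exact isClosed_Icc.inter (isClosed_iInter (fun n =>
      isClosed_le (S_continuous r Hn n) continuous_const))
  have hmem : sInf T ∈ T := hTclosed.csInf_mem hTne hTbdd
  set ts := sInf T with hts
  have hgt : t1 < ts := by
    rcases eq_or_lt_of_le hmem.1 with h | h
    · exfalso
      have := hmem.2.2 N
      rw [← h] at this
      linarith
    · exact h
  -- slightly before
  obtain ⟨τ, hτ1, hτ2, hτ3⟩ : ∃ τ, t1 ≤ τ ∧ τ < ts ∧ L * (ts - τ) ≤ 1 := by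
    refine ⟨max t1 (ts - 1 / (L + 1)), le_max_left _ _, ?_, ?_⟩
    · exact max_lt hgt (by have : 0 < 1 / (L + 1) := by positivity
                           linarith)
    · have h1 : ts - max t1 (ts - 1 / (L + 1)) ≤ 1 / (L + 1) := by
        have := le_max_right t1 (ts - 1 / (L + 1))
        linarith
      calc L * (ts - max t1 (ts - 1 / (L + 1))) ≤ L * (1 / (L + 1)) :=
            mul_le_mul_of_nonneg_left h1 hL0'
        _ ≤ 1 := by rw [mul_one_div, div_le_one (by positivity)]; linarith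
  have hτT : τ ∉ T := fun h => by
    have := csInf_le hTbdd h
    rw [← hts] at this
    linarith
  obtain ⟨n0, hn0⟩ : ∃ n0, ℓ < S r Hn n0 τ := by
    by_contra hcon
    push Not at hcon
    exact hτT ⟨hτ1, by linarith [hmem.2.1], hcon⟩
  refine ⟨ts, by linarith, hmem.2.1, n0, fun n hn => ?_⟩
  rw [abs_le]
  have h1 := hLip n0 τ ts hτ1 hτ2.le
  have h2 : S r Hn n0 ts ≤ S r Hn n ts :=
    S_mono_index hM (fun j => Hn_mono (Nat.le_succ j)) (by linarith : (0 : ℝ) ≤ ts) hn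
  have h3 := hmem.2.2 n
  constructor <;> linarith

include hr hD hσ in
lemma window {t ℓ : ℝ} (ht : 0 ≤ t) (hCt : C * t ≤ 1) (n : ℕ) (h : |S r Hn n t - ℓ| ≤ 1) :
    1 / 2 ≤ S r (fun m => if |Hn m - ℓ| ≤ 2 then 1 else 0) n t := by
  have hHn : ∀ i j, i ≤ j → Hn i ≤ Hn j := fun i j hij => Hn_mono hij
  have h1 := variance hr hHn hD hσ n ht
  have h2 := S_sq hr Hn ℓ n ht
  have h3 : (S r Hn n t - ℓ) ^ 2 ≤ 1 := by
    rw [← sq_abs]; have := abs_nonneg (S r Hn n t - ℓ); nlinarith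
  have h4 : S r (fun m => 1 - (1 / 4) * (Hn m - ℓ) ^ 2) n t
      ≤ S r (fun m => if |Hn m - ℓ| ≤ 2 then 1 else 0) n t := by
    refine S_mono hr (fun j _ => ?_) ht
    split_ifs with hj
    · nlinarith [sq_nonneg (Hn j - ℓ)]
    · push Not at hj
      rw [← sq_abs]
      nlinarith
  rw [S_sub hr (fun _ => 1) (fun m => (1 / 4) * (Hn m - ℓ) ^ 2) n ht, S_const hr 1 n ht,
    S_smul hr _ _ n ht] at h4
  linarith

end times

lemma log_le_Hn (m : ℕ) : Real.log (m + 1) ≤ Hn m := by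
  induction m with
  | zero => simp [Hn]
  | succ m ih =>
    rw [Hn_succ]
    push_cast
    have h1 : Real.log ((m : ℝ) + 1 + 1) = Real.log (m + 1) + Real.log (1 + 1 / (m + 1)) := by
      rw [← Real.log_mul (by positivity) (by positivity)]
      congr 1
      field_simp
    have h2 : Real.log (1 + 1 / ((m : ℝ) + 1)) ≤ 1 / (m + 1) := by
      have := Real.log_le_sub_one_of_pos (x := 1 + 1 / ((m : ℝ) + 1)) (by positivity)
      linarith
    linarith

lemma Hn_le_log {m : ℕ} (hm : 1 ≤ m) : Hn m ≤ 1 + Real.log m := by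
  induction m, hm using Nat.le_induction with
  | base => simp [Hn]
  | succ m hm ih =>
    rw [Hn_succ]
    push_cast
    have hm0 : (0 : ℝ) < m := by exact_mod_cast hm
    have h1 : 1 / ((m : ℝ) + 1) ≤ Real.log (m + 1) - Real.log m := by
      have h2 := Real.one_sub_inv_le_log_of_pos (x := ((m : ℝ) + 1) / m) (by positivity)
      rw [Real.log_div (by positivity) (by positivity)] at h2
      have h3 : 1 - (((m : ℝ) + 1) / m)⁻¹ = 1 / (m + 1) := by field_simp; ring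
      linarith
    linarith

/-- The chain comes down from infinity (analytic form). -/
def Down (Λ : Measure ℝ) : Prop :=
  ∀ t, 0 < t → ∀ κ, 0 < κ → ∃ x, 0 < x ∧ x < 1 ∧
    ∀ n, 1 - κ ≤ S (rate Λ) (fun m => (1 - x) ^ m) n t

section final

variable {Λ : Measure ℝ} [IsFiniteMeasure Λ]

lemma rate_hr : ∀ b j, j < b → 0 ≤ rate Λ b j := fun b j _ => rate_nonneg b j

lemma compare' {g : ℕ → ℝ} (hg : ∀ j, 0 ≤ g j) (b : ℕ) {t : ℝ} (ht : 0 ≤ t) :
    Real.exp (-(4 * Λ.real univ * t)) * S (rate (Λ.restrict (Iic (1 / 2)))) g b t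
      ≤ S (rate Λ) g b t :=
  S_compare (rate_hr (Λ := Λ.restrict (Iic (1 / 2)))) (fun _ _ hj => rate_le hj) rate_excess hg b ht

lemma down_restrict (hD : Down Λ) {t : ℝ} (ht : 0 < t) : ∃ M : ℕ, ∀ b,
    1 / 2 ≤ S (rate (Λ.restrict (Iic (1 / 2)))) (fun m => if m ≤ M then 1 else 0) b t := by
  set E := Real.exp (-(4 * Λ.real univ * t)) with hE
  have hE0 : 0 < E := Real.exp_pos _
  obtain ⟨x, hx0, hx1, hx⟩ := hD t ht (E / 4) (by positivity)
  obtain ⟨M, hM⟩ : ∃ M : ℕ, (1 - x) ^ M < 1 / 2 := exists_pow_lt_of_lt_one (by norm_num) (by linarith)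
  refine ⟨M, fun b => ?_⟩
  set r' := rate (Λ.restrict (Iic (1 / 2))) with hr'
  have hr0 : ∀ b j, j < b → 0 ≤ r' b j := rate_hr
  have h1 : (1 : ℝ) - E / 4 ≤ 1 - (1 / 2) * S (rate Λ) (fun m => if M < m then 1 else 0) b t := by
    refine (hx b).trans ?_
    rw [← S_smul rate_hr _ _ b ht.le]
    nth_rewrite 2 [← S_const (r := rate Λ) rate_hr 1 b ht.le]
    rw [← S_sub rate_hr (fun _ => 1) (fun m => (1 / 2) * (if M < m then 1 else 0)) b ht.le]
    refine S_mono rate_hr (fun j _ => ?_) ht.le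
    split_ifs with hj
    · have : (1 - x) ^ j ≤ (1 - x) ^ M :=
        pow_le_pow_of_le_one (by linarith) (by linarith) hj.le
      linarith
    · have : (1 - x) ^ j ≤ 1 := pow_le_one₀ (by linarith) (by linarith)
      linarith
  have h2 := compare' (Λ := Λ) (g := fun m => if M < m then 1 else 0)
    (fun j => by split_ifs <;> norm_num) b ht.le
  rw [← hE, ← hr'] at h2
  have h3 : S r' (fun m => if M < m then 1 else 0) b t ≤ 1 / 2 := by
    by_contra hcon
    push Not at hcon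
    nlinarith
  have h4 : (fun m : ℕ => if m ≤ M then (1 : ℝ) else 0) = fun m => 1 - (if M < m then 1 else 0) := by
    funext m
    split_ifs <;> first | omega | norm_num
  rw [h4, S_sub hr0 (fun _ => 1) (fun m => if M < m then 1 else 0) b ht.le, S_const hr0 1 b ht.le]
  linarith

/-- good times -/
theorem good_time (hD : Down Λ) : ∃ ε0, 0 < ε0 ∧ ε0 ≤ 1 / 2 ∧ ∀ ε, 0 < ε → ε ≤ ε0 →
    ∃ t, 0 < t ∧ ∃ n0 : ℕ, ∀ n, n0 ≤ n → ∀ (g : ℕ → ℝ), (∀ m, 0 ≤ g m) → ∀ w, 0 ≤ w →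
      (∀ m : ℕ, Real.exp (-3) / ε ≤ m → (m : ℝ) ≤ Real.exp 2 / ε → w ≤ g m) →
      (1 / 6) * w ≤ S (rate Λ) g n t := by
  set Λ' := Λ.restrict (Iic (1 / 2)) with hΛ'
  have hΛ0 : Λ' (Ioi (1 / 2)) = 0 := by
    rw [hΛ', Measure.restrict_apply measurableSet_Ioi]
    have : Ioi (1 / 2 : ℝ) ∩ Iic (1 / 2) = ∅ := by
      ext x; simp only [mem_inter_iff, mem_Ioi, mem_Iic, mem_empty_iff_false, iff_false]
      rintro ⟨h1, h2⟩; linarith
    rw [this]; simp
  set c := 5 * Λ.real univ with hc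
  have hc0 : 0 ≤ c := by positivity
  have hc' : 5 * Λ'.real univ ≤ c := by
    have h5 : Λ'.real univ ≤ Λ.real univ := by
      rw [hΛ', measureReal_restrict_apply MeasurableSet.univ]
      exact measureReal_mono (subset_univ _)
    linarith
  have hσ : ∀ b, ∑ j ∈ Finset.range b, rate Λ' b j * (Hn b - Hn j) ^ 2 ≤ c := fun b =>
    (rate_var hΛ0 b).trans hc'
  obtain ⟨L0, hL0⟩ := good_time_aux (r := rate Λ') rate_hr (fun b i hi => rate_M1 b i hi)
    rate_drift hσ (fun t ht => down_restrict hD ht) (δ := 1 / (c + 1)) (by positivity)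
  refine ⟨min (1 / 2) (Real.exp (-(max L0 3))), by positivity, min_le_left _ _,
    fun ε hε hε0 => ?_⟩
  have hℓ : max L0 3 ≤ - Real.log ε := by
    have h1 : ε ≤ Real.exp (-(max L0 3)) := hε0.trans (min_le_right _ _)
    have h2 := Real.log_le_log hε h1
    rw [Real.log_exp] at h2
    linarith
  obtain ⟨t, ht, htδ, n0, hn0⟩ := hL0 (- Real.log ε) ((le_max_left _ _).trans hℓ)
  refine ⟨t, ht, n0, fun n hn g hg w hw hwin => ?_⟩
  have hct : c * t ≤ 1 := by
    calc c * t ≤ c * (1 / (c + 1)) := mul_le_mul_of_nonneg_left htδ hc0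
      _ ≤ 1 := by rw [mul_one_div, div_le_one (by positivity)]; linarith
  have h1 := window (r := rate Λ') rate_hr rate_drift hσ ht.le hct n (hn0 n hn)
  have h2 := compare' (Λ := Λ) (g := fun m => if |Hn m - -Real.log ε| ≤ 2 then 1 else 0)
    (fun j => by split_ifs <;> norm_num) n ht.le
  rw [← hΛ'] at h2
  have h3 : (1 : ℝ) / 3 ≤ Real.exp (-(4 * Λ.real univ * t)) := by
    have h40 : 0 ≤ Λ.real univ * t := mul_nonneg measureReal_nonneg ht.le
    have h41 : c * t = 5 * (Λ.real univ * t) := by rw [hc]; ring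
    have h4 : Real.exp (-1) ≤ Real.exp (-(4 * Λ.real univ * t)) :=
      Real.exp_le_exp.2 (by nlinarith)
    have h5 : (1 : ℝ) / 3 ≤ Real.exp (-1) := by
      rw [Real.exp_neg, one_div]
      exact inv_anti₀ (Real.exp_pos 1) (by linarith [Real.exp_one_lt_d9])
    linarith
  have h4 : (1 : ℝ) / 6 ≤ S (rate Λ) (fun m => if |Hn m - -Real.log ε| ≤ 2 then 1 else 0) n t := by
    nlinarith
  have h5 : w * S (rate Λ) (fun m => if |Hn m - -Real.log ε| ≤ 2 then 1 else 0) n t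
      ≤ S (rate Λ) g n t := by
    rw [← S_smul rate_hr _ _ n ht.le]
    refine S_mono rate_hr (fun m _ => ?_) ht.le
    split_ifs with hm
    · rw [mul_one]
      rw [sub_neg_eq_add, abs_le] at hm
      have h3l : 3 ≤ - Real.log ε := (le_max_right _ _).trans hℓ
      have hm1 : 1 ≤ m := by
        rcases Nat.eq_zero_or_pos m with h0 | h0
        · rw [h0, Hn_zero] at hm
          linarith [hm.1]
        · exact h0
      have hm0 : (0 : ℝ) < m := by exact_mod_cast hm1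
      refine hwin m ?_ ?_
      · -- lower
        have h6 := Hn_le_log hm1
        have h7 : -3 - Real.log ε ≤ Real.log m := by linarith [hm.1]
        rw [div_le_iff₀ hε, ← Real.exp_log hm0, ← Real.exp_log hε, ← Real.exp_add,
          Real.exp_le_exp]
        linarith
      · have h6 := log_le_Hn m
        have h8 : Real.log m ≤ Real.log (m + 1) := Real.log_le_log hm0 (by linarith)
        have h7 : Real.log m ≤ 2 - Real.log ε := by linarith [hm.2]
        rw [le_div_iff₀ hε, ← Real.exp_log hm0, ← Real.exp_log hε, ← Real.exp_add,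
          Real.exp_le_exp]
        linarith
    · rw [mul_zero]; exact hg m
  calc (1 / 6) * w ≤ w * S (rate Λ) (fun m => if |Hn m - -Real.log ε| ≤ 2 then 1 else 0) n t := by
        nlinarith
    _ ≤ _ := h5

end final

end Pool.Agent.H971.EX
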