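import Pool.Agent.H971.EX.Support
import Pool.Agent.H971.EX.Law

/-! From open sets of types to single types (helper file). -/

open MeasureTheory ProbabilityTheory Filter Topology Set Pool.Agent.H971.FV
open scoped ENNReal NNReal unitInterval

namespace Pool.Agent.H971.EX

/-- The type `x` is ancestral for the path `p`. -/
def Ancestral (p : ℝ≥0 → ProbabilityMeasure I) (x : I) : Prop :=
  ∃ t : ℝ≥0, 0 < t ∧ 0 < (p t : Measure I) {x}

/-- The extinction time of the type `x`: the time after which its mass stays `0`. -/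
noncomputable def extinctionTime (p : ℝ≥0 → ProbabilityMeasure I) (x : I) : ℝ≥0∞ :=
  ⨆ (s : ℝ≥0) (_ : 0 < (p s : Measure I) {x}), (s : ℝ≥0∞)

/-- the basis -/
def bas : Set (Set I) := TopologicalSpace.countableBasis I

lemma bas_open {U : Set I} (h : U ∈ bas) : IsOpen U :=
  TopologicalSpace.isOpen_of_mem_countableBasis h

lemma bas_countable : bas.Countable := TopologicalSpace.countable_countableBasis I

lemma bas_nhds {x : I} {O : Set I} (hO : IsOpen O) (hx : x ∈ O) : ∃ U ∈ bas, x ∈ U ∧ U ⊆ O := by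
  obtain ⟨U, hU, hxU, hUO⟩ :=
    (TopologicalSpace.isBasis_countableBasis I).exists_subset_of_mem_open hx hO
  exact ⟨U, hU, hxU, hUO⟩

lemma null_of_bas {μ : Measure I} {O : Set I} (hO : IsOpen O)
    (h : ∀ W ∈ bas, W ⊆ O → μ W = 0) : μ O = 0 := by
  have h1 : O ⊆ ⋃ W ∈ {W ∈ bas | W ⊆ O}, W := by
    intro x hx
    obtain ⟨U, hU, hxU, hUO⟩ := bas_nhds hO hx
    exact mem_iUnion₂.2 ⟨U, ⟨hU, hUO⟩, hxU⟩
  refine measure_mono_null h1 ?_
  refine (measure_biUnion_null_iff (bas_countable.mono (fun W hW => hW.1))).2 ?_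
  exact fun W hW => h W hW.1 hW.2

/-- a path without simultaneous extinction -/
theorem ne_path {p : ℝ≥0 → ProbabilityMeasure I}
    (hr : ∀ t, ContinuousWithinAt p (Ici t) t)
    (hfin : ∀ k : ℕ, ∃ F : Set I, F.Finite ∧ (p (1 / ((k : ℝ≥0) + 1)) : Measure I) Fᶜ = 0)
    (habs : ∀ W ∈ bas, ∀ n r, τ n ≤ r → (p (τ n) : Measure I) W = 0 → (p r : Measure I) W = 0)
    (hg : ∀ U ∈ bas, ∀ V ∈ bas, Disjoint U V → GoodPair p U V)
    {x y : I} (hxy : x ≠ y) (hx : Ancestral p x) :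
    extinctionTime p x ≠ extinctionTime p y := by
  intro heq
  set e := extinctionTime p x with he
  have he0 : 0 < e := by
    obtain ⟨t, ht, hpt⟩ := hx
    have h1 : (t : ℝ≥0∞) ≤ e := le_iSup₂ (f := fun (s : ℝ≥0) (_ : 0 < (p s : Measure I) {x}) =>
      (s : ℝ≥0∞)) t hpt
    exact lt_of_lt_of_le (by exact_mod_cast ht) h1
  -- a small time
  obtain ⟨k, hk⟩ : ∃ k : ℕ, ((1 / ((k : ℝ≥0) + 1) : ℝ≥0) : ℝ≥0∞) < e := by
    obtain ⟨a, ha0, hae⟩ := ENNReal.lt_iff_exists_nnreal_btwn.1 he0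
    have ha0' : 0 < a := by exact_mod_cast ha0
    obtain ⟨k, hk⟩ := exists_nat_one_div_lt (K := ℝ≥0) ha0'
    exact ⟨k, lt_trans (by exact_mod_cast hk) hae⟩
  have hτ : τ (Nat.pair 1 k) = 1 / ((k : ℝ≥0) + 1) := by rw [τ_pair]; simp
  obtain ⟨F, hF, hF0⟩ := hfin k
  -- the key property of small neighbourhoods
  have key : ∀ z : I, extinctionTime p z = e → ∀ U ∈ bas, z ∈ U → U ⊆ (F \ {z})ᶜ →
      alive p U = e := by
    intro z hz U hU hzU hUF
    refine le_antisymm ?_ ?_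
    · unfold alive
      refine iSup₂_le (fun r hr0 => ?_)
      by_contra hcon
      push Not at hcon
      refine hr0 ?_
      have h1 : (p r : Measure I) {z} = 0 := by
        by_contra hne
        have h2 : (r : ℝ≥0∞) ≤ extinctionTime p z :=
          le_iSup₂ (f := fun (s : ℝ≥0) (_ : 0 < (p s : Measure I) {z}) => (s : ℝ≥0∞)) r
            (pos_iff_ne_zero.2 hne)
        rw [hz] at h2
        exact absurd h2 (not_le.2 hcon)
      have hO : IsOpen (U \ {z}) := (bas_open hU).sdiff isClosed_singleton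
      have h2 : (p r : Measure I) (U \ {z}) = 0 := by
        refine null_of_bas hO (fun W hW hWO => ?_)
        refine habs W hW (Nat.pair 1 k) r ?_ ?_
        · rw [hτ]
          exact_mod_cast (hk.trans hcon).le
        · rw [hτ]
          refine measure_mono_null ?_ hF0
          intro w hw hwF
          have h3 := hWO hw
          exact hUF h3.1 ⟨hwF, h3.2⟩
      refine measure_mono_null (t := {z} ∪ (U \ {z})) ?_ (measure_union_null h1 h2)
      intro w hw
      by_cases hwz : w = z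
      · exact Or.inl hwz
      · exact Or.inr ⟨hw, hwz⟩
    · rw [← hz]
      unfold extinctionTime
      refine iSup₂_le (fun s hs => ?_)
      have h1 : (p s : Measure I) U ≠ 0 := by
        intro h0
        exact hs.ne' (measure_mono_null (singleton_subset_iff.2 hzU) h0)
      exact le_iSup₂ (f := fun (s : ℝ≥0) (_ : (p s : Measure I) U ≠ 0) => (s : ℝ≥0∞)) s h1
  obtain ⟨O₁, O₂, hO₁, hO₂, hx₁, hy₂, hdisj⟩ := t2_separation hxy
  have hFx : IsOpen (F \ {x})ᶜ := (hF.subset sdiff_subset).isClosed.isOpen_compl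
  have hFy : IsOpen (F \ {y})ᶜ := (hF.subset sdiff_subset).isClosed.isOpen_compl
  obtain ⟨U, hU, hxU, hUO⟩ := bas_nhds (hO₁.inter hFx) ⟨hx₁, fun h => h.2 rfl⟩
  obtain ⟨V, hV, hyV, hVO⟩ := bas_nhds (hO₂.inter hFy) ⟨hy₂, fun h => h.2 rfl⟩
  have hUV : Disjoint U V := hdisj.mono (hUO.trans inter_subset_left) (hVO.trans inter_subset_left)
  exact pair_ne hr (bas_open hU) (bas_open hV) (hg U hU V hV hUV) he0
    (key x rfl U hU hxU (hUO.trans inter_subset_right))
    (key y heq.symm V hV hyV (hVO.trans inter_subset_right))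

section process

variable {Ω : Type*} [mΩ : MeasurableSpace Ω] {P : Measure Ω}
  {Λ : Measure ℝ} {ρ : ℝ≥0 → Ω → ProbabilityMeasure I}
  [IsProbabilityMeasure P] [IsFiniteMeasure Λ] {𝓕 : Filtration ℝ≥0 mΩ}

theorem FVF.main (h : FVF Λ P ρ 𝓕) (hi : ∀ᵐ ω ∂P, (ρ 0 ω : Measure I) = volume)
    (hD : Down Λ) (hΛ : 0 < rate Λ 2 1) (h1 : Λ {1} = 0) :
    ∀ᵐ ω ∂P, ∀ x y : I, x ≠ y → Ancestral (fun t => ρ t ω) x →
      extinctionTime (fun t => ρ t ω) x ≠ extinctionTime (fun t => ρ t ω) y := by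
  have a1 : ∀ᵐ ω ∂P, ∀ k : ℕ, ∃ F : Set I, F.Finite ∧
      (ρ (1 / ((k : ℝ≥0) + 1)) ω : Measure I) Fᶜ = 0 := by
    rw [ae_all_iff]; intro k
    have h2 := h.finite_support hi hD (t := 1 / ((k : ℝ) + 1)) (by positivity)
    have h3 : (1 / ((k : ℝ) + 1)).toNNReal = 1 / ((k : ℝ≥0) + 1) := by
      have : (1 / ((k : ℝ) + 1)) = ((1 / ((k : ℝ≥0) + 1) : ℝ≥0) : ℝ) := by push_cast; rfl
      rw [this, Real.toNNReal_coe]
    rwa [h3] at h2
  have a2 : ∀ᵐ ω ∂P, ∀ W ∈ bas, ∀ n r, τ n ≤ r → (ρ (τ n) ω : Measure I) W = 0 →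
      (ρ r ω : Measure I) W = 0 := by
    rw [ae_ball_iff bas_countable]
    exact fun W hW => h.absorb_all (bas_open hW)
  have a3 : ∀ᵐ ω ∂P, ∀ U ∈ bas, ∀ V ∈ bas, Disjoint U V → GoodPair (fun t => ρ t ω) U V := by
    rw [ae_ball_iff bas_countable]; intro U hU
    rw [ae_ball_iff bas_countable]; intro V hV
    by_cases hUV : Disjoint U V
    · filter_upwards [h.goodPair hD hΛ h1 (bas_open hU) (bas_open hV) hUV] with ω hω _
      exact hω
    · exact Eventually.of_forall (fun _ h => absurd h hUV)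
  filter_upwards [a1, a2, a3] with ω h2 h3 h4 x y hxy hx
  exact ne_path (fun t => h.right_cont ω t) h2 h3 h4 hxy hx

end process

end Pool.Agent.H971.EX
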